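import Pool.Agent.W355.UN.Tw
import Pool.Agent.W169.HF.EC
import Pool.Agent.W803.UN.Cond

/-!
# Elliptic curves over abelian number fields
-/

set_option autoImplicit false

open Complex Filter Topology Set UpperHalfPlane MatrixGroups CongruenceSubgroup
open scoped ComplexConjugate

namespace Pool.Agent.W355.UN

open Pool.Agent.W355.LJ
open Pool.Agent.W169.HF (IsForm coef heat heat_mul heat_shift)

variable {N : ℕ} [NeZero N] {f : CuspForm (Gamma0 N : Subgroup (GL (Fin 2) ℝ)) 2} {w : ℝ}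

/-- the roots of `X² - λ X + 1` for real `λ`, `|λ| ≤ 2` -/
lemma roots_one {lam : ℝ} (h : |lam| ≤ 2) : ∃ u v : ℂ, ‖u‖ ≤ 1 ∧ ‖v‖ ≤ 1 ∧ (lam : ℂ) = u + v ∧ u * v = 1 := by
  obtain ⟨h1, h2⟩ := abs_le.1 h
  refine ⟨cexp (Real.arccos (lam / 2) * Complex.I), cexp (-(Real.arccos (lam / 2) * Complex.I)), ?_, ?_, ?_, ?_⟩
  · rw [Complex.norm_exp_ofReal_mul_I]
  · rw [← neg_mul, ← Complex.ofReal_neg, Complex.norm_exp_ofReal_mul_I]
  · have h3 : Real.cos (Real.arccos (lam / 2)) = lam / 2 := Real.cos_arccos (by linarith) (by linarith)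
    have h4 : (2 : ℂ) * Complex.cos (Real.arccos (lam / 2)) =
        cexp (Real.arccos (lam / 2) * Complex.I) + cexp (-(Real.arccos (lam / 2)) * Complex.I) :=
      Complex.two_cos _
    rw [← Complex.ofReal_cos, h3] at h4
    rw [← neg_mul, ← h4]
    push_cast
    ring
  · rw [← Complex.exp_add, add_neg_cancel, Complex.exp_zero]

lemma rp_mul (m n : ℕ) : ((((m * n : ℕ) : ℝ) ^ (-(1 / 2 : ℝ)) : ℝ) : ℂ) =
    (((m : ℝ) ^ (-(1 / 2 : ℝ)) : ℝ) : ℂ) * (((n : ℝ) ^ (-(1 / 2 : ℝ)) : ℝ) : ℂ) := by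
  rw [← Complex.ofReal_mul, ← Real.mul_rpow (Nat.cast_nonneg _) (Nat.cast_nonneg _)]
  push_cast
  rfl

omit [NeZero N] in
theorem eu2_of (hf : IsForm N f w) : Eu2 (lam2 f) := by
  refine ⟨?_, fun m n hmn => ?_, fun p hp => ?_⟩
  · unfold lam2
    have := hf.one
    unfold coef at this
    rw [this]
    simp
  · unfold lam2
    have := hf.mul m n hmn
    unfold coef at this
    rw [this, rp_mul]
    ring
  · have hp0 : (0 : ℝ) < p := by exact_mod_cast hp.pos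
    have hsp : 0 < Real.sqrt p := Real.sqrt_pos.2 hp0
    have hreal : coef f p = (((coef f p).re : ℝ) : ℂ) := by
      apply Complex.ext
      · simp
      · rw [hf.real p]; simp
    have hr : (p : ℝ) ^ (-(1 / 2 : ℝ)) = 1 / Real.sqrt p := by
      rw [Real.rpow_neg hp0.le, ← Real.sqrt_eq_rpow, one_div]
    obtain ⟨x, hx⟩ : ∃ x : ℝ, x = (coef f p).re / Real.sqrt p := ⟨_, rfl⟩
    have hlam : lam2 f p = (x : ℂ) := by
      unfold lam2
      have e : (qExpansion 1 f).coeff p = coef f p := rfl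
      rw [e, hreal, hr, hx, ← Complex.ofReal_mul]
      congr 1
      rw [mul_one_div]
    have hpp : ∀ k : ℕ, (((p ^ (k + 1) : ℕ) : ℝ) ^ (-(1 / 2 : ℝ)) : ℝ) =
        (p : ℝ) ^ (-(1 / 2 : ℝ)) * ((p ^ k : ℕ) : ℝ) ^ (-(1 / 2 : ℝ)) := fun k => by
      rw [← Real.mul_rpow hp0.le (Nat.cast_nonneg _)]
      congr 1
      push_cast
      ring
    have hsq : (p : ℝ) * ((p : ℝ) ^ (-(1 / 2 : ℝ)) * (p : ℝ) ^ (-(1 / 2 : ℝ))) = 1 := by
      rw [hr]
      have := Real.mul_self_sqrt hp0.le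
      field_simp
      nlinarith
    have hpow := fun k => hf.pow p k hp
    unfold coef at hpow
    by_cases hpN : p ∣ N
    · have hbd : |x| ≤ 1 := by
        have h1 := hf.bad p hp hpN
        rw [hreal, Complex.norm_real, Real.norm_eq_abs] at h1
        rw [hx, abs_div, abs_of_pos hsp, div_le_one hsp]
        exact h1
      refine ⟨(x : ℂ), 0, ?_, by simp, by rw [hlam, add_zero], fun k => ?_⟩
      · rw [Complex.norm_real]; exact hbd
      · have h2 := hpow k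
        rw [if_pos hpN, sub_zero] at h2
        rw [mul_zero, zero_mul, sub_zero]
        unfold lam2
        rw [h2, hpp (k + 1)]
        push_cast
        ring
    · have hbd : |x| ≤ 2 := by
        have h1 := hf.good p hp hpN
        rw [hreal, Complex.norm_real, Real.norm_eq_abs] at h1
        rw [hx, abs_div, abs_of_pos hsp, div_le_iff₀ hsp]
        exact h1
      obtain ⟨u, v, hu, hv, h3, h4⟩ := roots_one hbd
      refine ⟨u, v, hu, hv, by rw [hlam, h3], fun k => ?_⟩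
      have h2 := hpow k
      rw [if_neg hpN] at h2
      rw [h4, one_mul]
      unfold lam2
      rw [h2, hpp (k + 1), hpp k]
      have hsqc : (p : ℂ) * ((((p : ℝ) ^ (-(1 / 2 : ℝ)) : ℝ) : ℂ) * (((p : ℝ) ^ (-(1 / 2 : ℝ)) : ℝ) : ℂ)) = 1 := by
        exact_mod_cast hsq
      simp only [Complex.ofReal_mul]
      linear_combination (-(qExpansion 1 f).coeff (p ^ k) * (((p ^ k : ℕ) : ℝ) ^ (-(1 / 2 : ℝ)) : ℝ)) * hsqc

omit [NeZero N] in
theorem isNewf_of (hf : IsForm N f w) : W388.IsNewf N 2 f w := by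
  refine ⟨hf.one, hf.real, hf.mul, fun p j hp => ?_, hf.sign, fun τ τ' h => ?_⟩
  · have := hf.pow p j hp
    unfold coef at this
    rw [this]
    norm_num
  · rw [hf.fricke τ τ' h]
    have hN : ((Real.sqrt N : ℝ) : ℂ) ^ 2 = N := by
      rw [← Complex.ofReal_pow, Real.sq_sqrt (Nat.cast_nonneg _), Complex.ofReal_natCast]
    have e : (((Real.sqrt N : ℝ) : ℂ) * (τ : ℂ) / Complex.I) ^ (2 : ℤ) = -((N : ℂ) * (τ : ℂ) ^ 2) := by
      have : (((Real.sqrt N : ℝ) : ℂ) * (τ : ℂ) / Complex.I) ^ (2 : ℤ) =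
          (((Real.sqrt N : ℝ) : ℂ) * (τ : ℂ) / Complex.I) ^ 2 := rfl
      rw [this, div_pow, mul_pow, hN, Complex.I_sq]
      ring
    rw [e]
    ring

/-- one factor in the normalisation of elliptic curves: `(√N q / 2π)^s Γ(s) ∑ c(n) χ(n) n^(-s)` -/
noncomputable def facE (f : CuspForm (Gamma0 N : Subgroup (GL (Fin 2) ℝ)) 2) {q : ℕ}
    (χ : DirichletCharacter ℂ q) (s : ℂ) : ℂ :=
  ((Real.sqrt N * q / (2 * Real.pi) : ℝ) : ℂ) ^ s * Complex.Gamma s *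
    ∑' n : ℕ, coef f (n + 1) * χ ((n + 1 : ℕ) : ZMod q) * ((n + 1 : ℕ) : ℂ) ^ (-s)

theorem fac_eq (hE : Eu2 (lam2 f)) {q : ℕ} (hq : 0 < q) (χ : DirichletCharacter ℂ q) {s : ℂ}
    (hs : 1 < s.re) :
    cser 0 ((N : ℝ) * (q : ℝ) ^ 2) [(((1 / 2 : ℝ)) : ℂ), (((3 / 2 : ℝ)) : ℂ)]
      (fun n => χ (n : ZMod q) * lam2 f n) s =
    (2 * ((Real.sqrt N * q : ℝ) : ℂ) ^ (-(1 / 2) : ℂ)) * facE f χ (s + 1 / 2) := by
  have hN : (0 : ℝ) < N := by exact_mod_cast Nat.pos_of_ne_zero (NeZero.ne N)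
  have hq0 : (0 : ℝ) < q := by exact_mod_cast hq
  have hsN : 0 < Real.sqrt N := Real.sqrt_pos.2 hN
  have hR : 0 < Real.sqrt N * q := by positivity
  have hRc : ((Real.sqrt N * q : ℝ) : ℂ) ≠ 0 := by exact_mod_cast hR.ne'
  obtain ⟨c, hc, hconv⟩ := (hE.twist χ).conv
  have hsum : LSeriesSummable (fun n => χ (n : ZMod q) * lam2 f n) s :=
    (Pool.Agent.W672.UN.coef 2 _ c (hE.twist χ).one (fun n => by simpa using hc n) hconv s hs).1
  unfold cser facE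
  rw [lseries_tsum hsum]
  simp only [List.map_cons, List.map_nil, List.prod_cons, List.prod_nil, mul_one, pow_zero, one_mul]
  have e1 : Gammaℝ (s + (((1 / 2 : ℝ)) : ℂ)) * Gammaℝ (s + (((3 / 2 : ℝ)) : ℂ)) =
      2 * (2 * (Real.pi : ℂ)) ^ (-(s + 1 / 2)) * Complex.Gamma (s + 1 / 2) := by
    rw [← Complex.Gammaℂ_def, ← Complex.Gammaℝ_mul_Gammaℝ_add_one]
    congr 2
    · push_cast; ring
    · push_cast; ring
  have e2 : (((N : ℝ) * (q : ℝ) ^ 2 : ℝ) : ℂ) ^ (s / 2) =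
      ((Real.sqrt N * q : ℝ) : ℂ) ^ (-(1 / 2) : ℂ) * ((Real.sqrt N * q : ℝ) : ℂ) ^ (s + 1 / 2) := by
    rw [← Complex.cpow_add _ _ hRc]
    have h1 : (N : ℝ) * (q : ℝ) ^ 2 = (Real.sqrt N * q) ^ (2 : ℝ) := by
      rw [Real.rpow_two, mul_pow, Real.sq_sqrt hN.le]
    rw [h1, ← Complex.cpow_mul_ofReal_nonneg hR.le 2 (s / 2)]
    congr 1
    push_cast
    ring
  have e3 : ((Real.sqrt N * q / (2 * Real.pi) : ℝ) : ℂ) ^ (s + 1 / 2) =
      ((Real.sqrt N * q : ℝ) : ℂ) ^ (s + 1 / 2) * (2 * (Real.pi : ℂ)) ^ (-(s + 1 / 2)) := by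
    have h2pi : (0 : ℝ) < 2 * Real.pi := by positivity
    rw [Complex.ofReal_div, Complex.div_cpow_ofReal_nonneg hR.le h2pi.le, Complex.cpow_neg,
      div_eq_mul_inv]
    push_cast
    rfl
  have e4 : (∑' m : ℕ, χ ((m + 1 : ℕ) : ZMod q) * lam2 f (m + 1) * ((m + 1 : ℕ) : ℂ) ^ (-s)) =
      ∑' n : ℕ, coef f (n + 1) * χ ((n + 1 : ℕ) : ZMod q) * ((n + 1 : ℕ) : ℂ) ^ (-(s + 1 / 2)) := by
    refine tsum_congr fun n => ?_
    have hn : ((n + 1 : ℕ) : ℂ) ≠ 0 := by exact_mod_cast Nat.succ_ne_zero n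
    have h1 : -(s + 1 / 2) = ((-(1 / 2) : ℝ) : ℂ) + -s := by push_cast; ring
    have h2 : ((((n + 1 : ℕ) : ℝ) ^ (-(1 / 2 : ℝ)) : ℝ) : ℂ) =
        ((n + 1 : ℕ) : ℂ) ^ ((-(1 / 2) : ℝ) : ℂ) := by
      rw [Complex.ofReal_cpow (Nat.cast_nonneg _), Complex.ofReal_natCast]
    rw [h1, Complex.cpow_add _ _ hn, ← h2]
    unfold lam2 coef
    ring
  rw [e1, e2, e3, e4]
  ring

end Pool.Agent.W355.UN
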