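import Pool.Agent.W355.UN.Ab

/-!
# Elliptic curves over abelian number fields: the theorem
-/

set_option autoImplicit false

open Complex Filter Topology Set UpperHalfPlane MatrixGroups CongruenceSubgroup
open scoped ComplexConjugate

namespace Pool.Agent.W355.UN

open Pool.Agent.W355.LJ
open Pool.Agent.W169.HF (IsForm coef heat heat_mul heat_shift)

variable {N : ℕ} [NeZero N] {f : CuspForm (Gamma0 N : Subgroup (GL (Fin 2) ℝ)) 2} {w : ℝ}
variable {M : ℕ} [NeZero M] (G : Subgroup (DirichletCharacter ℂ M)) [Fintype G]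

/-- the product over the characters -/
noncomputable def prodE (f : CuspForm (Gamma0 N : Subgroup (GL (Fin 2) ℝ)) 2) (s : ℂ) : ℂ :=
  ∏ χ : G, facE f (χ : DirichletCharacter ℂ M).primitiveCharacter s

/-- the conductor -/
noncomputable def condA (N : ℕ) : ℝ :=
  ∏ χ : G, ((N : ℝ) * ((χ : DirichletCharacter ℂ M).conductor : ℝ) ^ 2)

/-- the conductor of the field -/
noncomputable def condK : ℕ := Finset.univ.lcm fun χ : G => (χ : DirichletCharacter ℂ M).conductor

lemma condK_pos : 0 < condK G := by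
  unfold condK
  have h := (Pool.Agent.W803.UN.fac_lcm (Finset.univ : Finset G)
    (fun χ : G => (χ : DirichletCharacter ℂ M).conductor)
    (fun χ => DirichletCharacter.conductor_ne_zero _) 2).1
  exact Nat.pos_of_ne_zero h

lemma log_condA {N : ℕ} (hN : 0 < N) :
    (Fintype.card G : ℝ) * Real.log ((N : ℝ) * condK G) ≤ Real.log (condA G N) := by
  have hN0 : (0 : ℝ) < N := by exact_mod_cast hN
  have hc : ∀ χ : G, (0 : ℝ) < ((χ : DirichletCharacter ℂ M).conductor : ℝ) := fun χ => by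
    exact_mod_cast Nat.pos_of_ne_zero (DirichletCharacter.conductor_ne_zero _)
  have hK : (0 : ℝ) < condK G := by exact_mod_cast condK_pos G
  have h := Pool.Agent.W803.UN.cond M G
  unfold condA
  rw [Real.log_prod (fun χ _ => by have := hc χ; positivity)]
  have h1 : ∀ χ : G, Real.log ((N : ℝ) * ((χ : DirichletCharacter ℂ M).conductor : ℝ) ^ 2) =
      Real.log N + 2 * Real.log ((χ : DirichletCharacter ℂ M).conductor : ℝ) := fun χ => by
    rw [Real.log_mul hN0.ne' (by have := hc χ; positivity), Real.log_pow]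
    push_cast
    ring
  simp only [h1]
  rw [Finset.sum_add_distrib, ← Finset.mul_sum, Finset.sum_const, Finset.card_univ, nsmul_eq_mul,
    Real.log_mul hN0.ne' hK.ne']
  unfold condK
  linarith

lemma coprime_cond (hco : Nat.Coprime M N) (χ : DirichletCharacter ℂ M) :
    Nat.Coprime χ.conductor N :=
  Nat.Coprime.coprime_dvd_left (DirichletCharacter.conductor_dvd_level χ) hco

/-- the analytic conductor of one factor -/
noncomputable def cnE (N : ℕ) (q : ℕ) : ℝ → ℝ :=
  acond ((N : ℝ) * (q : ℝ) ^ 2) [(((1 / 2 : ℝ)) : ℂ), (((3 / 2 : ℝ)) : ℂ)]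

lemma cnE_ge (N q : ℕ) (y : ℝ) : (N : ℝ) * (q : ℝ) ^ 2 * (1 + |y|) ^ 2 ≤ cnE N q y := by
  unfold cnE acond
  simp only [List.map_cons, List.map_nil, List.prod_cons, List.prod_nil, mul_one]
  have h1 : ∀ a : ℝ, |y| ≤ ‖(y : ℂ) * Complex.I + (a : ℂ)‖ := fun a => by
    have h := Complex.abs_im_le_norm ((y : ℂ) * Complex.I + (a : ℂ))
    have e : ((y : ℂ) * Complex.I + (a : ℂ)).im = y := by simp
    rwa [e] at h
  have h2 := h1 (1 / 2)
  have h3 := h1 (3 / 2)
  have h4 := abs_nonneg y
  apply mul_le_mul_of_nonneg_left _ (by positivity)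
  nlinarith

/-- the constant between the two normalisations -/
noncomputable def kap (N : ℕ) : ℂ :=
  ∏ χ : G, (2 * ((Real.sqrt N * ((χ : DirichletCharacter ℂ M).conductor : ℝ) : ℝ) : ℂ) ^ (-(1 / 2) : ℂ))

lemma kap_ne {N : ℕ} (hN : 0 < N) : kap G N ≠ 0 := by
  unfold kap
  refine Finset.prod_ne_zero_iff.2 fun χ _ => mul_ne_zero two_ne_zero ?_
  have hN0 : (0 : ℝ) < N := by exact_mod_cast hN
  have h1 : (0 : ℝ) < ((χ : DirichletCharacter ℂ M).conductor : ℝ) := by
    exact_mod_cast Nat.pos_of_ne_zero (DirichletCharacter.conductor_ne_zero _)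
  have hR : 0 < Real.sqrt N * ((χ : DirichletCharacter ℂ M).conductor : ℝ) := by
    have := Real.sqrt_pos.2 hN0
    positivity
  rw [Ne, Complex.cpow_eq_zero_iff]
  exact fun h => hR.ne' (by exact_mod_cast h.1)

/-- the L-function of `E` over `K`, normalised to `Re s = 1/2` -/
theorem pk_ab (hf : IsForm N f w) (hco : Nat.Coprime M N) :
    ∃ X : ℂ → ℂ, Pk (2 * Fintype.card G) (condA G N)
      (fun y => ∏ χ : G, cnE N (χ : DirichletCharacter ℂ M).conductor y)
      (fun s => kap G N * prodE G f (s + 1 / 2)) X := by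
  have hE := eu2_of hf
  have hnf := isNewf_of hf
  have hone : ∀ χ : G, ∃ X : ℂ → ℂ, Pk 2 ((N : ℝ) * ((χ : DirichletCharacter ℂ M).conductor : ℝ) ^ 2)
      (cnE N (χ : DirichletCharacter ℂ M).conductor)
      (fun s => (2 * ((Real.sqrt N * ((χ : DirichletCharacter ℂ M).conductor : ℝ) : ℝ) : ℂ) ^
        (-(1 / 2) : ℂ)) * facE f (χ : DirichletCharacter ℂ M).primitiveCharacter (s + 1 / 2)) X := by
    intro χ
    haveI : NeZero (χ : DirichletCharacter ℂ M).conductor := ⟨DirichletCharacter.conductor_ne_zero _⟩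
    obtain ⟨c, X, h⟩ := tw_raw f hE hnf (χ : DirichletCharacter ℂ M).primitiveCharacter
      (DirichletCharacter.primitiveCharacter_isPrimitive _) (coprime_cond hco _)
    refine ⟨X, (pk_raw h).congr (fun y => rfl) ⟨2, fun s hs => ?_⟩⟩
    exact fac_eq hE (Nat.pos_of_ne_zero (NeZero.ne _)) _ (by linarith)
  have hl : (Finset.univ : Finset G).toList ≠ [] := by
    intro h
    have h1 : (1 : G) ∈ (Finset.univ : Finset G).toList := Finset.mem_toList.2 (Finset.mem_univ _)
    rw [h] at h1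
    exact List.not_mem_nil h1
  obtain ⟨X, h⟩ := pk_list _ _ _ _ hone (Finset.univ : Finset G).toList hl
  refine ⟨X, ?_⟩
  simp only [Finset.prod_map_toList, Finset.sum_map_toList] at h
  rw [Finset.sum_const, Finset.card_univ, smul_eq_mul, mul_comm] at h
  refine h.congr (fun y => rfl) ⟨0, fun s _ => ?_⟩
  unfold kap prodE
  rw [Finset.prod_mul_distrib]

theorem main_ab {C : ℝ} {K : ℝ → ℝ} (H : ∀ (d : ℕ) (N : ℝ) (cn : ℝ → ℝ) (G X : ℂ → ℂ),
    Pk d N cn G X → Res C K d N cn X) (hC : 0 < C) (hf : IsForm N f w) (hco : Nat.Coprime M N) :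
    ∃ Λ : ℂ → ℂ, Differentiable ℂ Λ ∧ (∃ σ : ℝ, ∀ s : ℂ, σ ≤ s.re → Λ s = prodE G f s) ∧
    (∃ W : ℂ, ‖W‖ = 1 ∧ ∀ s : ℂ, Λ (2 - s) = W * conj (Λ (conj s))) ∧
    (∀ t : ℝ, 0 < t → C ≤ t * (Fintype.card G + Real.log (condA G N)) →
      ∀ s : ℂ, heat t Λ s = 0 → s.re = 1) ∧
    ((∀ s : ℂ, Λ s = 0 → s.re = 1) ↔ ∀ t : ℝ, 0 < t →
      t * (Fintype.card G + Real.log (condA G N)) < C → ∀ s : ℂ, heat t Λ s = 0 → s.re = 1) ∧
    (∀ (t : ℝ) (s : ℂ), 0 < t →
      C ≤ t * (Fintype.card G + Real.log (condA G N * (1 + |s.im|) ^ (2 * Fintype.card G))) →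
      heat t Λ s = 0 → s.re = 1) ∧
    ∀ η : ℝ, 0 < η →
      (Real.exp (2 * K η) ≤ N * condK G →
        (∀ t : ℝ, (1 + η) / Real.log (condA G N) ≤ t → ∀ s : ℂ, heat t Λ s = 0 → s.re = 1) ∧
        ((∀ s : ℂ, Λ s = 0 → s.re = 1) ↔ ∀ t : ℝ, 0 < t → t < (1 + η) / Real.log (condA G N) →
          ∀ s : ℂ, heat t Λ s = 0 → s.re = 1)) ∧
      (∀ (t : ℝ) (s : ℂ), 0 < t → Real.exp (2 * K η) ≤ N * condK G * (1 + |s.im|) ^ 2 →
        1 + η ≤ t * Real.log (condA G N * (1 + |s.im|) ^ (2 * Fintype.card G)) →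
        heat t Λ s = 0 → s.re = 1) := by
  obtain ⟨X, hpk⟩ := pk_ab G hf hco
  have hres := H _ _ _ _ _ hpk
  have hdiff := hpk.diff
  obtain ⟨w', hw', hfe⟩ := hpk.fe
  have hA1 := hpk.one_le_N
  obtain ⟨μ, L, u, ec, σ, hσ⟩ := hpk
  have hNpos : 0 < N := Nat.pos_of_ne_zero (NeZero.ne N)
  have hN0 : (0 : ℝ) < N := by exact_mod_cast hNpos
  have hκ := kap_ne G hNpos
  have hκi : (kap G N)⁻¹ ≠ 0 := inv_ne_zero hκ
  have hlog := Real.log_nonneg hA1
  have hcard : (1 : ℝ) ≤ Fintype.card G := by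
    exact_mod_cast Fintype.card_pos
  have hKpos : (0 : ℝ) < condK G := by exact_mod_cast condK_pos G
  have hre : ∀ s : ℂ, (s - 1 / 2).re = s.re - 1 / 2 := fun s => by simp
  have him : ∀ s : ℂ, (s - 1 / 2).im = s.im := fun s => by simp
  have hline : ∀ s : ℂ, (s - 1 / 2).re = 1 / 2 → s.re = 1 := fun s hs => by
    rw [hre] at hs
    linarith
  have hheat : ∀ (t : ℝ) (s : ℂ), heat t (fun z => (kap G N)⁻¹ * X (z - 1 / 2)) s = 0 ↔
      heat t X (s - 1 / 2) = 0 := by
    intro t s
    have h1 := heat_mul t (kap G N)⁻¹ (fun z => X (z - 1 / 2)) s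
    have h2 := heat_shift t (-(1 / 2)) X s
    rw [h1]
    have h3 : heat t (fun z => X (z - 1 / 2)) s = heat t X (s - 1 / 2) := by
      simpa [sub_eq_add_neg] using h2
    rw [h3]
    constructor
    · intro h
      exact (mul_eq_zero.1 h).resolve_left hκi
    · intro h
      rw [h, mul_zero]
  have hzero : ∀ s : ℂ, (kap G N)⁻¹ * X (s - 1 / 2) = 0 ↔ X (s - 1 / 2) = 0 := fun s => by
    constructor
    · intro h
      exact (mul_eq_zero.1 h).resolve_left hκi
    · intro h
      rw [h, mul_zero]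
  -- comparison of the analytic conductors
  have hcn : ∀ y : ℝ, condA G N * (1 + |y|) ^ (2 * Fintype.card G) ≤
      ∏ χ : G, cnE N (χ : DirichletCharacter ℂ M).conductor y := by
    intro y
    have e : condA G N * (1 + |y|) ^ (2 * Fintype.card G) =
        ∏ χ : G, ((N : ℝ) * ((χ : DirichletCharacter ℂ M).conductor : ℝ) ^ 2 * (1 + |y|) ^ 2) := by
      unfold condA
      rw [Finset.prod_mul_distrib (g := fun _ => (1 + |y|) ^ 2), Finset.prod_const, Finset.card_univ,
        ← pow_mul]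
    rw [e]
    exact Finset.prod_le_prod (fun χ _ => by positivity) fun χ _ => cnE_ge N _ y
  have hApos : 0 < condA G N := by linarith
  have hpw : ∀ y : ℝ, 1 ≤ (1 + |y|) ^ (2 * Fintype.card G) := fun y =>
    one_le_pow₀ (by linarith [abs_nonneg y])
  have hlc : ∀ y : ℝ, Real.log (condA G N * (1 + |y|) ^ (2 * Fintype.card G)) ≤
      Real.log (∏ χ : G, cnE N (χ : DirichletCharacter ℂ M).conductor y) := fun y => by
    have := hpw y
    exact Real.log_le_log (by positivity) (hcn y)
  have hbig := log_condA G hNpos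
  refine ⟨fun s => (kap G N)⁻¹ * X (s - 1 / 2), ?_, ⟨σ + 1 / 2, fun s hs => ?_⟩,
    ⟨(kap G N)⁻¹ * w' * conj (kap G N), ?_, fun s => ?_⟩, ?_, ?_, ?_, fun η hη => ⟨fun hT => ⟨?_, ?_⟩, ?_⟩⟩
  · exact (hdiff.comp (by fun_prop : Differentiable ℂ fun s : ℂ => s - 1 / 2)).const_mul _
  · show (kap G N)⁻¹ * X (s - 1 / 2) = prodE G f s
    rw [hσ (s - 1 / 2) (by rw [hre]; linarith)]
    show (kap G N)⁻¹ * (kap G N * prodE G f (s - 1 / 2 + 1 / 2)) = prodE G f s
    rw [sub_add_cancel, inv_mul_cancel_left₀ hκ]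
  · rw [norm_mul, norm_mul, norm_inv, RCLike.norm_conj, hw', mul_one,
      inv_mul_cancel₀ (norm_ne_zero_iff.2 hκ)]
  · show (kap G N)⁻¹ * X (2 - s - 1 / 2) =
      (kap G N)⁻¹ * w' * conj (kap G N) * conj ((kap G N)⁻¹ * X (conj s - 1 / 2))
    have h1 : (2 - s - 1 / 2 : ℂ) = 1 - (s - 1 / 2) := by ring
    have h2 : conj (s - 1 / 2) = conj s - 1 / 2 := by
      rw [map_sub, map_div₀, map_one, map_ofNat]
    have h3 : conj (kap G N) ≠ 0 := (map_ne_zero _).2 hκ
    rw [h1, hfe, h2, map_mul, map_inv₀]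
    field_simp
  · intro t ht hc s hs
    refine hline s (hres.glob t ht ?_ _ ((hheat t s).1 hs))
    push_cast
    nlinarith
  · have hpos : 0 < (Fintype.card G : ℝ) + Real.log (condA G N) := by linarith
    have hrh := rh_iff u (T := C / (Fintype.card G + Real.log (condA G N))) (by positivity)
    constructor
    · intro h t ht htC s hs
      refine hline s (hrh.1 (fun z hz => ?_) t ht ((lt_div_iff₀ hpos).2 htC) _ ((hheat t s).1 hs))
      have := h (z + 1 / 2) ((hzero _).2 (by rw [add_sub_cancel_right]; exact hz))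
      have e : (z + 1 / 2 : ℂ).re = z.re + 1 / 2 := by simp
      rw [e] at this
      linarith
    · intro h s hs
      refine hline s (hrh.2 (fun t ht htC z hz => ?_) _ ((hzero s).1 hs))
      have := h t ht ((lt_div_iff₀ hpos).1 htC) (z + 1 / 2) ((hheat t _).2 (by
        rw [add_sub_cancel_right]; exact hz))
      have e : (z + 1 / 2 : ℂ).re = z.re + 1 / 2 := by simp
      rw [e] at this
      linarith
  · intro t s ht hc hs
    refine hline s (hres.loc t _ ht ?_ ((hheat t s).1 hs))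
    rw [him]
    refine hc.trans (mul_le_mul_of_nonneg_left ?_ ht.le)
    have := hlc s.im
    push_cast
    linarith
  · have hT' : K η * ((2 * Fintype.card G : ℕ) : ℝ) ≤ Real.log (condA G N) := by
      have h1 : 2 * K η ≤ Real.log (N * condK G) := by
        rw [Real.le_log_iff_exp_le (by positivity)]
        exact hT
      push_cast
      nlinarith
    intro t ht s hs
    exact hline s ((hres.globS η hη hT').1 t ht _ ((hheat t s).1 hs))
  · have hT' : K η * ((2 * Fintype.card G : ℕ) : ℝ) ≤ Real.log (condA G N) := by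
      have h1 : 2 * K η ≤ Real.log (N * condK G) := by
        rw [Real.le_log_iff_exp_le (by positivity)]
        exact hT
      push_cast
      nlinarith
    have hrh := (hres.globS η hη hT').2
    constructor
    · intro h t ht htC s hs
      refine hline s (hrh.1 (fun z hz => ?_) t ht htC _ ((hheat t s).1 hs))
      have := h (z + 1 / 2) ((hzero _).2 (by rw [add_sub_cancel_right]; exact hz))
      have e : (z + 1 / 2 : ℂ).re = z.re + 1 / 2 := by simp
      rw [e] at this
      linarith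
    · intro h s hs
      refine hline s (hrh.2 (fun t ht htC z hz => ?_) _ ((hzero s).1 hs))
      have := h t ht htC (z + 1 / 2) ((hheat t _).2 (by
        rw [add_sub_cancel_right]; exact hz))
      have e : (z + 1 / 2 : ℂ).re = z.re + 1 / 2 := by simp
      rw [e] at this
      linarith
  · intro t s ht hT hc hs
    refine hline s (hres.locS η hη t _ ht ?_ ?_ ((hheat t s).1 hs))
    · rw [him]
      refine le_trans ?_ (hlc s.im)
      have hy1 : 0 < 1 + |s.im| := by linarith [abs_nonneg s.im]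
      have h1 : 2 * K η ≤ Real.log (N * condK G * (1 + |s.im|) ^ 2) := by
        rw [Real.le_log_iff_exp_le (by positivity)]
        exact hT
      rw [Real.log_mul (by positivity) (by positivity), Real.log_pow] at h1
      rw [Real.log_mul hApos.ne' (by positivity), Real.log_pow]
      push_cast at h1 ⊢
      nlinarith
    · rw [him]
      exact hc.trans (mul_le_mul_of_nonneg_left (hlc s.im) ht.le)

end Pool.Agent.W355.UN
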