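import Pool.Agent.W355.UN.Inst
import Pool.Agent.W672.UN.Coef
import Pool.Agent.W12.UN.Slow
import Pool.Agent.W215.UN.Gam

/-!
# The theorems with one constant
-/

set_option autoImplicit false

open Complex MeasureTheory Filter Topology Set
open scoped ComplexConjugate

namespace Pool.Agent.W355.UN

open Pool.Agent.W169.HF H353.E

theorem pk_raw {l : List ℂ} {r : ℕ} {N : ℝ} {b c : ℕ → ℂ} {X : ℂ → ℂ} (h : RawL l r N b c X) :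
    Pk l.length N (acond N l) (cser r N l b) X :=
  pk_of_raw Pool.Agent.W672.UN.coef Pool.Agent.W12.UN.slow Pool.Agent.W215.UN.gam h

/-- all results -/
structure Res (C : ℝ) (K : ℝ → ℝ) (d : ℕ) (N : ℝ) (cn : ℝ → ℝ) (X : ℂ → ℂ) : Prop where
  loc : ∀ (t : ℝ) (s : ℂ), 0 < t → C ≤ t * (d + Real.log (cn s.im)) → heat t X s = 0 → s.re = 1 / 2
  glob : ∀ (t : ℝ), 0 < t → C ≤ t * (d + Real.log N) → ∀ s : ℂ, heat t X s = 0 → s.re = 1 / 2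
  iff : (∀ s : ℂ, X s = 0 → s.re = 1 / 2) ↔
      ∀ t : ℝ, 0 < t → t * (d + Real.log N) < C → ∀ s : ℂ, heat t X s = 0 → s.re = 1 / 2
  locS : ∀ η : ℝ, 0 < η → ∀ (t : ℝ) (s : ℂ), 0 < t → K η * d ≤ Real.log (cn s.im) →
      1 + η ≤ t * Real.log (cn s.im) → heat t X s = 0 → s.re = 1 / 2
  globS : ∀ η : ℝ, 0 < η → K η * d ≤ Real.log N →
      (∀ t : ℝ, (1 + η) / Real.log N ≤ t → ∀ s : ℂ, heat t X s = 0 → s.re = 1 / 2) ∧
      ((∀ s : ℂ, X s = 0 → s.re = 1 / 2) ↔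
        ∀ t : ℝ, 0 < t → t < (1 + η) / Real.log N → ∀ s : ℂ, heat t X s = 0 → s.re = 1 / 2)

theorem fin_all : ∃ (C : ℝ) (K : ℝ → ℝ), 0 < C ∧ (∀ η, 0 < K η) ∧
    ∀ (d : ℕ) (N : ℝ) (cn : ℝ → ℝ) (G X : ℂ → ℂ), Pk d N cn G X → Res C K d N cn X := by
  obtain ⟨C, hC, H1⟩ := fin_abs
  have h2 : ∀ η : ℝ, ∃ K : ℝ, 0 < K ∧ (0 < η → ∀ (d : ℕ) (N : ℝ) (cn : ℝ → ℝ)
    (G X : ℂ → ℂ), Pk d N cn G X →
    (∀ (t : ℝ) (s : ℂ), 0 < t → K * d ≤ Real.log (cn s.im) → 1 + η ≤ t * Real.log (cn s.im) →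
      heat t X s = 0 → s.re = 1 / 2) ∧
    (K * d ≤ Real.log N →
      (∀ t : ℝ, (1 + η) / Real.log N ≤ t → ∀ s : ℂ, heat t X s = 0 → s.re = 1 / 2) ∧
      ((∀ s : ℂ, X s = 0 → s.re = 1 / 2) ↔
        ∀ t : ℝ, 0 < t → t < (1 + η) / Real.log N → ∀ s : ℂ, heat t X s = 0 → s.re = 1 / 2))) := by
    intro η
    by_cases hη : 0 < η
    · obtain ⟨K, hK, H⟩ := fin_sharp hη
      exact ⟨K, hK, fun _ => H⟩
    · exact ⟨1, one_pos, fun h => absurd h hη⟩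
  choose K hK H2 using h2
  refine ⟨C, K, hC, hK, fun d N cn G X h => ?_⟩
  obtain ⟨a1, a2, a3⟩ := H1 d N cn G X h
  exact ⟨a1, a2, a3, fun η hη => (H2 η hη d N cn G X h).1, fun η hη => (H2 η hη d N cn G X h).2⟩

end Pool.Agent.W355.UN
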