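import Pool.Agent.W327.HF.Fwd
import Pool.Agent.W736.HF.JL
import Pool.Agent.W363.HF.JU
import Pool.Agent.W186.HZ.Sad

/-!
# Zeros of the heat flow on the line, uniformly in the degree

The constants `K` of the profile may be as large as `κ₁ ℓ`.  Adaptation of `W327.HF.fwd_of`
(helper327), with the lower bound `Pool.Agent.W736.HF2.core` (helper736) and the upper bound
`Pool.Agent.W363.HF.ju` (helper363).
-/

set_option autoImplicit false

open Complex MeasureTheory Filter Topology Set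
open scoped ComplexConjugate

namespace Pool.Agent.W355.UN

open Pool.Agent.W169.HF

/-- profile of a function: `f u ≈ G exp (ℓ u)` for `Re u ≥ ϑ0`, with errors `K (1 + |u|²)` -/
structure UP (K ϑ0 ℓ G : ℝ) (f : ℂ → ℂ) : Prop extends UD K ϑ0 ℓ G f where
  der : ∀ u : ℂ, ϑ0 ≤ u.re → ‖logDeriv f u - ℓ‖ ≤ K * (1 + ‖u‖ ^ 2)

lemma normsq_le {R : ℝ} {u : ℂ} (h1 : |u.re| ≤ R) (h2 : |u.im| ≤ R) : ‖u‖ ^ 2 ≤ 2 * R ^ 2 := by
  rw [Complex.sq_norm, Complex.normSq_apply]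
  have h3 : u.re * u.re ≤ R ^ 2 := by
    rw [← sq, ← sq_abs]
    gcongr
  have h4 : u.im * u.im ≤ R ^ 2 := by
    rw [← sq, ← sq_abs]
    gcongr
  linarith

theorem UP.pf {K ϑ0 ℓ G κ R : ℝ} {f : ℂ → ℂ} (h : UP K ϑ0 ℓ G f) (hK : 0 ≤ K) (hϑ : 0 ≤ ϑ0)
    (hκ : K * (1 + 2 * R ^ 2) ≤ κ * ℓ) : Pf κ ϑ0 R ℓ G f := by
  have hG := h.hG
  refine ⟨fun u a b c => ?_, fun u a b => ?_, fun u a b c => ?_⟩
  · have hn := normsq_le (u := u) (R := R) (by rw [abs_of_nonneg (hϑ.trans a)]; exact b) c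
    refine le_trans ?_ (h.lo u a)
    apply mul_le_mul_of_nonneg_left _ hG.le
    apply Real.exp_le_exp.2
    have : K * (1 + ‖u‖ ^ 2) ≤ K * (1 + 2 * R ^ 2) := mul_le_mul_of_nonneg_left (by linarith) hK
    linarith
  · have hn := normsq_le a b
    refine (h.up u).trans ?_
    apply mul_le_mul_of_nonneg_left _ hG.le
    apply Real.exp_le_exp.2
    have : K * (1 + ‖u‖ ^ 2) ≤ K * (1 + 2 * R ^ 2) := mul_le_mul_of_nonneg_left (by linarith) hK
    linarith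
  · have hn := normsq_le (u := u) (R := R) (by rw [abs_of_nonneg (hϑ.trans a)]; exact b) c
    refine (h.der u a).trans ?_
    have : K * (1 + ‖u‖ ^ 2) ≤ K * (1 + 2 * R ^ 2) := mul_le_mul_of_nonneg_left (by linarith) hK
    linarith

/-- the upper bound of helper363, with the dependence on `K` -/
theorem ju' {K ϑ0 ϑ g X Y κ ℓ G t : ℝ} {f : ℂ → ℂ} (hK : 1 ≤ K) (hϑ02 : ϑ0 ≤ 2)
    (hϑ : 0 ≤ ϑ) (hϑ3 : ϑ ≤ 3) (hg : 0 < g) (hg1 : g ≤ 1) (hX : 1 ≤ X) (hY : 3 ≤ Y) (hκ : 0 < κ)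
    (hℓ1 : 8 * X * (2 * K + 1) ≤ ℓ) (hℓ2 : (2 * X + 2 * Y + 4) ≤ κ * ℓ) (hℓ3 : 1 ≤ ℓ)
    (hud : UD K ϑ0 ℓ G f) (hpf : Pf κ ϑ (2 * X + 2 * Y + 4) ℓ G f) (ht : 0 < t)
    (hX2 : 2 * t * ℓ ≤ X) {α : ℝ} (hα : 2 * t * α ≤ Y)
    (hcase : (2 * ϑ + g ≤ 2 * t * ℓ ∧ -(g / 64 * ℓ) ≤ α) ∨ ϑ ≤ 2 * t * α) :
    IntegrableOn (fun r : ℝ => Real.exp (-(r ^ 2 / (4 * t)) + α * r) * ‖f r‖) (Ioi 0) ∧
      ∫ r in Ioi (0 : ℝ), Real.exp (-(r ^ 2 / (4 * t)) + α * r) * ‖f r‖ ≤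
        G * Real.exp (t * (ℓ + α) ^ 2 + 2 * κ * ℓ) := by
  have hℓ0 : 0 < ℓ := by linarith
  have hG := hud.hG
  set R : ℝ := 2 * X + 2 * Y + 4 with hR
  set E : ℝ := t * (ℓ + α) ^ 2 with hE
  have hb : ∀ r ∈ Ioi (0 : ℝ), Real.exp (-(r ^ 2 / (4 * t)) + α * r) * ‖f r‖ ≤
      G * Real.exp (E + κ * ℓ + R) * Real.exp (-r) := by
    intro r hr
    rw [mem_Ioi] at hr
    rcases le_or_gt r R with h1 | h1
    · have h2 := hpf.upp (r : ℂ) (by rw [ofReal_re, abs_of_pos hr]; exact h1)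
        (by rw [ofReal_im, abs_zero]; linarith)
      rw [ofReal_re, abs_of_pos hr] at h2
      have h3 := Pool.Agent.W363.HF.expo ht hℓ0 hϑ hϑ3 hg hg1 hr hcase
      calc Real.exp (-(r ^ 2 / (4 * t)) + α * r) * ‖f r‖
          ≤ Real.exp (-(r ^ 2 / (4 * t)) + α * r) * (G * Real.exp (ℓ * max r ϑ + κ * ℓ)) := by
            gcongr
        _ = G * Real.exp (-(r ^ 2 / (4 * t)) + α * r + (ℓ * max r ϑ + κ * ℓ)) := by
            rw [Real.exp_add (-(r ^ 2 / (4 * t)) + α * r)]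
            ring
        _ ≤ G * Real.exp (E + κ * ℓ + R + -r) := by
            have : -(r ^ 2 / (4 * t)) + α * r + (ℓ * max r ϑ + κ * ℓ) ≤ E + κ * ℓ + R + -r := by
              linarith
            gcongr
        _ = _ := by rw [Real.exp_add (E + κ * ℓ + R), mul_assoc]
    · have h2 := hud.up (r : ℂ)
      rw [ofReal_re, abs_of_pos hr, max_eq_left (by linarith : ϑ0 ≤ r), norm_real,
        Real.norm_eq_abs, sq_abs] at h2
      have h3 : 2 * t * (ℓ + α) ≤ r / 2 := by linarith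
      have hr1 : 1 ≤ r := by linarith
      have h4 : r ^ 2 / 4 ≤ (r - 2 * t * (ℓ + α)) ^ 2 := by
        have : r / 2 ≤ r - 2 * t * (ℓ + α) := by linarith
        nlinarith
      have h5 : r ^ 2 * (2 * K + 1) ≤ (r - 2 * t * (ℓ + α)) ^ 2 / (4 * t) := by
        rw [le_div_iff₀ (by positivity)]
        have h6 : 16 * t * (2 * K + 1) ≤ 1 := by
          have h7 : 2 * t * (8 * X * (2 * K + 1)) ≤ 2 * t * ℓ :=
            mul_le_mul_of_nonneg_left hℓ1 (by positivity)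
          have h8 : 2 * t * (8 * X * (2 * K + 1)) ≤ X := h7.trans hX2
          have h9 : X * (16 * t * (2 * K + 1)) ≤ X * 1 := by linarith
          exact le_of_mul_le_mul_left h9 (by linarith)
        have h10 : r ^ 2 * (2 * K + 1) * (4 * t) = r ^ 2 / 4 * (16 * t * (2 * K + 1)) := by ring
        rw [h10]
        have : r ^ 2 / 4 * (16 * t * (2 * K + 1)) ≤ r ^ 2 / 4 * 1 :=
          mul_le_mul_of_nonneg_left h6 (by positivity)
        linarith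
      have h6 := Pool.Agent.W363.HF.quad_eq (t := t) (L := ℓ) (α := α) (r := r) ht
      calc Real.exp (-(r ^ 2 / (4 * t)) + α * r) * ‖f r‖
          ≤ Real.exp (-(r ^ 2 / (4 * t)) + α * r) *
            (G * Real.exp (ℓ * r + K * (1 + r ^ 2))) := by gcongr
        _ = G * Real.exp (-(r ^ 2 / (4 * t)) + α * r + (ℓ * r + K * (1 + r ^ 2))) := by
            rw [Real.exp_add (-(r ^ 2 / (4 * t)) + α * r)]
            ring
        _ ≤ G * Real.exp (E + κ * ℓ + R + -r) := by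
            have : -(r ^ 2 / (4 * t)) + α * r + (ℓ * r + K * (1 + r ^ 2)) ≤
                E + κ * ℓ + R + -r := by
              have h7 : K * (1 + r ^ 2) ≤ K * (2 * r ^ 2) := by
                apply mul_le_mul_of_nonneg_left _ (by linarith)
                nlinarith
              have h8 : 0 ≤ κ * ℓ := by positivity
              have h9 : r ≤ r ^ 2 := by nlinarith
              have h10 : 0 < R := by linarith
              nlinarith
            gcongr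
        _ = _ := by rw [Real.exp_add (E + κ * ℓ + R), mul_assoc]
  have hint := Pool.Agent.W363.HF.expint.1.const_mul (G * Real.exp (E + κ * ℓ + R))
  have hcont : Continuous fun r : ℝ => Real.exp (-(r ^ 2 / (4 * t)) + α * r) * ‖f r‖ := by
    have h1 : Continuous f := hud.slow.1.continuous
    fun_prop
  have hI : IntegrableOn (fun r : ℝ => Real.exp (-(r ^ 2 / (4 * t)) + α * r) * ‖f r‖) (Ioi 0) := by
    refine hint.mono' hcont.aestronglyMeasurable ?_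
    refine (ae_restrict_mem measurableSet_Ioi).mono fun r hr => ?_
    rw [Real.norm_eq_abs, abs_of_nonneg (by positivity)]
    exact hb r hr
  refine ⟨hI, ?_⟩
  refine (setIntegral_mono_on hI hint measurableSet_Ioi hb).trans ?_
  rw [integral_const_mul, Pool.Agent.W363.HF.expint.2, mul_one]
  have h1 : E + κ * ℓ + R ≤ E + 2 * κ * ℓ := by linarith
  gcongr

theorem sadl : S_SADL := fun _ _ _ _ _ _ hρ0 hρ hs hsρ hθ0 hθ h =>
  Pool.Agent.W186.HZ.sad hρ0 hρ hs hsρ hθ0 hθ h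

/-- **No zeros of the heat flow near the line**, `K ≤ κ₁ ℓ`. -/
theorem fwd {ϑ0 g X : ℝ} (hϑ0 : 0 ≤ ϑ0) (hϑ02 : ϑ0 ≤ 2) (hg : 0 < g) (hg1 : g ≤ 1) (hX : 1 ≤ X) :
    ∃ κ1 ℓ0 : ℝ, 0 < κ1 ∧ ∀ (K ℓ G t : ℝ) (f : ℂ → ℂ), 1 ≤ K → K ≤ κ1 * ℓ → ℓ0 ≤ ℓ →
      UP K ϑ0 ℓ G f → 0 < t → 2 * ϑ0 + g ≤ 2 * t * ℓ → 2 * t * ℓ ≤ X →
      ∀ x : ℝ, x ≠ 0 → |x| ≤ 2 → heat t f x ≠ 0 := by
  have hX0 : 0 < X := by linarith
  obtain ⟨Y, hY⟩ : ∃ Y : ℝ, Y = 3 := ⟨_, rfl⟩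
  obtain ⟨R, hR⟩ : ∃ R : ℝ, R = 2 * X + 2 * Y + 4 := ⟨_, rfl⟩
  obtain ⟨ζ, hζd⟩ : ∃ ζ : ℝ, ζ = g / (160 * X) := ⟨_, rfl⟩
  have hζ : 0 < ζ := by rw [hζd]; positivity
  have hζ2 : ζ * (160 * X) = g := by rw [hζd]; field_simp
  have hζX : ζ * X = g / 160 := by linarith
  have hζg : ζ ≤ g / 160 := by
    have : ζ * 1 ≤ ζ * X := mul_le_mul_of_nonneg_left hX hζ.le
    linarith
  obtain ⟨κ, hκ⟩ : ∃ κ : ℝ, κ = g ^ 2 / (1600 * X) := ⟨_, rfl⟩
  obtain ⟨δ, hδ⟩ : ∃ δ : ℝ, δ = ζ ^ 2 * X / 2 := ⟨_, rfl⟩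
  have hκp : 0 < κ := by rw [hκ]; positivity
  have hδp : 0 < δ := by rw [hδ]; positivity
  obtain ⟨κ0, hκ0d⟩ : ∃ κ0 : ℝ, κ0 = min (min (g / (400000 * X)) (δ * g / (8 * X))) (ζ * g / 16) :=
    ⟨_, rfl⟩
  have hκ0 : 0 < κ0 := by
    rw [hκ0d]
    exact lt_min (lt_min (by positivity) (by positivity)) (by positivity)
  have hκ01 : κ0 * (400000 * X) ≤ g := by
    rw [← le_div_iff₀ (by positivity), hκ0d]
    exact (min_le_left _ _).trans (min_le_left _ _)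
  have hκ02 : κ0 * (8 * X) ≤ δ * g := by
    rw [← le_div_iff₀ (by positivity), hκ0d]
    exact (min_le_left _ _).trans (min_le_right _ _)
  have hκ03 : κ0 ≤ ζ * g / 16 := by rw [hκ0d]; exact min_le_right _ _
  obtain ⟨ℓ1, hℓ1⟩ : ∃ ℓ1 : ℝ, ∀ ℓ : ℝ, ℓ1 ≤ ℓ → 2 * ℓ / g ≤ Real.exp (δ / 8 * ℓ) := by
    have h1 : Tendsto (fun x : ℝ => Real.exp (δ / 8 * x) / x) atTop atTop := by
      have := tendsto_exp_mul_div_rpow_atTop 1 (δ / 8) (by positivity)
      simpa using this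
    obtain ⟨t3, ht3⟩ := Filter.eventually_atTop.1 ((h1.eventually_ge_atTop (2 / g)).and
      (eventually_gt_atTop (0 : ℝ)))
    refine ⟨t3, fun ℓ hℓ => ?_⟩
    obtain ⟨h3, h4⟩ := ht3 ℓ hℓ
    rw [le_div_iff₀ h4] at h3
    calc 2 * ℓ / g = 2 / g * ℓ := by ring
      _ ≤ _ := h3
  have hR1 : 1 ≤ R := by rw [hR, hY]; linarith
  refine ⟨min (1 / (96 * X)) (κ0 / (1 + 2 * R ^ 2)),
    max (max (96 * X) (8 * R / κ)) (max (max (8 / δ) (X * (30000 ^ 2 + 400 / g ^ 2)))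
      (max ℓ1 (max (R / κ0) 1))), lt_min (by positivity) (by positivity), ?_⟩
  intro K ℓ G t f hK hKℓ hℓ hUP ht hL1 hL2 x hx hx2 h0
  have g1 := (le_max_left _ _).trans hℓ
  have g2 := (le_max_right _ _).trans hℓ
  have k1 := (le_max_left _ _).trans g1
  have k2 := (le_max_right _ _).trans g1
  have k3 := (le_max_left _ _).trans ((le_max_left _ _).trans g2)
  have k4 := (le_max_right _ _).trans ((le_max_left _ _).trans g2)
  have k5 := (le_max_left _ _).trans ((le_max_right _ _).trans g2)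
  have k6 := (le_max_left _ _).trans ((le_max_right _ _).trans ((le_max_right _ _).trans g2))
  have k7 := (le_max_right _ _).trans ((le_max_right _ _).trans ((le_max_right _ _).trans g2))
  rw [div_le_iff₀ hκp] at k2
  rw [div_le_iff₀ hδp] at k3
  rw [div_le_iff₀ hκ0] at k6
  have hℓ0 : 0 < ℓ := by linarith
  have hG : 0 < G := hUP.hG
  have hK96 : 96 * X * K ≤ ℓ := by
    have h1 : K ≤ 1 / (96 * X) * ℓ := hKℓ.trans (mul_le_mul_of_nonneg_right (min_le_left _ _) hℓ0.le)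
    rw [one_div, inv_mul_eq_div, le_div_iff₀ (by positivity)] at h1
    linarith
  have hKκ : K * (1 + 2 * R ^ 2) ≤ κ0 * ℓ := by
    have h1 : K ≤ κ0 / (1 + 2 * R ^ 2) * ℓ :=
      hKℓ.trans (mul_le_mul_of_nonneg_right (min_le_right _ _) hℓ0.le)
    rw [div_mul_eq_mul_div, le_div_iff₀ (by positivity)] at h1
    exact h1
  have hK16 : 16 * X * (2 * K + 1) ≤ ℓ := by nlinarith
  have hK8 : 8 * X * (2 * K + 1) ≤ ℓ := by nlinarith
  have hUD := hUP.toUD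
  have hPf : Pf κ0 ϑ0 (2 * X + 2 * Y + 4) ℓ G f := by
    rw [← hR]
    exact hUP.pf (by linarith) hϑ0 hKκ
  have hgL : g ≤ 2 * t * ℓ := by linarith
  -- the bounds for `J`
  have hlow : ∀ a : ℂ, |a.im| ≤ ζ * ℓ → 2 * t * a.re ≤ 3 → -(ζ * ℓ) ≤ a.re →
      G * Real.exp (t * (ℓ + a.re) ^ 2 - ζ ^ 2 * X * ℓ) ≤ ‖J t f a‖ := by
    intro a ha1 ha2 ha3
    refine Pool.Agent.W736.HF2.core sadl hK hϑ02 hϑ0 (by linarith) hg hg1 hX (Y := Y) (by rw [hY])
      hζ hζ2.le hκ hδ hκ0 hκ01 hκ02 hUD hPf ht hgL hL2 hK16 (by rw [← hR]; linarith) (by linarith)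
      k4 (hℓ1 ℓ k5) a ha1 (by rw [hY]; exact ha2) ?_
    have c3 : -(ζ * (2 * t * ℓ)) ≤ 2 * t * a.re := by
      have := mul_le_mul_of_nonneg_left ha3 (by positivity : (0 : ℝ) ≤ 2 * t)
      linarith only [this]
    have c4 : ζ * (2 * t * ℓ) ≤ ζ * X := mul_le_mul_of_nonneg_left hL2 hζ.le
    linarith only [c3, c4, hζX, hL1, hg]
  have hupp : ∀ α : ℝ, 2 * t * α ≤ 3 → -(g / 64 * ℓ) ≤ α →
      IntegrableOn (fun r : ℝ => Real.exp (-(r ^ 2 / (4 * t)) + α * r) * ‖f r‖) (Ioi 0) ∧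
      ∫ r in Ioi (0 : ℝ), Real.exp (-(r ^ 2 / (4 * t)) + α * r) * ‖f r‖ ≤
        G * Real.exp (t * (ℓ + α) ^ 2 + 2 * κ0 * ℓ) := by
    intro α ha1 ha2
    exact ju' hK hϑ02 hϑ0 (by linarith) hg hg1 hX (Y := Y) (by rw [hY]) hκ0 hK8
      (by rw [← hR]; linarith) k7 hUD hPf ht hL2 (by rw [hY]; exact ha1) (Or.inl ⟨hL1, ha2⟩)
  obtain ⟨ε, hε, hfe⟩ := hUD.fe
  have heq := W327.HF.heat_zero hUD.slow hε hfe ht h0
  obtain ⟨a, had⟩ : ∃ a : ℝ, a = |x| / (2 * t) := ⟨_, rfl⟩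
  have ha0 : 0 < a := by rw [had]; exact div_pos (abs_pos.2 hx) (by positivity)
  have h2ta : 2 * t * a ≤ 2 := by
    have : 2 * t * a = |x| := by rw [had]; field_simp
    rw [this]; exact hx2
  have heq' : ‖J t f (a : ℂ)‖ = ‖J t f (-(a : ℂ))‖ := by
    rcases le_total 0 x with h | h
    · rw [had, abs_of_nonneg h, heq]
      push_cast
      rfl
    · rw [had, abs_of_nonpos h, neg_div]
      push_cast
      rw [neg_neg]
      push_cast at heq
      rw [← heq]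
  have hb1 : 2 * t * (ζ * ℓ) ≤ 3 := by
    have : 2 * t * (ζ * ℓ) = ζ * (2 * t * ℓ) := by ring
    rw [this]
    have h5 : ζ * (2 * t * ℓ) ≤ ζ * X := mul_le_mul_of_nonneg_left hL2 hζ.le
    linarith
  have hb2 : ζ * ℓ ≤ g / 64 * ℓ := mul_le_mul_of_nonneg_right (by linarith) hℓ0.le
  have hzX : ζ ^ 2 * X = ζ * (g / 160) := by
    have : ζ ^ 2 * X = ζ * (ζ * X) := by ring
    rw [this, hζX]
  have hLζ : ζ * g ≤ ζ * (2 * t * ℓ) := mul_le_mul_of_nonneg_left hgL hζ.le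
  have hζg0 : 0 < ζ * g := by positivity
  rcases le_or_gt a (ζ * ℓ / 2) with hcase | hcase
  · -- near the line
    have hball : ∀ z ∈ Metric.ball (0 : ℂ) (ζ * ℓ), |z.re| ≤ ζ * ℓ ∧ |z.im| ≤ ζ * ℓ := by
      intro z hz
      rw [mem_ball_zero_iff] at hz
      exact ⟨(Complex.abs_re_le_norm z).trans hz.le, (Complex.abs_im_le_norm z).trans hz.le⟩
    have hlow' : ∀ z ∈ Metric.ball (0 : ℂ) (ζ * ℓ),
        G * Real.exp (t * (ℓ + z.re) ^ 2 - ζ ^ 2 * X * ℓ) ≤ ‖J t f z‖ := by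
      intro z hz
      obtain ⟨b1, b2⟩ := hball z hz
      rw [abs_le] at b1
      refine hlow z b2 ?_ b1.1
      have : 2 * t * z.re ≤ 2 * t * (ζ * ℓ) := mul_le_mul_of_nonneg_left b1.2 (by positivity)
      linarith
    have hne : ∀ z ∈ Metric.ball (0 : ℂ) (ζ * ℓ), J t f z ≠ 0 := by
      intro z hz
      exact norm_pos_iff.1 (lt_of_lt_of_le (by positivity) (hlow' z hz))
    refine W327.HF.compare (J := J t f) (r := ζ * ℓ) (A := 4 * t * ℓ)
      (M := (2 * κ0 + ζ ^ 2 * X) * ℓ) (a := a)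
      (by positivity) (by positivity) (fun z _ => W327.HF.J_diff hUD.slow ht z) hne ?_ ha0 hcase ?_ heq'
    · intro z hz
      have hz' : -z ∈ Metric.ball (0 : ℂ) (ζ * ℓ) := by
        rw [mem_ball_zero_iff] at hz ⊢
        rwa [norm_neg]
      obtain ⟨b1, b2⟩ := hball z hz
      rw [abs_le] at b1
      have q1 := (W327.HF.J_norm_le (t := t) (f := f) z).trans (hupp z.re (by
        have : 2 * t * z.re ≤ 2 * t * (ζ * ℓ) := mul_le_mul_of_nonneg_left b1.2 (by positivity)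
        linarith) (by linarith)).2
      have q2 := hlow' (-z) hz'
      rw [Complex.neg_re] at q2
      calc ‖J t f z‖ ≤ G * Real.exp (t * (ℓ + z.re) ^ 2 + 2 * κ0 * ℓ) := q1
        _ = Real.exp (4 * t * ℓ * z.re + (2 * κ0 + ζ ^ 2 * X) * ℓ) *
              (G * Real.exp (t * (ℓ + -z.re) ^ 2 - ζ ^ 2 * X * ℓ)) := by
            rw [mul_left_comm, ← Real.exp_add]
            congr 2; ring
        _ ≤ _ := by gcongr
    · have e : 4 * t * ℓ * (ζ * ℓ) = 2 * (ζ * (2 * t * ℓ)) * ℓ := by ring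
      rw [e]
      have e2 : 4 * ((2 * κ0 + ζ ^ 2 * X) * ℓ) = (4 * (2 * κ0 + ζ ^ 2 * X)) * ℓ := by ring
      rw [e2]
      refine mul_lt_mul_of_pos_right ?_ hℓ0
      rw [hzX]
      linarith
  · -- far from the line
    have q1 := hlow (a : ℂ) (by rw [Complex.ofReal_im, abs_zero]; positivity)
      (by rw [Complex.ofReal_re]; linarith) (by
        rw [Complex.ofReal_re]
        have : 0 < ζ * ℓ := by positivity
        linarith)
    rw [Complex.ofReal_re] at q1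
    have q2 := hupp (-(ζ * ℓ / 2)) (by
      have : 0 < t * (ζ * ℓ) := by positivity
      linarith) (by
      have : 0 < ζ * ℓ := by positivity
      linarith)
    have q3 : ‖J t f (-(a : ℂ))‖ ≤
        ∫ r in Ioi (0 : ℝ), Real.exp (-(r ^ 2 / (4 * t)) + -(ζ * ℓ / 2) * r) * ‖f r‖ := by
      refine (W327.HF.J_norm_le _).trans ?_
      refine setIntegral_mono_on ?_ q2.1 measurableSet_Ioi ?_
      · have := (W327.HF.J_int hUD.slow ht (-(a : ℂ))).norm.integrableOn (s := Ioi (0 : ℝ))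
        refine this.congr (Eventually.of_forall fun r => ?_)
        simp only
        rw [norm_mul, Complex.norm_exp, W327.HF.re_arg]
      · intro r hr
        have hr0 : (0 : ℝ) < r := hr
        rw [Complex.neg_re, Complex.ofReal_re]
        gcongr
    rw [← heq'] at q3
    have q4 := (q1.trans q3).trans q2.2
    have q5 := le_of_mul_le_mul_left q4 hG
    rw [Real.exp_le_exp] at q5
    have e1 : t * (ℓ + a) ^ 2 = t * ℓ ^ 2 + (2 * t * ℓ) * a + t * a ^ 2 := by ring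
    have e2 : t * (ℓ + -(ζ * ℓ / 2)) ^ 2 ≤ t * ℓ ^ 2 := by
      have h5 : ζ * ℓ / 2 ≤ ℓ := by nlinarith
      have h6 : 0 ≤ ζ * ℓ / 2 := by positivity
      refine mul_le_mul_of_nonneg_left ?_ ht.le
      apply pow_le_pow_left₀ <;> linarith
    have e3 : 0 ≤ t * a ^ 2 := by positivity
    have e4 : (2 * t * ℓ) * (ζ * ℓ / 2) ≤ (2 * t * ℓ) * a :=
      mul_le_mul_of_nonneg_left hcase.le (by positivity)
    have e5 : (2 * t * ℓ) * (ζ * ℓ / 2) = ζ * (2 * t * ℓ) / 2 * ℓ := by ring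
    have e6 : (ζ ^ 2 * X + 2 * κ0) * ℓ < ζ * (2 * t * ℓ) / 2 * ℓ := by
      refine mul_lt_mul_of_pos_right ?_ hℓ0
      rw [hzX]
      linarith
    have e7 : (ζ ^ 2 * X + 2 * κ0) * ℓ = ζ ^ 2 * X * ℓ + 2 * κ0 * ℓ := by ring
    linarith

end Pool.Agent.W355.UN
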