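import Pool.Agent.W355.UN.Prof
import Pool.Agent.W169.HF.Small

/-!
# De Bruijn-Newman constants, uniformly in the degree
-/

set_option autoImplicit false

open Complex MeasureTheory Filter Topology Set
open scoped ComplexConjugate

namespace Pool.Agent.W355.UN

open Pool.Agent.W169.HF H353.E

variable {m : ℕ} {B : ℝ → ℝ} {N θ : ℝ} {μ : Fin m → ℂ} {X L : ℂ → ℂ}

lemma base_re (y S : ℝ) : (1 / 2 + 2 * S + y * I : ℂ).re = 1 / 2 + 2 * S := by simp

/-- lower bound for the slope, coming from the gamma factors -/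
lemma ell_ge_of {m : ℕ} {N : ℝ} {μ : Fin m → ℂ} (hμ : ∀ j, (μ j).re ≤ 1 / 2) {y S r : ℝ}
    (hS : 1 ≤ S) (hr : Real.exp (2 * r + 10) ≤ S / 2 + 2) : Real.log N / 2 + m * r ≤ ell N μ y S := by
  unfold ell gaD
  rw [add_re, ofReal_re, re_sum]
  have hlp := logpi
  have h1 : ∀ j : Fin m, r ≤ (((-(Real.log Real.pi) / 2 : ℝ) : ℂ) +
      logDeriv Gamma ((1 / 2 + 2 * S + y * I - μ j) / 2) / 2).re := by
    intro j
    have e : (logDeriv Gamma ((1 / 2 + 2 * S + y * I - μ j) / 2) / 2).re =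
        (logDeriv Gamma ((1 / 2 + 2 * S + y * I - μ j) / 2)).re / 2 := by
      rw [show (2 : ℂ) = ((2 : ℝ) : ℂ) by norm_num, Complex.div_ofReal_re]
    obtain ⟨_, hz4, hz⟩ := zre (s := 1 / 2 + 2 * S + y * I) (hμ j) (by rw [base_re]; linarith)
    rw [base_re] at hz4
    have h2 := dig_re hz
    have h3 : 2 * r + 10 ≤ Real.log (((1 / 2 + 2 * S + y * I - μ j) / 2).re + 2) := by
      rw [Real.le_log_iff_exp_le (by linarith)]
      linarith
    rw [add_re, ofReal_re, e]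
    linarith
  have h2 : ∑ _j : Fin m, r ≤ ∑ j, (((-(Real.log Real.pi) / 2 : ℝ) : ℂ) +
      logDeriv Gamma ((1 / 2 + 2 * S + y * I - μ j) / 2) / 2).re := Finset.sum_le_sum fun j _ => h1 j
  rw [Finset.sum_const, Finset.card_univ, Fintype.card_fin, nsmul_eq_mul] at h2
  linarith

/-- the analytic conductor at height `y` -/
noncomputable def cond (N : ℝ) (μ : Fin m → ℂ) (y : ℝ) : ℝ := N * ∏ j, (1 + ‖(y : ℂ) * I - μ j‖)

lemma one_le_cond (hN : 1 ≤ N) (μ : Fin m → ℂ) (y : ℝ) : 1 ≤ cond N μ y := by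
  have h1 : 1 ≤ ∏ j, (1 + ‖(y : ℂ) * I - μ j‖) := by
    refine Finset.prod_induction _ (fun x => (1 : ℝ) ≤ x) (fun a b ha hb => ?_) le_rfl fun j _ => ?_
    · nlinarith
    · linarith [norm_nonneg ((y : ℂ) * I - μ j)]
  unfold cond
  nlinarith

/-- the slope and the analytic conductor, at every scale -/
lemma ell_ge {m : ℕ} {N : ℝ} (hN : 1 ≤ N) {μ : Fin m → ℂ} (hμ : ∀ j, (μ j).re ≤ 1 / 2) {y S : ℝ}
    (hS : 1 ≤ S) : Real.log (cond N μ y) / 2 - 7 * m ≤ ell N μ y S := by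
  have hN0 : 0 < N := by linarith
  have hp : ∀ j, 0 < 1 + ‖(y : ℂ) * I - μ j‖ := fun j => by positivity
  have hpp : 0 < ∏ j, (1 + ‖(y : ℂ) * I - μ j‖) := Finset.prod_pos fun j _ => hp j
  unfold cond
  rw [Real.log_mul hN0.ne' hpp.ne', Real.log_prod (fun j _ => (hp j).ne')]
  unfold ell gaD
  rw [add_re, ofReal_re, re_sum]
  have hlp := logpi
  have h2 : ∀ j, 1 / 2 * Real.log (1 + ‖(y : ℂ) * I - μ j‖) - 7 ≤
      ((((-(Real.log Real.pi) / 2 : ℝ)) : ℂ) +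
      logDeriv Gamma ((1 / 2 + 2 * S + y * I - μ j) / 2) / 2).re := fun j => by
    obtain ⟨_, hz4, hz⟩ := zre (s := 1 / 2 + 2 * S + y * I) (hμ j) (by rw [base_re]; linarith)
    rw [base_re] at hz4
    obtain ⟨z, hzd⟩ : ∃ z : ℂ, z = (1 / 2 + 2 * S + y * I - μ j) / 2 := ⟨_, rfl⟩
    rw [← hzd] at hz hz4 ⊢
    have h3 := (Complex.abs_re_le_norm _).trans (dig_aux hz)
    rw [sub_re, Complex.log_re] at h3
    have h3' := (abs_le.mp h3).1
    have hre : S ≤ z.re := by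
      have e : z.re = (1 / 2 + 2 * S - (μ j).re) / 2 := by
        rw [hzd, show (2 : ℂ) = ((2 : ℝ) : ℂ) by norm_num, Complex.div_ofReal_re]
        simp
      rw [e]
      linarith [hμ j]
    have h6 : S + 2 ≤ ‖z + 2‖ := by
      have := re_le_norm (z + 2)
      rw [add_re, re_ofNat] at this
      linarith
    have h4 : (1 + ‖(y : ℂ) * I - μ j‖) / 5 ≤ ‖z + 2‖ := by
      have e : (y : ℂ) * I - μ j = 2 * (z + 2) - ((9 / 2 + 2 * S : ℝ) : ℂ) := by
        rw [hzd]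
        push_cast
        ring
      have h5 : ‖(y : ℂ) * I - μ j‖ ≤ 2 * ‖z + 2‖ + (9 / 2 + 2 * S) := by
        rw [e]
        refine (norm_sub_le _ _).trans ?_
        rw [norm_mul, Complex.norm_real, Complex.norm_ofNat, Real.norm_eq_abs, abs_of_pos (by linarith)]
      linarith
    have h7 : Real.log (1 + ‖(y : ℂ) * I - μ j‖) - Real.log 5 ≤ Real.log ‖z + 2‖ := by
      rw [← Real.log_div (hp j).ne' (by norm_num)]
      exact Real.log_le_log (by have := hp j; positivity) h4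
    have h8 : Real.log 5 ≤ 4 := by
      have := Real.log_le_sub_one_of_pos (show (0:ℝ) < 5 by norm_num)
      linarith
    have e2 : ((((-(Real.log Real.pi) / 2 : ℝ)) : ℂ) + logDeriv Gamma z / 2).re =
        -(Real.log Real.pi) / 2 + (logDeriv Gamma z).re / 2 := by
      rw [add_re, ofReal_re, show (2 : ℂ) = ((2 : ℝ) : ℂ) by norm_num, Complex.div_ofReal_re]
    rw [e2]
    linarith
  have h3 := Finset.sum_le_sum (s := (Finset.univ : Finset (Fin m))) fun j _ => h2 j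
  rw [Finset.sum_sub_distrib, ← Finset.mul_sum, Finset.sum_const, Finset.card_univ, Fintype.card_fin,
    nsmul_eq_mul] at h3
  have hlog : 0 ≤ Real.log N := Real.log_nonneg hN
  linarith

lemma ell_cont (h : UL m B N θ μ X L) (y : ℝ) : ContinuousOn (ell N μ y) (Ici 1) := by
  intro S hS
  have hS1 : (1 : ℝ) ≤ S := hS
  have h1 : ContinuousAt (gaD N μ) (1 / 2 + 2 * S + y * I) := h.gp.contD (by rw [base_re]; linarith)
  have h2 : ContinuousAt (fun S : ℝ => (1 / 2 + 2 * S + y * I : ℂ)) S := by fun_prop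
  have h3 : ContinuousAt (fun S : ℝ => gaD N μ (1 / 2 + 2 * S + y * I)) S :=
    ContinuousAt.comp (f := fun S : ℝ => (1 / 2 + 2 * S + y * I : ℂ)) h1 h2
  exact (Complex.continuous_re.continuousAt.comp h3).continuousWithinAt

lemma ell_lip (h : UL m B N θ μ X L) (y : ℝ) {S1 S : ℝ} (hS1 : 1 ≤ S1) (hS : S1 ≤ S) :
    ell N μ y S ≤ ell N μ y S1 + 6 * m / S1 * (S - S1) := by
  have h1 := h.gp.lipD (ρ := 2 * S1) (s := 1 / 2 + 2 * S + y * I) (t := 1 / 2 + 2 * S1 + y * I)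
    (by linarith) (by rw [base_re]; linarith) (by rw [base_re]; linarith)
  have e : (1 / 2 + 2 * S + y * I : ℂ) - (1 / 2 + 2 * S1 + y * I) = ((2 * (S - S1) : ℝ) : ℂ) := by
    push_cast; ring
  rw [e, Complex.norm_real, Real.norm_eq_abs, abs_of_nonneg (by linarith)] at h1
  have h2 := (abs_le.1 ((Complex.abs_re_le_norm _).trans h1)).2
  rw [sub_re] at h2
  have e2 : 6 * (m : ℝ) / (2 * S1) * (2 * (S - S1)) = 6 * m / S1 * (S - S1) := by
    field_simp
  unfold ell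
  linarith

/-- the scale of the saddle point -/
lemma exists_scale (h : UL m B N θ μ X L) {y t S1 : ℝ} (ht : 0 < t) (hS1 : 1 ≤ S1)
    (h1 : 3 * S1 ≤ 2 * t * ell N μ y S1) : ∃ S : ℝ, S1 ≤ S ∧ 2 * t * ell N μ y S = 3 * S := by
  obtain ⟨S2, hS2⟩ : ∃ S2 : ℝ, S2 = max S1 (12 * m * t) := ⟨_, rfl⟩
  have h12 : S1 ≤ S2 := by rw [hS2]; exact le_max_left _ _
  have h22 : 12 * m * t ≤ S2 := by rw [hS2]; exact le_max_right _ _
  have hS20 : 0 < S2 := by linarith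
  obtain ⟨S3, hS3⟩ : ∃ S3 : ℝ, S3 = S2 + 2 * t * |ell N μ y S2| := ⟨_, rfl⟩
  have hab : 0 ≤ 2 * t * |ell N μ y S2| := by positivity
  have h23 : S2 ≤ S3 := by rw [hS3]; linarith
  have h13 : S1 ≤ S3 := h12.trans h23
  have hlip := ell_lip h y (hS1.trans h12) h23
  have hneg : 2 * t * ell N μ y S3 ≤ 3 * S3 := by
    have h3 : 2 * t * ell N μ y S3 ≤ 2 * t * (ell N μ y S2 + 6 * m / S2 * (S3 - S2)) :=
      mul_le_mul_of_nonneg_left hlip (by positivity)
    have h4 : 2 * t * (6 * m / S2 * (S3 - S2)) ≤ S3 - S2 := by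
      have e : 2 * t * (6 * m / S2 * (S3 - S2)) = 12 * m * t / S2 * (S3 - S2) := by
        field_simp
        ring
      rw [e]
      have : 12 * m * t / S2 ≤ 1 := by
        rw [div_le_one hS20]
        exact h22
      calc 12 * m * t / S2 * (S3 - S2) ≤ 1 * (S3 - S2) :=
            mul_le_mul_of_nonneg_right this (by linarith)
        _ = _ := one_mul _
    have h5 : 2 * t * ell N μ y S2 ≤ 2 * t * |ell N μ y S2| :=
      mul_le_mul_of_nonneg_left (le_abs_self _) (by positivity)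
    nlinarith
  have hcont : ContinuousOn (fun S => 2 * t * ell N μ y S - 3 * S) (Icc S1 S3) := by
    apply ContinuousOn.sub
    · exact continuousOn_const.mul ((ell_cont h y).mono fun S hS => hS1.trans hS.1)
    · fun_prop
  obtain ⟨S, hS, hS0⟩ := intermediate_value_Icc' h13 hcont
    (show (0 : ℝ) ∈ Icc _ _ from ⟨by linarith, by linarith⟩)
  exact ⟨S, hS.1, by simp only at hS0; linarith⟩

/-- no zeros near the line, at scale `S` -/
theorem near {B : ℝ → ℝ} {ϑ0 g ρ : ℝ} (hB : 0 ≤ B ρ) (hϑ : 1 / 2 ≤ ϑ0) (hϑ2 : ϑ0 ≤ 2) (hg : 0 < g) (hg1 : g ≤ 1)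
    (hρ : 0 < ρ) (hρ1 : ρ ≤ 1) :
    ∃ M : ℝ, 1 ≤ M ∧ ∀ (m : ℕ) (N θ : ℝ) (μ : Fin m → ℂ) (X L : ℂ → ℂ), UL m B N θ μ X L →
      ∀ S y t : ℝ, 1 ≤ S → 1 + θ + ρ ≤ 1 / 2 + S * ϑ0 → M * m ≤ ell N μ y S → 0 < t →
      (2 * ϑ0 + g) * S ≤ 2 * t * ell N μ y S → 2 * t * ell N μ y S ≤ 3 * S →
      ∀ x : ℝ, x ≠ 0 → |x| ≤ 2 → heat t X (1 / 2 + x + y * I) ≠ 0 := by
  obtain ⟨κ1, ℓ0, hκ1, H⟩ := fwd (X := 3) (by linarith : 0 ≤ ϑ0) hϑ2 hg hg1 (by norm_num)
  have hBρ : 0 ≤ B ρ := hB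
  obtain ⟨c, hc⟩ : ∃ c : ℝ, c = 9 * (111 + 3 * (B ρ)) := ⟨_, rfl⟩
  have hc1 : 1 ≤ c := by rw [hc]; linarith
  refine ⟨max 1 (max ℓ0 (c / κ1)), le_max_left _ _, ?_⟩
  intro m N θ μ X L h S y t hS hreg hM ht h1 h2 x hx hx2
  have hm : (1 : ℝ) ≤ m := by exact_mod_cast h.hm
  have hS0 : 0 < S := by linarith
  obtain ⟨ℓ, hℓ⟩ : ∃ ℓ : ℝ, ℓ = ell N μ y S := ⟨_, rfl⟩
  rw [← hℓ] at hM h1 h2
  have hM0 : 0 ≤ max 1 (max ℓ0 (c / κ1)) := le_trans zero_le_one (le_max_left _ _)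
  have hMℓ : max 1 (max ℓ0 (c / κ1)) ≤ ℓ := by nlinarith
  have hℓpos : 0 < ℓ := by
    have := (le_max_left _ _).trans hMℓ
    linarith
  have hSℓ : ℓ ≤ S * ℓ := by nlinarith
  obtain ⟨G, hG⟩ := h.up (y := y) hS hϑ hϑ2 hρ hρ1 hreg
  rw [← hℓ] at hG
  have hcm : c * m ≤ κ1 * ℓ := by
    have h3 : c / κ1 * m ≤ ℓ := by
      refine le_trans ?_ hM
      apply mul_le_mul_of_nonneg_right _ (by linarith)
      exact (le_max_right _ _).trans (le_max_right _ _)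
    rw [div_mul_eq_mul_div, div_le_iff₀ hκ1] at h3
    linarith
  have hx' : x / S ≠ 0 := div_ne_zero hx hS0.ne'
  have hx2' : |x / S| ≤ 2 := by
    rw [abs_div, abs_of_pos hS0, div_le_iff₀ hS0]
    nlinarith
  have hne := H (9 * (m * S * (111 + 3 * (B ρ)))) (S * ℓ) G (t / S ^ 2) _
    (by
      have : 1 ≤ (m : ℝ) * S := by nlinarith
      nlinarith)
    (by
      calc 9 * (m * S * (111 + 3 * (B ρ))) = S * (c * m) := by rw [hc]; ring
        _ ≤ S * (κ1 * ℓ) := by gcongr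
        _ = κ1 * (S * ℓ) := by ring)
    (((le_max_left _ _).trans (le_max_right _ _)).trans (hMℓ.trans hSℓ)) hG (by positivity)
    (by
      have e : 2 * (t / S ^ 2) * (S * ℓ) = 2 * t * ℓ / S := by field_simp
      rw [e, le_div_iff₀ hS0]
      exact h1)
    (by
      have e : 2 * (t / S ^ 2) * (S * ℓ) = 2 * t * ℓ / S := by field_simp
      rw [e, div_le_iff₀ hS0]
      exact h2)
    (x / S) hx' hx2'
  rw [heat_scale _ hS0] at hne
  have e : (1 / 2 + y * I + S * ((x / S : ℝ) : ℂ) : ℂ) = 1 / 2 + x + y * I := by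
    have : (S : ℂ) ≠ 0 := by exact_mod_cast hS0.ne'
    push_cast
    field_simp
    ring
  rwa [e] at hne

/-- the class -/
lemma UL.cl (h : UL m B N θ μ X L) : Cl (1 / 2 + θ) X := by
  refine ⟨h.slow, h.fe, fun s hs => ?_⟩
  by_contra hcon
  push Not at hcon
  exact h.Xne (by linarith) hs

lemma UL.nontriv (h : UL m B N θ μ X L) : ∃ z, X z ≠ 0 := by
  refine ⟨((2 + θ : ℝ) : ℂ), h.Xne ?_⟩
  rw [ofReal_re]
  linarith

/-- a zero of the heat flow is on the line, if there are no zeros near the line at its height -/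
theorem line_of (h : UL m B N θ μ X L) (hθ : θ ≤ 1) {t : ℝ} (ht : 0 ≤ t) {s : ℂ} (hs : heat t X s = 0)
    (H : ∀ x : ℝ, x ≠ 0 → |x| ≤ 2 → heat t X (1 / 2 + x + s.im * I) ≠ 0) :
    s.re = 1 / 2 := by
  obtain ⟨-, hcl⟩ := db_all _ _ h.cl h.nontriv t ht
  obtain ⟨ε, hε, hfe⟩ := hcl.fe
  have h1 := hcl.zer s hs
  have hε0 : ε ≠ 0 := by
    intro h0
    rw [h0, norm_zero] at hε
    exact zero_ne_one hε
  have h2 : heat t X (1 - conj s) = 0 := by
    have h3 := hfe s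
    rw [hs] at h3
    have h4 := (mul_eq_zero.1 h3.symm).resolve_left hε0
    have h5 := congrArg conj h4
    rwa [Complex.conj_conj, map_zero] at h5
  have h3 := hcl.zer _ h2
  rw [sub_re, one_re, conj_re] at h3
  by_contra hne
  refine H (s.re - 1 / 2) (by intro h0; apply hne; linarith) ?_ ?_
  · rw [abs_le]
    constructor <;> linarith
  · have e : (1 / 2 + ((s.re - 1 / 2 : ℝ) : ℂ) + s.im * I : ℂ) = s := by
      apply Complex.ext <;> simp
    rw [e]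
    exact hs

/-- **Absolute bound**, local form: zeros `s` of the heat flow with
`t (m + log (analytic conductor at s)) ≥ C` are on the line. -/
theorem absolute {B : ℝ → ℝ} (hB : 0 ≤ B 1) : ∃ C : ℝ, 0 < C ∧ ∀ (m : ℕ) (N θ : ℝ) (μ : Fin m → ℂ)
    (X L : ℂ → ℂ), UL m B N θ μ X L → θ ≤ 1 → ∀ (t : ℝ) (s : ℂ), 0 < t →
      C ≤ t * (m + Real.log (cond N μ s.im)) → heat t X s = 0 → s.re = 1 / 2 := by
  obtain ⟨M, hM1, H⟩ := near (B := B) (ϑ0 := 1 / 2) (g := 1 / 2) (ρ := 1) hB le_rfl (by norm_num)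
    (by norm_num) (by norm_num) one_pos le_rfl
  obtain ⟨r, hr⟩ : ∃ r : ℝ, r = 2 * M + 16 := ⟨_, rfl⟩
  obtain ⟨S1, hS1⟩ : ∃ S1 : ℝ, S1 = 5 + 2 * Real.exp (2 * r + 10) := ⟨_, rfl⟩
  have hex : 0 < Real.exp (2 * r + 10) := Real.exp_pos _
  have hS15 : 5 ≤ S1 := by rw [hS1]; linarith
  refine ⟨6 * S1, by linarith, ?_⟩
  intro m N θ μ X L h hθ t s ht0 ht hs
  have hm : (1 : ℝ) ≤ m := by exact_mod_cast h.hm
  have hlogN : 0 ≤ Real.log N := Real.log_nonneg h.hN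
  obtain ⟨y, hy⟩ : ∃ y : ℝ, y = s.im := ⟨_, rfl⟩
  have hc : 0 ≤ Real.log (cond N μ y) := Real.log_nonneg (one_le_cond h.hN μ y)
  rw [← hy] at ht
  refine line_of h hθ ht0.le hs ?_
  rw [← hy]
  intro x hx hx2
  have hge : ∀ S : ℝ, S1 ≤ S → Real.log N / 2 + m * r ≤ ell N μ y S := by
    intro S hS
    exact ell_ge_of h.re_le (by linarith) (by rw [hS1] at hS; linarith)
  have h1 : 3 * S1 ≤ 2 * t * ell N μ y S1 := by
    have h2 := hge S1 le_rfl
    have h4 := ell_ge h.hN h.re_le (y := y) (S := S1) (by linarith)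
    have h3 : (m + Real.log (cond N μ y)) / 4 ≤ ell N μ y S1 := by
      rw [hr] at h2
      nlinarith
    have h5 : 2 * t * ((m + Real.log (cond N μ y)) / 4) ≤ 2 * t * ell N μ y S1 :=
      mul_le_mul_of_nonneg_left h3 (by positivity)
    linarith
  obtain ⟨S, hS, hS3⟩ := exists_scale h ht0 (by linarith) h1
  refine H m N θ μ X L h S y t (by linarith) (by linarith) ?_ ht0 ?_ hS3.le x hx hx2
  · have := hge S hS
    rw [hr] at this
    nlinarith
  · rw [hS3]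
    linarith

/-- **Sharp bound**, local form: zeros `s` of the heat flow with
`t log (analytic conductor at s) ≥ 1 + 2 θ + η` are on the line, if the analytic conductor is at least
`e^{C m}`. -/
theorem sharp {B : ℝ → ℝ} {θ η : ℝ} (hB : ∀ ρ, 0 ≤ B ρ) (hθ0 : 0 ≤ θ) (hθ1 : θ ≤ 1 / 2) (hη : 0 < η)
    (hη1 : η ≤ 1) :
    ∃ C : ℝ, 0 < C ∧ ∀ (m : ℕ) (N : ℝ) (μ : Fin m → ℂ) (X L : ℂ → ℂ), UL m B N θ μ X L →
      ∀ (t : ℝ) (s : ℂ), 0 < t → C * m ≤ Real.log (cond N μ s.im) →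
      1 + 2 * θ + η ≤ t * Real.log (cond N μ s.im) → heat t X s = 0 → s.re = 1 / 2 := by
  obtain ⟨M, hM1, H⟩ := near (B := B) (ϑ0 := 1 / 2 + θ + η / 8) (g := η / 4) (ρ := η / 8) (hB _)
    (by linarith) (by linarith) (by linarith) (by linarith) (by linarith) (by linarith)
  refine ⟨2 * M + 14 + 112 / η, by positivity, ?_⟩
  intro m N μ X L h t s ht0 hC ht hs
  have hm : (1 : ℝ) ≤ m := by exact_mod_cast h.hm
  obtain ⟨y, hy⟩ : ∃ y : ℝ, y = s.im := ⟨_, rfl⟩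
  obtain ⟨c, hcd⟩ : ∃ c : ℝ, c = Real.log (cond N μ y) := ⟨_, rfl⟩
  rw [← hy, ← hcd] at ht hC
  have h112 : 112 / η * m ≤ c := by
    refine le_trans ?_ hC
    apply mul_le_mul_of_nonneg_right _ (by linarith)
    linarith
  have h112' : 112 * m ≤ η * c := by
    rw [div_mul_eq_mul_div, div_le_iff₀ hη] at h112
    linarith
  have hge : ∀ S : ℝ, 1 ≤ S → c / 2 - 7 * m ≤ ell N μ y S := by
    intro S hS
    rw [hcd]
    exact ell_ge h.hN h.re_le hS
  have hMm : ∀ S : ℝ, 1 ≤ S → M * m ≤ ell N μ y S := by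
    intro S hS
    have h1 := hge S hS
    have h2 : (2 * M + 14) * m ≤ c := by
      refine le_trans ?_ hC
      apply mul_le_mul_of_nonneg_right _ (by linarith)
      have : 0 < 112 / η := by positivity
      linarith
    linarith
  refine line_of h (by linarith) ht0.le hs ?_
  rw [← hy]
  intro x hx hx2
  have h1 : 1 + 2 * θ + η / 2 ≤ 2 * t * ell N μ y 1 := by
    have h3 : 2 * t * (c / 2 - 7 * m) ≤ 2 * t * ell N μ y 1 :=
      mul_le_mul_of_nonneg_left (hge 1 le_rfl) (by positivity)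
    have h4 : 14 * m ≤ η / 8 * c := by linarith
    have h5 : t * (14 * m) ≤ t * (η / 8 * c) := mul_le_mul_of_nonneg_left h4 ht0.le
    nlinarith
  rcases le_or_gt (2 * t * ell N μ y 1) 3 with hc | hc
  · exact H m N θ μ X L h 1 y t le_rfl (by linarith) (hMm 1 le_rfl) ht0 (by linarith) (by linarith)
      x hx hx2
  · obtain ⟨S, hS, hS3⟩ := exists_scale h ht0 le_rfl (by linarith)
    refine H m N θ μ X L h S y t hS (by nlinarith) (hMm S hS) ht0 ?_ hS3.le x hx hx2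
    rw [hS3]
    nlinarith

/-- the Riemann hypothesis in terms of small times -/
theorem rh_iff (h : UL m B N θ μ X L) {T : ℝ} (hT : 0 < T) :
    (∀ s : ℂ, X s = 0 → s.re = 1 / 2) ↔
      ∀ t : ℝ, 0 < t → t < T → ∀ s : ℂ, heat t X s = 0 → s.re = 1 / 2 :=
  line_iff h.slow h.fe h.nontriv hT

end Pool.Agent.W355.UN
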