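import Pool.Agent.W355.UN.Pack
import Pool.Agent.W355.LJ.Lst
import Pool.Agent.W355.LJ.HeckeC

/-!
# Instances
-/

set_option autoImplicit false

open Complex MeasureTheory Filter Topology Set
open scoped ComplexConjugate

namespace Pool.Agent.W355.UN

open Pool.Agent.W169.HF H353.E Pool.Agent.W355.LJ

/-- list version -/
def RawL (l : List ℂ) (r : ℕ) (N : ℝ) (b c : ℕ → ℂ) (X : ℂ → ℂ) : Prop :=
  Raw l.length r N (fun j => l.get j) b c X

lemma prod_get {M : Type} [CommMonoid M] (l : List ℂ) (f : ℂ → M) :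
    ∏ j : Fin l.length, f (l.get j) = (l.map f).prod := by
  rw [← List.prod_ofFn]
  congr 1
  conv_rhs => rw [← List.ofFn_get l]
  rw [List.map_ofFn]
  rfl

/-- the analytic conductor -/
noncomputable def acond (N : ℝ) (l : List ℂ) (y : ℝ) : ℝ :=
  N * (l.map fun a : ℂ => 1 + ‖(y : ℂ) * I + a‖).prod

/-- the completed Dirichlet series -/
noncomputable def cser (r : ℕ) (N : ℝ) (l : List ℂ) (b : ℕ → ℂ) (s : ℂ) : ℂ :=
  (s * (s - 1)) ^ r * ((N : ℂ) ^ (s / 2) * (l.map fun a : ℂ => Gammaℝ (s + a)).prod) * LSeries b s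

theorem pk_of_raw (hC : S_COEF) (hS : S_SLOW) (hG : S_GAM) {l : List ℂ} {r : ℕ} {N : ℝ}
    {b c : ℕ → ℂ} {X : ℂ → ℂ} (h : RawL l r N b c X) :
    Pk l.length N (acond N l) (cser r N l b) X := by
  refine (Pk.of_raw hC hS hG h).congr (fun y => ?_) ⟨0, fun s _ => ?_⟩
  · unfold acond
    rw [← prod_get l (fun a : ℂ => 1 + ‖(y : ℂ) * I + a‖)]
  · unfold cser
    rw [← prod_get l (fun a : ℂ => Gammaℝ (s + a))]

theorem raw_of_isC {l : List ℝ} (hl : l ≠ []) {N : ℝ} (hN : 1 ≤ N) (ha : ∀ a ∈ l, -1 / 2 ≤ a)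
    {b c : ℕ → ℂ} {w : ℂ} {X : ℂ → ℂ} (h : IsC (l.map Pc.one) (1 / 2 * Real.log N) b w X)
    (hw : ‖w‖ = 1) (hc : ∀ n, ‖c n‖ ≤ l.length) (hconv : Conv b c) :
    RawL (l.map fun a : ℝ => (a : ℂ)) 0 N b c X := by
  have hN0 : 0 < N := by linarith
  refine ⟨?_, Nat.zero_le _, hN, fun j => ?_, h.entire, h.order, ⟨w, hw, fun s => ?_⟩, h.one,
    fun n => ?_, hconv, ?_⟩
  · rw [List.length_map]
    exact List.length_pos_iff.2 hl
  · have h1 := List.get_mem (l.map fun a : ℝ => (a : ℂ)) j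
    obtain ⟨a, ha1, ha2⟩ := List.mem_map.1 h1
    rw [← ha2, Complex.ofReal_re]
    exact ha a ha1
  · have := h.fe (1 - s)
    rw [sub_sub_cancel] at this
    rw [this]
    congr 3
    rw [map_sub, map_one]
  · rw [List.length_map]
    exact hc n
  · obtain ⟨σ0, hd⟩ := h.dir
    refine ⟨σ0, fun s hs => ?_⟩
    rw [hd s hs, exp_half_log hN0, prod_get (l.map fun a : ℝ => (a : ℂ)) (fun a : ℂ => Gammaℝ (s + a))]
    have e : GF (l.map Pc.one) s = ((l.map fun a : ℝ => (a : ℂ)).map fun a : ℂ => Gammaℝ (s + a)).prod := by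
      unfold GF
      rw [List.map_map, List.map_map]
      rfl
    rw [e, pow_zero, one_mul]

theorem conv_dir {N : ℕ} (χ : DirichletCharacter ℂ N) :
    Conv (fun n => χ (n : ZMod N)) (fun n => χ (n : ZMod N)) := by
  intro n hn
  have h1 : ∀ d ∈ n.divisors, ((ArithmeticFunction.vonMangoldt d : ℝ) : ℂ) * χ (d : ZMod N) *
      χ ((n / d : ℕ) : ZMod N) = ((ArithmeticFunction.vonMangoldt d : ℝ) : ℂ) * χ (n : ZMod N) := by
    intro d hd
    have hdn : d * (n / d) = n := Nat.mul_div_cancel' (Nat.dvd_of_mem_divisors hd)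
    rw [mul_assoc, ← map_mul, ← Nat.cast_mul, hdn]
  show χ (n : ZMod N) * ((Real.log n : ℝ) : ℂ) = _
  rw [Finset.sum_congr rfl h1, ← Finset.sum_mul, ← Complex.ofReal_sum,
    ArithmeticFunction.vonMangoldt_sum, mul_comm]

theorem dir_raw (N : ℕ) [NeZero N] (χ : DirichletCharacter ℂ N) (hN : 1 < N) (hχ : χ.IsPrimitive) :
    ∃ X : ℂ → ℂ, RawL [(parD χ : ℂ)] 0 N (fun n => χ (n : ZMod N)) (fun n => χ (n : ZMod N)) X := by
  obtain ⟨w, Λ, hw, h⟩ := dir_isC N χ hN hχ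
  have hN1 : (1 : ℝ) ≤ N := by exact_mod_cast hN.le
  refine ⟨Λ, raw_of_isC (l := [parD χ]) (by simp) hN1 (fun a ha => ?_) h hw (fun n => ?_)
    (conv_dir χ)⟩
  · rw [List.mem_singleton] at ha
    rw [ha]
    unfold parD
    split_ifs <;> norm_num
  · simpa using χ.norm_le_one (n : ZMod N)

theorem zeta_raw : RawL [0] 1 1 (fun _ => 1) (fun _ => 1)
    (fun s => s * (s - 1) * completedRiemannZeta₀ s + 1) := by
  have hz := zeta_isC
  have hpi' : (Real.pi : ℂ) ≠ 0 := by exact_mod_cast Real.pi_ne_zero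
  have e0 : ∀ s : ℂ, s * (s - 1) * completedRiemannZeta₀ s + 1 =
      (2 * Real.pi) * ((s * (s - 1) * completedRiemannZeta₀ s + 1) / (2 * Real.pi)) := fun s => by
    field_simp
  refine ⟨le_rfl, le_rfl, le_rfl, fun j => ?_, ?_, ?_, ⟨1, norm_one, fun s => ?_⟩, rfl,
    fun n => by simp, ?_, ⟨2, fun s hs => ?_⟩⟩
  · have : ([0] : List ℂ).get j = 0 := by
      have h1 := List.get_mem ([0] : List ℂ) j
      rwa [List.mem_singleton] at h1
    rw [this]
    norm_num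
  · have h1 := differentiable_completedZeta₀
    fun_prop
  · obtain ⟨A, ρ, h⟩ := hz.order
    refine ⟨|A| + Real.log (2 * Real.pi), max ρ 0, fun s => ?_⟩
    rw [e0 s, norm_mul]
    have hp : ‖(2 * Real.pi : ℂ)‖ = Real.exp (Real.log (2 * Real.pi)) := by
      rw [Real.exp_log (by positivity), norm_mul, Complex.norm_ofNat, Complex.norm_real,
        Real.norm_of_nonneg Real.pi_pos.le]
    have hs1 : (1 : ℝ) ≤ 1 + ‖s‖ := by linarith [norm_nonneg s]
    have h1 : (1 + ‖s‖) ^ ρ ≤ (1 + ‖s‖) ^ (max ρ 0) :=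
      Real.rpow_le_rpow_of_exponent_le hs1 (le_max_left _ _)
    have h2 : (1 : ℝ) ≤ (1 + ‖s‖) ^ (max ρ 0) := Real.one_le_rpow hs1 (le_max_right _ _)
    have h3 : 0 ≤ (1 + ‖s‖) ^ ρ := Real.rpow_nonneg (by linarith) _
    have h4 : 0 ≤ Real.log (2 * Real.pi) := Real.log_nonneg (by nlinarith [Real.pi_gt_three])
    refine (mul_le_mul_of_nonneg_left (h s) (norm_nonneg _)).trans ?_
    rw [hp, ← Real.exp_add]
    apply Real.exp_le_exp.2
    have h5 : A * (1 + ‖s‖) ^ ρ ≤ |A| * (1 + ‖s‖) ^ (max ρ 0) :=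
      (mul_le_mul_of_nonneg_right (le_abs_self A) h3).trans
        (mul_le_mul_of_nonneg_left h1 (abs_nonneg _))
    nlinarith
  · have h1 := hz.fe (1 - s)
    rw [sub_sub_cancel] at h1
    have e2 : (1 - conj s : ℂ) = conj (1 - s) := by rw [map_sub, map_one]
    have e3 : conj (conj (1 - s) * (conj (1 - s) - 1) * completedRiemannZeta₀ (conj (1 - s)) + 1) =
        (2 * Real.pi) * conj ((conj (1 - s) * (conj (1 - s) - 1) *
          completedRiemannZeta₀ (conj (1 - s)) + 1) / (2 * Real.pi)) := by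
      rw [map_div₀, map_mul (starRingEnd ℂ) 2, Complex.conj_ofReal, map_ofNat]
      field_simp
    rw [one_mul, e2, e0 s, h1, one_mul, e3]
  · have := conv_dir (1 : DirichletCharacter ℂ 1)
    intro n hn
    have h1 := this n hn
    have e : ∀ k : ℕ, (1 : DirichletCharacter ℂ 1) (k : ZMod 1) = 1 := fun k => by
      rw [Subsingleton.elim ((k : ℕ) : ZMod 1) 1, map_one]
    simp only [e] at h1
    exact h1
  · have hs0 : s ≠ 0 := fun h => by rw [h] at hs; norm_num at hs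
    have hs1 : s ≠ 1 := fun h => by rw [h] at hs; norm_num at hs
    have h1 : LSeries (fun _ => 1) s = riemannZeta s := LSeries_one_eq_riemannZeta (by linarith)
    have hG : Gammaℝ s ≠ 0 := Complex.Gammaℝ_ne_zero_of_re_pos (by linarith)
    have h2 : completedRiemannZeta s = Gammaℝ s * riemannZeta s := by
      rw [riemannZeta_def_of_ne_zero hs0]
      field_simp
    have h3 := completedRiemannZeta_eq s
    have h4 : s - 1 ≠ 0 := sub_ne_zero.2 hs1
    have h5 : 1 - s ≠ 0 := sub_ne_zero.2 (Ne.symm hs1)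
    rw [prod_get [0] (fun a : ℂ => Gammaℝ (s + a)), h1]
    simp only [List.map_cons, List.map_nil, List.prod_cons, List.prod_nil, mul_one, add_zero,
      pow_one, Complex.ofReal_one, Complex.one_cpow, one_mul]
    have h6 : Gammaℝ s * riemannZeta s = completedRiemannZeta₀ s - 1 / s - 1 / (1 - s) := by
      rw [← h2, h3]
    rw [mul_assoc (s * (s - 1)), h6]
    field_simp
    ring

theorem ray_raw (q : GaussianInt) (hq1 : 1 < Zsqrtd.norm q) (χ : MulChar (ZQ q) ℂ) (h : PrimQ q χ)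
    (hχ : chQ q χ ⟨0, 1⟩ = 1) : ∃ (c : ℕ → ℂ) (X : ℂ → ℂ),
      RawL [0, 1] 0 ((4 * Zsqrtd.norm q : ℤ) : ℝ) (Pool.Agent.H82R3.AR.bH (chQ q χ)) c X := by
  have hq : q ≠ 0 := by
    rintro rfl
    rw [Zsqrtd.norm_zero] at hq1
    omega
  obtain ⟨w, Λ, hw, hL⟩ := ray_isC q hq1 χ h hχ
  have hHC := hc_of_primQ q hq1 χ h hχ
  have hlg := Pool.Agent.H304R3.HK.lg_bb (chQ q χ) (Pool.Agent.H82R3.AR.uh_chi q _ hHC)
  have hN1 : (1 : ℝ) ≤ ((4 * Zsqrtd.norm q : ℤ) : ℝ) := by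
    have : (1 : ℤ) ≤ 4 * Zsqrtd.norm q := by omega
    exact_mod_cast this
  rw [log_tc hq] at hL
  have := raw_of_isC (l := [0, 1]) (by simp) hN1 (fun a ha => ?_) hL hw
    (c := Pool.Agent.H304R3.HK.ccf (chQ q χ)) (fun n => ?_) hlg.lg
  · refine ⟨Pool.Agent.H304R3.HK.ccf (chQ q χ), Λ, ?_⟩
    simpa using this
  · simp only [List.mem_cons, List.not_mem_nil, or_false] at ha
    rcases ha with rfl | rfl <;> norm_num
  · simpa using hlg.cd n

theorem hecke_raw {k : ℕ} (hk : 1 ≤ k) (q : GaussianInt) (χ : GaussianInt →* ℂ)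
    (H : Pool.Agent.W354.PK.HCk k q χ) : ∃ (c : ℕ → ℂ) (X : ℂ → ℂ),
      RawL [(k : ℂ) / 2, (k : ℂ) / 2 + 1] 0 ((4 * Zsqrtd.norm q : ℤ) : ℝ)
        (Pool.Agent.W354.PK.bK k χ) c X := by
  obtain ⟨w, Λ, hw, hL⟩ := hecke_isC hk q χ H
  have hlg := Pool.Agent.H304R3.HK.lg_bb (Pool.Agent.W354.PK.psik k χ) (Pool.Agent.W354.PK.uh_psik H)
  have hN1 : (1 : ℝ) ≤ ((4 * Zsqrtd.norm q : ℤ) : ℝ) := by
    have h1 := GaussianInt.norm_pos.2 H.q0
    have : (1 : ℤ) ≤ 4 * Zsqrtd.norm q := by omega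
    exact_mod_cast this
  rw [log_tc H.q0] at hL
  have hk0 : (0 : ℝ) ≤ k := Nat.cast_nonneg k
  have := raw_of_isC (l := [(k : ℝ) / 2, (k : ℝ) / 2 + 1]) (by simp) hN1 (fun a ha => ?_) hL hw
    (c := Pool.Agent.H304R3.HK.ccf (Pool.Agent.W354.PK.psik k χ)) (fun n => ?_) hlg.lg
  · refine ⟨Pool.Agent.H304R3.HK.ccf (Pool.Agent.W354.PK.psik k χ), Λ, ?_⟩
    simpa using this
  · simp only [List.mem_cons, List.not_mem_nil, or_false] at ha
    rcases ha with rfl | rfl <;> linarith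
  · simpa using hlg.cd n

end Pool.Agent.W355.UN
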