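import Pool.Agent.W355.UN.Fin

/-!
# Euler products of degree two; newforms
-/

set_option autoImplicit false

open Complex MeasureTheory Filter Topology Set
open scoped ComplexConjugate

namespace Pool.Agent.W355.UN

open Pool.Agent.W169.HF H353.E Pool.Agent.W355.LJ
open Pool.Agent.H304R3.HK (ts)

/-- Euler products of degree two, with roots of absolute value at most one -/
structure Eu2 (b : ℕ → ℂ) : Prop where
  one : b 1 = 1
  mul : ∀ m n : ℕ, Nat.Coprime m n → b (m * n) = b m * b n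
  pow : ∀ p : ℕ, p.Prime → ∃ u v : ℂ, ‖u‖ ≤ 1 ∧ ‖v‖ ≤ 1 ∧ b p = u + v ∧
    ∀ k : ℕ, b (p ^ (k + 2)) = b p * b (p ^ (k + 1)) - u * v * b (p ^ k)

theorem Eu2.conv {b : ℕ → ℂ} (h : Eu2 b) : ∃ c : ℕ → ℂ, (∀ n, ‖c n‖ ≤ 2) ∧ Conv b c := by
  classical
  have hex : ∀ p : ℕ, ∃ e u v : ℂ, p.Prime → e = u * v ∧ ‖u‖ ≤ 1 ∧ ‖v‖ ≤ 1 ∧ b p = u + v ∧
      ∀ k : ℕ, b (p ^ (k + 2)) = b p * b (p ^ (k + 1)) - e * b (p ^ k) := by
    intro p
    by_cases hp : p.Prime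
    · obtain ⟨u, v, hu, hv, h1, h2⟩ := h.pow p hp
      exact ⟨u * v, u, v, fun _ => ⟨rfl, hu, hv, h1, h2⟩⟩
    · exact ⟨0, 0, 0, fun h => absurd h hp⟩
  choose e u v he using hex
  refine ⟨fun n => if IsPrimePow n then ts (b n.minFac) (e n.minFac) (n.factorization n.minFac)
    else 0, fun n => ?_, fun n hn => ?_⟩
  · show ‖if IsPrimePow n then ts (b n.minFac) (e n.minFac) (n.factorization n.minFac) else 0‖ ≤ 2
    split_ifs with hn
    · obtain ⟨h1, h2, h3, h4, -⟩ := he n.minFac (Nat.minFac_prime hn.ne_one)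
      rw [h4, h1]
      exact Pool.Agent.H304R3.HK.ts_bound _ _ h2 h3 _
    · rw [norm_zero]; norm_num
  · refine Pool.Agent.H304R3.HK.gen_log b e _ h.one h.mul (fun p hp k => (he p hp).2.2.2.2 k)
      (fun p hp k => ?_) n hn
    have h1 : IsPrimePow (p ^ (k + 1)) := hp.isPrimePow.pow (Nat.succ_ne_zero k)
    have h2 : (p ^ (k + 1)).minFac = p := hp.pow_minFac (Nat.succ_ne_zero k)
    show (if IsPrimePow (p ^ (k + 1)) then _ else _) = _
    rw [if_pos h1, h2, hp.factorization_pow, Finsupp.single_eq_same]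

theorem Eu2.twist {b : ℕ → ℂ} (h : Eu2 b) {q : ℕ} (χ : DirichletCharacter ℂ q) :
    Eu2 fun n => χ (n : ZMod q) * b n := by
  refine ⟨?_, fun m n hmn => ?_, fun p hp => ?_⟩
  · show χ ((1 : ℕ) : ZMod q) * b 1 = 1
    rw [Nat.cast_one, map_one, h.one, one_mul]
  · show χ ((m * n : ℕ) : ZMod q) * b (m * n) = χ (m : ZMod q) * b m * (χ (n : ZMod q) * b n)
    rw [h.mul m n hmn, Nat.cast_mul, map_mul]
    ring
  · obtain ⟨u, v, hu, hv, h1, h2⟩ := h.pow p hp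
    have hχ := χ.norm_le_one (p : ZMod q)
    refine ⟨χ (p : ZMod q) * u, χ (p : ZMod q) * v, ?_, ?_, ?_, fun k => ?_⟩
    · rw [norm_mul]
      exact mul_le_one₀ hχ (norm_nonneg _) hu
    · rw [norm_mul]
      exact mul_le_one₀ hχ (norm_nonneg _) hv
    · show χ (p : ZMod q) * b p = _
      rw [h1]
      ring
    · show χ ((p ^ (k + 2) : ℕ) : ZMod q) * b (p ^ (k + 2)) =
        χ (p : ZMod q) * b p * (χ ((p ^ (k + 1) : ℕ) : ZMod q) * b (p ^ (k + 1))) -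
          χ (p : ZMod q) * u * (χ (p : ZMod q) * v) * (χ ((p ^ k : ℕ) : ZMod q) * b (p ^ k))
      rw [h2 k]
      push_cast
      rw [map_pow, map_pow, map_pow]
      ring

/-- forms of weight `k` with an Euler product -/
theorem nf_raw {N k : ℕ} [NeZero N]
    (f : CuspForm (CongruenceSubgroup.Gamma1 N : Subgroup (GL (Fin 2) ℝ)) (k : ℤ))
    {w : ℂ} (hk : 1 ≤ k) (hf : IsNF N k f w)
    (hE : Eu2 fun n => (UpperHalfPlane.qExpansion 1 f).coeff n *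
          ((((n : ℝ) ^ (-(((k : ℝ) - 1) / 2)) : ℝ)) : ℂ)) :
    ∃ (c : ℕ → ℂ) (X : ℂ → ℂ), RawL [(((((k : ℝ) - 1) / 2) : ℝ) : ℂ), (((((k : ℝ) + 1) / 2) : ℝ) : ℂ)] 0 N
      (fun n => (UpperHalfPlane.qExpansion 1 f).coeff n *
          ((((n : ℝ) ^ (-(((k : ℝ) - 1) / 2)) : ℝ)) : ℂ)) c X := by
  obtain ⟨w', Λ, hw', h⟩ := nf_isC f hk hf
  obtain ⟨c, hc, hconv⟩ := hE.conv
  have hN1 : (1 : ℝ) ≤ N := by exact_mod_cast Nat.one_le_iff_ne_zero.2 (NeZero.ne N)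
  have hk1 : (1 : ℝ) ≤ k := by exact_mod_cast hk
  have := raw_of_isC (l := [((k : ℝ) - 1) / 2, ((k : ℝ) + 1) / 2]) (by simp) hN1 (fun a ha => ?_) h
    hw' (c := c) (fun n => by simpa using hc n) hconv
  · exact ⟨c, Λ, this⟩
  · simp only [List.mem_cons, List.not_mem_nil, or_false] at ha
    rcases ha with rfl | rfl <;> linarith

end Pool.Agent.W355.UN
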