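import Pool.Agent.W355.UN.Raw

/-!
# Products of L-functions; the final form of the theorems
-/

set_option autoImplicit false

open Complex MeasureTheory Filter Topology Set
open scoped ComplexConjugate

namespace Pool.Agent.W355.UN

open Pool.Agent.W169.HF H353.E

lemma slow_mul {f g : ℂ → ℂ} (hf : Slow f) (hg : Slow g) : Slow fun s => f s * g s := by
  refine ⟨hf.1.mul hg.1, fun δ hδ => ?_⟩
  obtain ⟨K1, h1, H1⟩ := hf.2 (δ / 2) (by linarith)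
  obtain ⟨K2, h2, H2⟩ := hg.2 (δ / 2) (by linarith)
  refine ⟨K1 * K2, by positivity, fun s => ?_⟩
  rw [norm_mul]
  have e : δ * ‖s‖ ^ 2 = δ / 2 * ‖s‖ ^ 2 + δ / 2 * ‖s‖ ^ 2 := by ring
  rw [e, Real.exp_add]
  calc ‖f s‖ * ‖g s‖ ≤ (K1 * Real.exp (δ / 2 * ‖s‖ ^ 2)) * (K2 * Real.exp (δ / 2 * ‖s‖ ^ 2)) :=
        mul_le_mul (H1 s) (H2 s) (norm_nonneg _) (by positivity)
    _ = _ := by ring

lemma gaf_append {m1 m2 : ℕ} {N1 N2 : ℝ} (h1 : 0 ≤ N1) (h2 : 0 ≤ N2) (μ1 : Fin m1 → ℂ)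
    (μ2 : Fin m2 → ℂ) (s : ℂ) :
    gaf (N1 * N2) (Fin.append μ1 μ2) s = gaf N1 μ1 s * gaf N2 μ2 s := by
  unfold gaf
  rw [Fin.prod_univ_add]
  simp only [Fin.append_left, Fin.append_right]
  rw [Complex.ofReal_mul, Complex.mul_cpow_ofReal_nonneg h1 h2]
  ring

lemma cond_append {m1 m2 : ℕ} (N1 N2 : ℝ) (μ1 : Fin m1 → ℂ) (μ2 : Fin m2 → ℂ) (y : ℝ) :
    cond (N1 * N2) (Fin.append μ1 μ2) y = cond N1 μ1 y * cond N2 μ2 y := by
  unfold cond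
  rw [Fin.prod_univ_add]
  simp only [Fin.append_left, Fin.append_right]
  ring

theorem UL.mul {m1 m2 : ℕ} {B : ℝ → ℝ} {N1 N2 θ : ℝ} {μ1 : Fin m1 → ℂ} {μ2 : Fin m2 → ℂ}
    {X1 L1 X2 L2 : ℂ → ℂ} (h1 : UL m1 B N1 θ μ1 X1 L1) (h2 : UL m2 B N2 θ μ2 X2 L2) :
    UL (m1 + m2) B (N1 * N2) θ (Fin.append μ1 μ2) (fun s => X1 s * X2 s) (fun s => L1 s * L2 s) := by
  have hN1 := h1.hN
  have hN2 := h2.hN
  have hdiff : ∀ {m : ℕ} {N : ℝ} {μ : Fin m → ℂ} {X L : ℂ → ℂ}, UL m B N θ μ X L → ∀ s : ℂ,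
      1 + θ < s.re → DifferentiableAt ℂ L s := by
    intro m N μ X L h s hs
    have hs1 : 1 ≤ s.re := by linarith [h.hθ]
    have hev : ∀ᶠ z in 𝓝 s, 1 + θ < z.re :=
      (Complex.continuous_re.tendsto s).eventually (lt_mem_nhds hs)
    have hev2 : L =ᶠ[𝓝 s] fun z => X z / gaf N μ z := by
      filter_upwards [hev] with z h1
      rw [h.eq z h1, mul_div_cancel_left₀ _ (h.gp.ne z (by linarith [h.hθ]))]
    exact ((h.slow.1 s).div (h.gp.der s hs1).differentiableAt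
      (h.gp.ne s hs1)).congr_of_eventuallyEq hev2
  refine ⟨by have := h1.hm; omega, by nlinarith, h1.hB, h1.hθ, fun j => ?_, slow_mul h1.slow h2.slow,
    ?_, fun s hs => ?_, fun s hs => mul_ne_zero (h1.ne s hs) (h2.ne s hs), fun ρ hρ hρ1 s hs => ?_⟩
  · refine Fin.addCases (fun i => ?_) (fun i => ?_) j
    · rw [Fin.append_left]; exact h1.re_le i
    · rw [Fin.append_right]; exact h2.re_le i
  · obtain ⟨ε1, e1, f1⟩ := h1.fe
    obtain ⟨ε2, e2, f2⟩ := h2.fe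
    refine ⟨ε1 * ε2, by rw [norm_mul, e1, e2, one_mul], fun s => ?_⟩
    show X1 s * X2 s = ε1 * ε2 * conj (X1 (1 - conj s) * X2 (1 - conj s))
    rw [f1 s, f2 s, map_mul]
    ring
  · show X1 s * X2 s = _
    rw [h1.eq s hs, h2.eq s hs, gaf_append (by linarith) (by linarith)]
    ring
  · have hs' : 1 + θ < s.re := by linarith
    rw [logDeriv_mul s (h1.ne s hs') (h2.ne s hs') (hdiff h1 s hs') (hdiff h2 s hs')]
    refine (norm_add_le _ _).trans ?_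
    have a1 := h1.bd ρ hρ hρ1 s hs
    have a2 := h2.bd ρ hρ hρ1 s hs
    push_cast
    linarith

/-- an L-function of degree `d`, conductor `N`, analytic conductor `cn y` at height `y`, with
completed function `X`, equal to `G` for large real part -/
def Pk (d : ℕ) (N : ℝ) (cn : ℝ → ℝ) (G X : ℂ → ℂ) : Prop :=
  ∃ (μ : Fin d → ℂ) (L : ℂ → ℂ), UL d Bst N 0 μ X L ∧ (∀ y, cond N μ y = cn y) ∧
    ∃ σ : ℝ, ∀ s : ℂ, σ ≤ s.re → X s = G s

theorem Pk.mul {d1 d2 : ℕ} {N1 N2 : ℝ} {c1 c2 : ℝ → ℝ} {G1 G2 X1 X2 : ℂ → ℂ} (h1 : Pk d1 N1 c1 G1 X1)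
    (h2 : Pk d2 N2 c2 G2 X2) :
    Pk (d1 + d2) (N1 * N2) (fun y => c1 y * c2 y) (fun s => G1 s * G2 s) (fun s => X1 s * X2 s) := by
  obtain ⟨μ1, L1, u1, e1, σ1, g1⟩ := h1
  obtain ⟨μ2, L2, u2, e2, σ2, g2⟩ := h2
  refine ⟨_, _, u1.mul u2, fun y => ?_, max σ1 σ2, fun s hs => ?_⟩
  · rw [cond_append, e1, e2]
  · show X1 s * X2 s = G1 s * G2 s
    rw [g1 s ((le_max_left _ _).trans hs), g2 s ((le_max_right _ _).trans hs)]

theorem pk_list {ι : Type} (d : ι → ℕ) (N : ι → ℝ) (cn : ι → ℝ → ℝ) (G : ι → ℂ → ℂ)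
    (h : ∀ i, ∃ X : ℂ → ℂ, Pk (d i) (N i) (cn i) (G i) X) (l : List ι) (hl : l ≠ []) :
    ∃ X : ℂ → ℂ, Pk (l.map d).sum (l.map N).prod (fun y => (l.map fun i => cn i y).prod)
      (fun s => (l.map fun i => G i s).prod) X := by
  induction l with
  | nil => exact absurd rfl hl
  | cons a l ih =>
    obtain ⟨X1, h1⟩ := h a
    rcases eq_or_ne l [] with rfl | hne
    · refine ⟨X1, ?_⟩
      simpa using h1
    · obtain ⟨X2, h2⟩ := ih hne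
      refine ⟨fun s => X1 s * X2 s, ?_⟩
      simp only [List.map_cons, List.sum_cons, List.prod_cons]
      exact h1.mul h2

theorem Pk.of_raw (hC : S_COEF) (hS : S_SLOW) (hG : S_GAM) {m r : ℕ} {N : ℝ} {a : Fin m → ℂ}
    {b c : ℕ → ℂ} {X : ℂ → ℂ} (h : Raw m r N a b c X) :
    Pk m N (fun y => N * ∏ j, (1 + ‖(y : ℂ) * I + a j‖))
      (fun s => (s * (s - 1)) ^ r * ((N : ℂ) ^ (s / 2) * ∏ j, Gammaℝ (s + a j)) * LSeries b s) X := by
  refine ⟨_, _, h.ul hC hS hG, fun y => ?_, h.eq⟩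
  unfold cond
  simp only [sub_neg_eq_add]

theorem Pk.congr {d : ℕ} {N : ℝ} {cn cn' : ℝ → ℝ} {G G' X : ℂ → ℂ} (h : Pk d N cn G X)
    (h1 : ∀ y, cn y = cn' y) (h2 : ∃ σ : ℝ, ∀ s : ℂ, σ ≤ s.re → G s = G' s) : Pk d N cn' G' X := by
  obtain ⟨μ, L, u, e, σ, g⟩ := h
  obtain ⟨σ', h2⟩ := h2
  exact ⟨μ, L, u, fun y => (e y).trans (h1 y), max σ σ', fun s hs =>
    (g s ((le_max_left _ _).trans hs)).trans (h2 s ((le_max_right _ _).trans hs))⟩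

section
variable {d : ℕ} {N : ℝ} {cn : ℝ → ℝ} {G X : ℂ → ℂ}

theorem Pk.one_le_d (h : Pk d N cn G X) : 1 ≤ d := by
  obtain ⟨μ, L, u, -⟩ := h
  exact u.hm

theorem Pk.one_le_N (h : Pk d N cn G X) : 1 ≤ N := by
  obtain ⟨μ, L, u, -⟩ := h
  exact u.hN

theorem Pk.le_cn (h : Pk d N cn G X) (y : ℝ) : N ≤ cn y := by
  obtain ⟨μ, L, u, e, -⟩ := h
  rw [← e y]
  unfold cond
  have h1 : 1 ≤ ∏ j, (1 + ‖(y : ℂ) * I - μ j‖) := by
    refine Finset.prod_induction _ (fun x => (1 : ℝ) ≤ x) (fun a b ha hb => ?_) le_rfl fun j _ => ?_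
    · nlinarith
    · linarith [norm_nonneg ((y : ℂ) * I - μ j)]
  have := u.hN
  nlinarith

theorem Pk.diff (h : Pk d N cn G X) : Differentiable ℂ X := by
  obtain ⟨μ, L, u, -⟩ := h
  exact u.slow.1

theorem Pk.fe (h : Pk d N cn G X) : ∃ w : ℂ, ‖w‖ = 1 ∧ ∀ s : ℂ, X (1 - s) = w * conj (X (conj s)) := by
  obtain ⟨μ, L, u, -⟩ := h
  obtain ⟨ε, e, f⟩ := u.fe
  refine ⟨ε, e, fun s => ?_⟩
  rw [f (1 - s)]
  congr 3
  rw [map_sub, map_one]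
  ring

theorem Pk.uniq {G X X' : ℂ → ℂ} (hX : Differentiable ℂ X) (hX' : Differentiable ℂ X')
    (h : ∃ σ : ℝ, ∀ s : ℂ, σ ≤ s.re → X s = G s) (h' : ∃ σ : ℝ, ∀ s : ℂ, σ ≤ s.re → X' s = G s) :
    X' = X := by
  obtain ⟨σ, h⟩ := h
  obtain ⟨σ', h'⟩ := h'
  have hev : X' =ᶠ[𝓝 (((max σ σ' + 1 : ℝ)) : ℂ)] X := by
    have h3 : ∀ᶠ z : ℂ in 𝓝 (((max σ σ' + 1 : ℝ)) : ℂ), max σ σ' < z.re :=
      (Complex.continuous_re.tendsto _).eventually (lt_mem_nhds (by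
        rw [Complex.ofReal_re]
        linarith))
    filter_upwards [h3] with z hz
    rw [h z ((le_max_left _ _).trans hz.le), h' z ((le_max_right _ _).trans hz.le)]
  exact AnalyticOnNhd.eq_of_eventuallyEq (fun z _ => hX'.analyticAt z) (fun z _ => hX.analyticAt z) hev

end

/-- the absolute theorem -/
theorem fin_abs : ∃ C : ℝ, 0 < C ∧ ∀ (d : ℕ) (N : ℝ) (cn : ℝ → ℝ) (G X : ℂ → ℂ), Pk d N cn G X →
    (∀ (t : ℝ) (s : ℂ), 0 < t → C ≤ t * (d + Real.log (cn s.im)) → heat t X s = 0 → s.re = 1 / 2) ∧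
    (∀ (t : ℝ), 0 < t → C ≤ t * (d + Real.log N) → ∀ s : ℂ, heat t X s = 0 → s.re = 1 / 2) ∧
    ((∀ s : ℂ, X s = 0 → s.re = 1 / 2) ↔
      ∀ t : ℝ, 0 < t → t * (d + Real.log N) < C → ∀ s : ℂ, heat t X s = 0 → s.re = 1 / 2) := by
  obtain ⟨C, hC, H⟩ := absolute (Bst_nonneg 1)
  refine ⟨C, hC, fun d N cn G X h => ?_⟩
  have hd : (1 : ℝ) ≤ d := by exact_mod_cast h.one_le_d
  have hN := h.one_le_N
  have hlog := Real.log_nonneg hN
  have hle := h.le_cn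
  obtain ⟨μ, L, u, e, -⟩ := h
  have h1 : ∀ (t : ℝ) (s : ℂ), 0 < t → C ≤ t * (d + Real.log (cn s.im)) → heat t X s = 0 →
      s.re = 1 / 2 := fun t s ht hc hs => H d N 0 μ X L u (by norm_num) t s ht (by rw [e]; exact hc) hs
  have h2 : ∀ (t : ℝ), 0 < t → C ≤ t * (d + Real.log N) → ∀ s : ℂ, heat t X s = 0 → s.re = 1 / 2 :=
    fun t ht hc s hs => h1 t s ht (hc.trans (mul_le_mul_of_nonneg_left
      (by linarith [Real.log_le_log (by linarith) (hle s.im)]) ht.le)) hs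
  refine ⟨h1, h2, ?_⟩
  have hpos : 0 < (d : ℝ) + Real.log N := by linarith
  rw [rh_iff u (T := C / (d + Real.log N)) (by positivity)]
  constructor
  · intro hr t ht htC
    exact hr t ht ((lt_div_iff₀ hpos).2 htC)
  · intro hr t ht htC
    exact hr t ht ((lt_div_iff₀ hpos).1 htC)

/-- the sharp theorem -/
theorem fin_sharp {η : ℝ} (hη : 0 < η) : ∃ C : ℝ, 0 < C ∧ ∀ (d : ℕ) (N : ℝ) (cn : ℝ → ℝ)
    (G X : ℂ → ℂ), Pk d N cn G X →
    (∀ (t : ℝ) (s : ℂ), 0 < t → C * d ≤ Real.log (cn s.im) → 1 + η ≤ t * Real.log (cn s.im) →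
      heat t X s = 0 → s.re = 1 / 2) ∧
    (C * d ≤ Real.log N →
      (∀ t : ℝ, (1 + η) / Real.log N ≤ t → ∀ s : ℂ, heat t X s = 0 → s.re = 1 / 2) ∧
      ((∀ s : ℂ, X s = 0 → s.re = 1 / 2) ↔
        ∀ t : ℝ, 0 < t → t < (1 + η) / Real.log N → ∀ s : ℂ, heat t X s = 0 → s.re = 1 / 2)) := by
  obtain ⟨C, hC, H⟩ := sharp (B := Bst) (θ := 0) (η := min η 1) Bst_nonneg le_rfl (by norm_num)
    (by positivity) (min_le_right _ _)
  refine ⟨C, hC, fun d N cn G X h => ?_⟩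
  have hd : (1 : ℝ) ≤ d := by exact_mod_cast h.one_le_d
  have hN := h.one_le_N
  have hle := h.le_cn
  obtain ⟨μ, L, u, e, -⟩ := h
  have h1 : ∀ (t : ℝ) (s : ℂ), 0 < t → C * d ≤ Real.log (cn s.im) →
      1 + η ≤ t * Real.log (cn s.im) → heat t X s = 0 → s.re = 1 / 2 := fun t s ht hc hc2 hs =>
    H d N μ X L u t s ht (by rw [e]; exact hc) (by rw [e]; linarith [min_le_left η 1]) hs
  refine ⟨h1, fun hCN => ?_⟩
  have hlog : 0 < Real.log N := by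
    have : 0 < C * d := by positivity
    linarith
  have h2 : ∀ t : ℝ, (1 + η) / Real.log N ≤ t → ∀ s : ℂ, heat t X s = 0 → s.re = 1 / 2 := by
    intro t ht s hs
    have ht0 : 0 < t := lt_of_lt_of_le (by positivity) ht
    have hl := Real.log_le_log (by linarith) (hle s.im)
    rw [div_le_iff₀ hlog] at ht
    exact h1 t s ht0 (hCN.trans hl) (ht.trans (mul_le_mul_of_nonneg_left hl ht0.le)) hs
  exact ⟨h2, rh_iff u (by positivity)⟩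

end Pool.Agent.W355.UN
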