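import Pool.Agent.W355.UN.Fin
import Pool.Agent.W355.HW.Fin
import Pool.Agent.W169.HF.EC

/-!
# The Hasse-Weil L-functions of the powers of a CM curve
-/

set_option autoImplicit false

open Complex MeasureTheory Filter Topology Set
open scoped ComplexConjugate

namespace Pool.Agent.W355.UN

open Pool.Agent.W169.HF H353.E Pool.Agent.W355.LJ Pool.Agent.W355.HW
open Pool.Agent.W354.PK (HCk LK bK psik goodK)
open Pool.Agent.W354.HW (chiE qE chiE_pow_HC chiE_apply gE euler_k)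

/-- `Pk` and real on the real axis -/
def PkR (d : ℕ) (N : ℝ) (cn : ℝ → ℝ) (G X : ℂ → ℂ) : Prop := Pk d N cn G X ∧ st X = X

theorem pkR_mul {d1 d2 : ℕ} {N1 N2 : ℝ} {c1 c2 : ℝ → ℝ} {G1 G2 X1 X2 : ℂ → ℂ}
    (h1 : PkR d1 N1 c1 G1 X1) (h2 : PkR d2 N2 c2 G2 X2) :
    PkR (d1 + d2) (N1 * N2) (fun y => c1 y * c2 y) (fun s => G1 s * G2 s) (fun s => X1 s * X2 s) := by
  obtain ⟨g1, s1⟩ := h1
  obtain ⟨g2, s2⟩ := h2
  refine ⟨g1.mul g2, ?_⟩
  funext s
  have e1 := congrFun s1 s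
  have e2 := congrFun s2 s
  unfold st at e1 e2 ⊢
  simp only
  rw [map_mul, e1, e2]

theorem pkR_pow {d : ℕ} {N : ℝ} {cn : ℝ → ℝ} {G : ℂ → ℂ} (h : ∃ X, PkR d N cn G X) (n : ℕ)
    (hn : n ≠ 0) : ∃ X, PkR (n * d) (N ^ n) (fun y => cn y ^ n) (fun s => G s ^ n) X := by
  induction n with
  | zero => exact absurd rfl hn
  | succ n ih =>
    rcases Nat.eq_zero_or_pos n with rfl | hpos
    · simpa using h
    · obtain ⟨X1, h1⟩ := ih hpos.ne'
      obtain ⟨X2, h2⟩ := h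
      refine ⟨fun s => X1 s * X2 s, ?_⟩
      have h3 := pkR_mul h1 h2
      simp only [← pow_succ, ← Nat.succ_mul] at h3
      exact h3

theorem pkR_prod (d : ℕ → ℕ) (N : ℕ → ℝ) (cn : ℕ → ℝ → ℝ) (G : ℕ → ℂ → ℂ)
    (h : ∀ l, ∃ X, PkR (d l) (N l) (cn l) (G l) X) (c : ℕ → ℕ) (h0 : c 0 ≠ 0) (n : ℕ) :
    ∃ X, PkR (∑ l ∈ Finset.range (n + 1), c l * d l) (∏ l ∈ Finset.range (n + 1), N l ^ c l)
      (fun y => ∏ l ∈ Finset.range (n + 1), cn l y ^ c l)
      (fun s => ∏ l ∈ Finset.range (n + 1), G l s ^ c l) X := by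
  induction n with
  | zero =>
    simpa using pkR_pow (h 0) (c 0) h0
  | succ n ih =>
    obtain ⟨X1, h1⟩ := ih
    by_cases hc : c (n + 1) = 0
    · refine ⟨X1, ?_⟩
      simp only [Finset.prod_range_succ _ (n + 1), Finset.sum_range_succ _ (n + 1), hc, pow_zero,
        mul_one, zero_mul, add_zero]
      exact h1
    · obtain ⟨X2, h2⟩ := pkR_pow (h (n + 1)) (c (n + 1)) hc
      refine ⟨fun s => X1 s * X2 s, ?_⟩
      have h3 := pkR_mul h1 h2
      simp only [← Finset.prod_range_succ, ← Finset.sum_range_succ] at h3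
      exact h3

/-- the analytic conductor of `L(s, ψ^(2l+1))` -/
noncomputable def cn1 (l : ℕ) (y : ℝ) : ℝ :=
  32 * ((1 + ‖(y : ℂ) * I + ((l : ℂ) + 1 / 2)‖) * (1 + ‖(y : ℂ) * I + ((l : ℂ) + 1 / 2 + 1)‖))

theorem pkR_one (l : ℕ) : ∃ X, PkR 2 32 (cn1 l) (G1 l) X := by
  have hH := chiE_pow_HC (odd_l l)
  obtain ⟨w, Λ, hw, h⟩ := hecke_isC (k := 2 * l + 1) (by omega) qE _ hH
  have hn : (4 * Zsqrtd.norm qE : ℤ) = 32 := by decide
  have hN : ((4 * Zsqrtd.norm qE : ℤ) : ℝ) = 32 := by rw [hn]; norm_num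
  have hlg := Pool.Agent.H304R3.HK.lg_bb (psik (2 * l + 1) (chiE ^ (2 * l + 1)))
    (Pool.Agent.W354.PK.uh_psik hH)
  have hst := h.real_star (bK_real _)
  rw [log_tc hH.q0, hN] at h
  have hl0 : (0 : ℝ) ≤ l := Nat.cast_nonneg l
  have e1 : ((2 * l + 1 : ℕ) : ℝ) / 2 = (l : ℝ) + 1 / 2 := by push_cast; ring
  rw [e1] at h
  have hraw := raw_of_isC (l := [(l : ℝ) + 1 / 2, (l : ℝ) + 1 / 2 + 1]) (by simp)
    (by norm_num : (1 : ℝ) ≤ 32) (fun a ha => ?_) h hw
    (c := Pool.Agent.H304R3.HK.ccf (psik (2 * l + 1) (chiE ^ (2 * l + 1)))) (fun n => ?_) hlg.lg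
  · refine ⟨Λ, (pk_raw hraw).congr (fun y => ?_) ⟨2, fun s hs => ?_⟩, hst⟩
    · unfold acond cn1
      simp only [List.map_cons, List.map_nil, List.prod_cons, List.prod_nil, mul_one]
      push_cast
      rfl
    · unfold cser G1
      rw [lseries_FE l (by linarith)]
      simp only [List.map_cons, List.map_nil, List.prod_cons, List.prod_nil, mul_one, pow_zero,
        one_mul]
      push_cast
      congr 2
      rw [← Complex.Gammaℝ_mul_Gammaℝ_add_one]
      congr 2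
      · ring
      · ring
  · simp only [List.mem_cons, List.not_mem_nil, or_false] at ha
    rcases ha with rfl | rfl <;> linarith
  · simpa using hlg.cd n

theorem sum_BB (g m : ℕ) : ∑ l ∈ Finset.range (m + 1), mu g m l * 2 = 2 * BB g m := by
  unfold BB
  rw [← Finset.sum_mul, mul_comm]

/-- the analytic conductor -/
noncomputable def cnP (g i : ℕ) (y : ℝ) : ℝ :=
  Cond g i * ∏ p ∈ Finset.range ((i + 1) / 2),
    ((1 + ‖(y : ℂ) * I + ((i : ℂ) / 2 - p)‖) * (1 + ‖(y : ℂ) * I + ((i : ℂ) / 2 - p + 1)‖)) ^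
      (g.choose p * g.choose (i - p))

theorem cnP_eq (g m : ℕ) (y : ℝ) :
    ∏ l ∈ Finset.range (m + 1), cn1 l y ^ mu g m l = cnP g (2 * m + 1) y := by
  unfold cn1 cnP
  rw [← BB_eq]
  unfold BB
  simp only [mul_pow (32 : ℝ), Finset.prod_mul_distrib, Finset.prod_pow_eq_pow_sum]
  congr 1
  have e0 : (2 * m + 1 + 1) / 2 = m + 1 := by omega
  rw [e0, ← Finset.prod_range_reflect _ (m + 1)]
  refine Finset.prod_congr rfl fun l hl => ?_
  have hl' : l ≤ m := by have := Finset.mem_range.mp hl; omega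
  have e1 : m + 1 - 1 - l = m - l := by omega
  rw [e1]
  unfold mu
  have e2 : m - (m - l) = l := by omega
  have e3 : m + 1 + (m - l) = 2 * m + 1 - l := by omega
  rw [e2, e3]
  have e4 : (((m - l : ℕ) : ℂ) + 1 / 2) = (((2 * m + 1 : ℕ) : ℂ) / 2 - l) := by
    push_cast [Nat.cast_sub hl']
    ring
  rw [e4]

/-- `b_i(E^g) = C(2g, i)` -/
theorem two_BB (g m : ℕ) : 2 * BB g m = (2 * g).choose (2 * m + 1) := by
  have h1 : (2 * g).choose (2 * m + 1) =
      ∑ k ∈ Finset.range (2 * m + 1 + 1), g.choose k * g.choose (2 * m + 1 - k) := by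
    rw [two_mul g, Nat.add_choose_eq, Finset.Nat.sum_antidiagonal_eq_sum_range_succ_mk]
  have e0 : 2 * m + 1 + 1 = (m + 1) + (m + 1) := by ring
  rw [h1, e0, Finset.sum_range_add, ← Finset.sum_range_reflect _ (m + 1)]
  unfold BB mu
  rw [two_mul]
  congr 1
  · refine Finset.sum_congr rfl fun l hl => ?_
    have hl' : l ≤ m := by have := Finset.mem_range.mp hl; omega
    have e1 : m + 1 - 1 - l = m - l := by omega
    have e2 : 2 * m + 1 - (m - l) = m + 1 + l := by omega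
    rw [e1, e2]
  · refine Finset.sum_congr rfl fun l hl => ?_
    have hl' : l ≤ m := by have := Finset.mem_range.mp hl; omega
    have e3 : 2 * m + 1 - (m + 1 + l) = m - l := by omega
    rw [e3, mul_comm]

/-- the completed L-function, centred at `1/2` -/
theorem pk_pow (g m : ℕ) (hm : m < g) :
    ∃ X, PkR ((2 * g).choose (2 * m + 1)) (Cond g (2 * m + 1)) (cnP g (2 * m + 1)) (HW.GP g m) X := by
  obtain ⟨X, h, hst⟩ := pkR_prod (fun _ => 2) (fun _ => 32) cn1 G1 pkR_one (mu g m) (mu_zero hm) m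
  rw [sum_BB, two_BB, Finset.prod_pow_eq_pow_sum] at h
  have e : (32 : ℝ) ^ (∑ l ∈ Finset.range (m + 1), mu g m l) = Cond g (2 * m + 1) := BB_eq g m
  rw [e] at h
  exact ⟨X, h.congr (fun y => cnP_eq g m y) ⟨0, fun s _ => (GP_eq g m s).symm⟩, hst⟩

theorem cnP_pos (g i : ℕ) (y : ℝ) : 0 < cnP g i y := by
  unfold cnP Cond
  positivity

/-- the result for `H^i(E^g)`, `i = 2m+1` -/
theorem main_pow {C : ℝ} {K : ℝ → ℝ} (H : ∀ (d : ℕ) (N : ℝ) (cn : ℝ → ℝ) (G X : ℂ → ℂ),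
    Pk d N cn G X → Res C K d N cn X) (hC : 0 < C) (g m : ℕ) (hm : m < g) :
    ∃ (Λ : ℂ → ℂ), Differentiable ℂ Λ ∧
    (∀ s : ℂ, (((2 * m + 1 : ℕ) : ℝ) - 1) / 2 < s.re →
      Λ s = (Cond g (2 * m + 1) : ℂ) ^ ((s - ((2 * m + 1 : ℕ) : ℂ) / 2) / 2) *
        GamF g (2 * m + 1) s * LL0 g m (s - ((2 * m + 1 : ℕ) : ℂ) / 2)) ∧
    (∀ s : ℂ, Λ (conj s) = conj (Λ s)) ∧
    (∃ r : ℕ, r ≤ 1 ∧ ∀ s : ℂ, Λ (((2 * m + 1 : ℕ) : ℂ) + 1 - s) = (-1) ^ r * Λ s) ∧
    (∀ (t : ℝ) (s : ℂ), 0 < t → C ≤ t * Real.log (cnP g (2 * m + 1) s.im) → heat t Λ s = 0 →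
      s.re = (((2 * m + 1 : ℕ) : ℝ) + 1) / 2) ∧
    (∀ t : ℝ, 0 < t → C ≤ t * (2 * g).choose (2 * m + 1) → ∀ s : ℂ, heat t Λ s = 0 →
      s.re = (((2 * m + 1 : ℕ) : ℝ) + 1) / 2) ∧
    ((∀ s : ℂ, Λ s = 0 → s.re = (((2 * m + 1 : ℕ) : ℝ) + 1) / 2) ↔
      ∀ t : ℝ, 0 < t → t * (2 * g).choose (2 * m + 1) < C → ∀ s : ℂ, heat t Λ s = 0 →
        s.re = (((2 * m + 1 : ℕ) : ℝ) + 1) / 2) ∧
    (∀ η : ℝ, 0 < η → ∀ (t : ℝ) (s : ℂ), 0 < t →
      K η * (2 * g).choose (2 * m + 1) ≤ Real.log (cnP g (2 * m + 1) s.im) →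
      1 + η ≤ t * Real.log (cnP g (2 * m + 1) s.im) → heat t Λ s = 0 →
      s.re = (((2 * m + 1 : ℕ) : ℝ) + 1) / 2) := by
  obtain ⟨Λ1, hpk, hst⟩ := pk_pow g m hm
  have hres := H _ _ _ _ _ hpk
  have hdiff := hpk.diff
  obtain ⟨w, hw, hfe⟩ := hpk.fe
  have hN1 := hpk.one_le_N
  have hle := hpk.le_cn
  have hlogN := Real.log_nonneg hN1
  obtain ⟨μ, L, u, ec, σ, hσ⟩ := hpk
  have hre1 : ∀ s : ℂ, Λ1 (conj s) = conj (Λ1 s) := by
    intro s
    have := congrFun hst (conj s)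
    unfold st at this
    rw [Complex.conj_conj] at this
    exact this.symm
  have hfe' : ∀ s : ℂ, Λ1 (1 - s) = w * Λ1 s := fun s => by
    rw [hfe s, hre1 s, Complex.conj_conj]
  have hwpm : w = 1 ∨ w = -1 := by
    have h1 : w * w = 1 := by
      obtain ⟨z, hz⟩ := u.nontriv
      have h2 := hfe' (1 - z)
      rw [sub_sub_cancel, hfe' z, ← mul_assoc] at h2
      exact (mul_left_injective₀ hz (by simpa using h2)).symm
    have h3 : (w - 1) * (w + 1) = 0 := by linear_combination h1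
    rcases mul_eq_zero.1 h3 with h | h
    · exact Or.inl (sub_eq_zero.1 h)
    · exact Or.inr (eq_neg_of_add_eq_zero_left h)
  have hb : (0 : ℝ) < ((2 * g).choose (2 * m + 1) : ℕ) := by
    exact_mod_cast Nat.choose_pos (by omega)
  have hb1 : (1 : ℝ) ≤ ((2 * g).choose (2 * m + 1) : ℕ) := by
    exact_mod_cast Nat.choose_pos (by omega)
  generalize hi : ((2 * m + 1 : ℕ) : ℂ) = c at *
  generalize hi' : ((2 * m + 1 : ℕ) : ℝ) = x at *
  have hcx : c = (x : ℂ) := by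
    rw [← hi, ← hi']
    push_cast
    rfl
  have hc2 : c / 2 = ((x / 2 : ℝ) : ℂ) := by rw [hcx]; push_cast; rfl
  have hre : ∀ s : ℂ, (s - c / 2).re = s.re - x / 2 := by
    intro s
    rw [hc2, Complex.sub_re, Complex.ofReal_re]
  have him : ∀ s : ℂ, (s - c / 2).im = s.im := by
    intro s
    rw [hc2, Complex.sub_im, Complex.ofReal_im, sub_zero]
  have hheat : ∀ (t : ℝ) (s : ℂ), heat t (fun z => Λ1 (z - c / 2)) s = heat t Λ1 (s - c / 2) := by
    intro t s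
    have := heat_shift t (-(c / 2)) Λ1 s
    simpa [sub_eq_add_neg] using this
  have hline : ∀ s : ℂ, (s - c / 2).re = 1 / 2 → s.re = (x + 1) / 2 := by
    intro s hs
    rw [hre] at hs
    linarith
  refine ⟨fun s => Λ1 (s - c / 2), hdiff.comp (by fun_prop), ?_, ?_, ?_, ?_, ?_, ?_, ?_⟩
  · intro s hs
    have h6 : Λ1 (s - c / 2) = HW.GP g m (s - c / 2) :=
      half_eqL (a := -(1 / 2)) (fun s _ => hdiff.analyticAt s) (fun s hs => GP_an g m hs) hσ _
        (by rw [hre]; linarith)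
    show Λ1 (s - c / 2) = _
    rw [h6]
    unfold HW.GP
    rw [BB_eq, ← GamF_eq, hi]
  · intro s
    show Λ1 (conj s - c / 2) = conj (Λ1 (s - c / 2))
    rw [← hre1, map_sub, hc2, Complex.conj_ofReal]
  · have h6 : ∀ s : ℂ, Λ1 (c + 1 - s - c / 2) = w * Λ1 (s - c / 2) := fun s => by
      rw [← hfe']
      congr 1
      ring
    rcases hwpm with h | h
    · exact ⟨0, by norm_num, fun s => by
        show Λ1 (c + 1 - s - c / 2) = (-1) ^ 0 * Λ1 (s - c / 2)
        rw [h6, h, pow_zero]⟩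
    · exact ⟨1, le_rfl, fun s => by
        show Λ1 (c + 1 - s - c / 2) = (-1) ^ 1 * Λ1 (s - c / 2)
        rw [h6, h, pow_one]⟩
  · intro t s ht hc hs
    rw [hheat] at hs
    refine hline s (hres.loc t _ ht ?_ hs)
    rw [him]
    have : t * Real.log (cnP g (2 * m + 1) s.im) ≤
        t * (((2 * g).choose (2 * m + 1) : ℕ) + Real.log (cnP g (2 * m + 1) s.im)) :=
      mul_le_mul_of_nonneg_left (by linarith) ht.le
    linarith
  · intro t ht hc s hs
    rw [hheat] at hs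
    refine hline s (hres.glob t ht ?_ _ hs)
    have : t * (((2 * g).choose (2 * m + 1) : ℕ) : ℝ) ≤
        t * (((2 * g).choose (2 * m + 1) : ℕ) + Real.log (Cond g (2 * m + 1))) :=
      mul_le_mul_of_nonneg_left (by linarith) ht.le
    linarith
  · have hrh := rh_iff u (T := C / (((2 * g).choose (2 * m + 1) : ℕ) : ℝ)) (by positivity)
    constructor
    · intro h t ht htC s hs
      rw [hheat] at hs
      refine hline s (hrh.1 (fun z hz => ?_) t ht ((lt_div_iff₀ hb).2 htC) _ hs)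
      have := h (z + c / 2) (by
        show Λ1 (z + c / 2 - c / 2) = 0
        rw [add_sub_cancel_right]
        exact hz)
      rw [hc2, Complex.add_re, Complex.ofReal_re] at this
      linarith
    · intro h s hs
      refine hline s (hrh.2 (fun t ht htC z hz => ?_) _ hs)
      have := h t ht ((lt_div_iff₀ hb).1 htC) (z + c / 2) (by
        rw [hheat, add_sub_cancel_right]
        exact hz)
      rw [hc2, Complex.add_re, Complex.ofReal_re] at this
      linarith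
  · intro η hη t s ht h1 h2 hs
    rw [hheat] at hs
    exact hline s (hres.locS η hη t _ ht (by rw [him]; exact h1) (by rw [him]; exact h2) hs)

end Pool.Agent.W355.UN
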