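import Pool.Agent.W355.UN.Scale
import Pool.Agent.W169.HF.Asm

/-!
# The profile of an L-function at scale `S`, and zeros of the heat flow
-/

set_option autoImplicit false

open Complex MeasureTheory Filter Topology Set
open scoped ComplexConjugate

namespace Pool.Agent.W355.UN

open Pool.Agent.W169.HF H353.E

variable {m : ℕ} {B : ℝ → ℝ} {N θ : ℝ} {μ : Fin m → ℂ} {X L : ℂ → ℂ}

/-- the slope at scale `S` and height `y` -/
noncomputable def ell (N : ℝ) (μ : Fin m → ℂ) (y S : ℝ) : ℝ :=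
  (gaD N μ (1 / 2 + 2 * S + y * I)).re

lemma norm_sub_two (u : ℂ) : ‖u - 2‖ ≤ ‖u‖ + 2 := by
  refine (norm_sub_le _ _).trans ?_
  simp

theorem UL.up (h : UL m B N θ μ X L) {S ϑ0 ρ y : ℝ} (hS : 1 ≤ S) (hϑ : 1 / 2 ≤ ϑ0) (hϑ2 : ϑ0 ≤ 2)
    (hρ : 0 < ρ) (hρ1 : ρ ≤ 1) (hreg : 1 + θ + ρ ≤ 1 / 2 + S * ϑ0) :
    ∃ G : ℝ, UP (9 * (m * S * (111 + 3 * (B ρ)))) ϑ0 (S * ell N μ y S) G
      (fun u : ℂ => X (1 / 2 + y * I + S * u)) := by
  have hS0 : 0 < S := by linarith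
  have hm : (1 : ℝ) ≤ m := by exact_mod_cast h.hm
  have hBρ : 0 ≤ B ρ := h.hB ρ
  have hθ := h.hθ
  have gp := h.gp
  obtain ⟨s0, hs0⟩ : ∃ s0 : ℂ, s0 = 1 / 2 + 2 * S + y * I := ⟨_, rfl⟩
  obtain ⟨ℓ, hℓ⟩ : ∃ ℓ : ℝ, ℓ = ell N μ y S := ⟨_, rfl⟩
  obtain ⟨K1, hK1⟩ : ∃ K1 : ℝ, K1 = m * S * (111 + 3 * (B ρ)) := ⟨_, rfl⟩
  have hK10 : 0 < K1 := by rw [hK1]; positivity
  have hs0re : s0.re = 1 / 2 + 2 * S := by rw [hs0]; simp
  have hs01 : (S + 1) / 2 ≤ s0.re := by rw [hs0re]; linarith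
  -- points
  have hpt : ∀ u : ℂ, (1 / 2 + y * I + S * u : ℂ) = s0 + S * (u - 2) := by
    intro u; rw [hs0]; ring
  have hptre : ∀ u : ℂ, (1 / 2 + y * I + S * u : ℂ).re = 1 / 2 + S * u.re := by
    intro u; simp
  -- the logarithmic derivative on the segment
  have hdist : ∀ w : ℂ, 1 + θ + ρ ≤ (s0 + w).re → (S + 1) / 2 ≤ (s0 + w).re →
      ‖logDeriv X (s0 + w) - ℓ‖ ≤ m * (12 / S * ‖w‖ + 6 + B ρ) := by
    intro w hw1 hw2
    rw [h.logD (by linarith)]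
    have h1 : ‖gaD N μ (s0 + w) - gaD N μ s0‖ ≤ m * (12 / S * ‖w‖) := by
      have h2 := gp.lipD (ρ := (S + 1) / 2) (by linarith) hw2 hs01
      rw [add_sub_cancel_left] at h2
      refine h2.trans ?_
      have h3 : 6 * (m : ℝ) / ((S + 1) / 2) ≤ m * (12 / S) := by
        rw [div_le_iff₀ (by linarith)]
        have e : m * (12 / S) * ((S + 1) / 2) = 6 * m + 6 * m / S := by
          field_simp
          ring
        rw [e]
        have : 0 ≤ 6 * (m : ℝ) / S := by positivity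
        linarith
      calc 6 * (m : ℝ) / ((S + 1) / 2) * ‖w‖ ≤ m * (12 / S) * ‖w‖ := by gcongr
        _ = _ := by ring
    have h2 : ‖gaD N μ s0 - ℓ‖ ≤ m * 6 := by
      have e3 : gaD N μ s0 - ℓ = ((gaD N μ s0).im : ℂ) * I := by
        rw [hℓ, ell, ← hs0]
        apply Complex.ext <;> simp
      rw [e3, norm_mul, Complex.norm_I, mul_one, Complex.norm_real, Real.norm_eq_abs]
      have := gp.im s0 (by linarith)
      linarith
    have h3 := h.bd ρ hρ hρ1 (s0 + w) hw1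
    have e : gaD N μ (s0 + w) + logDeriv L (s0 + w) - ℓ =
        (gaD N μ (s0 + w) - gaD N μ s0) + (gaD N μ s0 - ℓ) + logDeriv L (s0 + w) := by ring
    rw [e]
    refine (norm_add₃_le).trans ?_
    have e2 : m * (12 / S * ‖w‖ + 6 + B ρ) = m * (12 / S * ‖w‖) + m * 6 + m * B ρ := by ring
    rw [e2]
    linarith
  have hseg : ∀ u : ℂ, ϑ0 ≤ u.re → ∀ τ ∈ Icc (0 : ℝ) 1,
      1 + θ + ρ ≤ (s0 + τ * (S * (u - 2))).re ∧ (S + 1) / 2 ≤ (s0 + τ * (S * (u - 2))).re := by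
    intro u hu τ hτ
    have e : (s0 + τ * (S * (u - 2))).re = 1 / 2 + S * (2 * (1 - τ) + τ * u.re) := by
      rw [add_re, hs0re, Complex.re_ofReal_mul, Complex.re_ofReal_mul]
      simp
      ring
    have h1 : ϑ0 ≤ 2 * (1 - τ) + τ * u.re := by
      nlinarith [hτ.1, hτ.2, mul_nonneg hτ.1 (sub_nonneg.2 hu),
        mul_nonneg (sub_nonneg.2 hτ.2) (sub_nonneg.2 hϑ2)]
    have h2 : S * ϑ0 ≤ S * (2 * (1 - τ) + τ * u.re) := mul_le_mul_of_nonneg_left h1 hS0.le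
    rw [e]
    constructor
    · linarith
    · nlinarith
  have hKv : ∀ u : ℂ, ∀ τ ∈ Icc (0 : ℝ) 1,
      m * (12 / S * ‖(τ : ℂ) * (S * (u - 2))‖ + 6 + B ρ) ≤ m * (12 * ‖u - 2‖ + 6 + B ρ) := by
    intro u τ hτ
    have : 12 / S * ‖(τ : ℂ) * (S * (u - 2))‖ ≤ 12 * ‖u - 2‖ := by
      rw [norm_mul, norm_mul, Complex.norm_real, Complex.norm_real, Real.norm_eq_abs,
        Real.norm_eq_abs, abs_of_pos hS0, abs_of_nonneg hτ.1]
      have e : 12 / S * (τ * (S * ‖u - 2‖)) = τ * (12 * ‖u - 2‖) := by field_simp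
      rw [e]
      have : 0 ≤ 12 * ‖u - 2‖ := by positivity
      nlinarith [hτ.2]
    gcongr
  have hquad : ∀ u : ℂ, m * (12 * ‖u - 2‖ + 6 + B ρ) * (S * ‖u - 2‖) ≤ K1 * (1 + ‖u‖ ^ 2) := by
    intro u
    have h1 := norm_sub_two u
    have h2 := norm_nonneg (u - 2)
    have h3 := norm_nonneg u
    have h4 : (12 * ‖u - 2‖ + 6 + B ρ) * ‖u - 2‖ ≤ (111 + 3 * (B ρ)) * (1 + ‖u‖ ^ 2) := by
      have h5 : (12 * ‖u - 2‖ + 6 + B ρ) * ‖u - 2‖ ≤
          (12 * (‖u‖ + 2) + 6 + B ρ) * (‖u‖ + 2) := by gcongr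
      have h6 : B ρ * (‖u‖ + 2) ≤ B ρ * (3 * (1 + ‖u‖ ^ 2)) := by
        apply mul_le_mul_of_nonneg_left _ hBρ
        nlinarith [sq_nonneg (‖u‖ - 1)]
      nlinarith [sq_nonneg (‖u‖ - 1)]
    calc m * (12 * ‖u - 2‖ + 6 + B ρ) * (S * ‖u - 2‖) =
          m * S * ((12 * ‖u - 2‖ + 6 + B ρ) * ‖u - 2‖) := by ring
      _ ≤ m * S * ((111 + 3 * (B ρ)) * (1 + ‖u‖ ^ 2)) := by gcongr
      _ = K1 * (1 + ‖u‖ ^ 2) := by rw [hK1]; ring
  obtain ⟨G, hG⟩ : ∃ G : ℝ, G = ‖X s0‖ * Real.exp (-(2 * (S * ℓ))) := ⟨_, rfl⟩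
  have hXs0 : X s0 ≠ 0 := h.Xne (by
    have := (hseg 2 (by simpa using hϑ2) 0 (by simp)).1
    simp at this
    linarith)
  have hGpos : 0 < G := by
    rw [hG]
    have := norm_pos_iff.2 hXs0
    positivity
  have hGX : ‖X s0‖ = G * Real.exp (2 * (S * ℓ)) := by
    rw [hG, mul_assoc, ← Real.exp_add]; simp
  -- upper and lower bounds to the right
  have hvre : ∀ u : ℂ, (S * (u - 2) : ℂ).re = S * (u.re - 2) := by
    intro u
    rw [Complex.re_ofReal_mul]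
    simp
  have hvn : ∀ u : ℂ, ‖(S * (u - 2) : ℂ)‖ = S * ‖u - 2‖ := by
    intro u
    rw [norm_mul, Complex.norm_real, Real.norm_eq_abs, abs_of_pos hS0]
  have hup0 : ∀ u : ℂ, ϑ0 ≤ u.re → ‖X (1 / 2 + y * I + S * u)‖ ≤
      G * Real.exp (S * ℓ * u.re + K1 * (1 + ‖u‖ ^ 2)) := by
    intro u hu
    rw [hpt]
    have h1 := seg (F := X) (s := s0) (v := S * (u - 2)) (ℓ := ℓ)
      (K := m * (12 * ‖u - 2‖ + 6 + B ρ)) (fun τ _ => h.slow.1 _)
      (fun τ hτ => h.Xne (by linarith [(hseg u hu τ hτ).1]))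
      (fun τ hτ => (hdist _ (hseg u hu τ hτ).1 (hseg u hu τ hτ).2).trans (hKv u τ hτ))
    rw [hvre, hvn, hGX, mul_assoc, ← Real.exp_add] at h1
    refine h1.trans ?_
    apply mul_le_mul_of_nonneg_left _ hGpos.le
    apply Real.exp_le_exp.2
    have := hquad u
    linarith
  have hlo0 : ∀ u : ℂ, ϑ0 ≤ u.re → G * Real.exp (S * ℓ * u.re - K1 * (1 + ‖u‖ ^ 2)) ≤
      ‖X (1 / 2 + y * I + S * u)‖ := by
    intro u hu
    rw [hpt]
    have hback : ∀ τ ∈ Icc (0 : ℝ) 1, s0 + S * (u - 2) + τ * (-(S * (u - 2))) =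
        s0 + ((1 - τ : ℝ) : ℂ) * (S * (u - 2)) := by
      intro τ _
      push_cast; ring
    have hmem : ∀ τ ∈ Icc (0 : ℝ) 1, (1 - τ) ∈ Icc (0 : ℝ) 1 := fun τ hτ =>
      ⟨by linarith [hτ.2], by linarith [hτ.1]⟩
    have h1 := seg (F := X) (s := s0 + S * (u - 2)) (v := -(S * (u - 2))) (ℓ := ℓ)
      (K := m * (12 * ‖u - 2‖ + 6 + B ρ)) (fun τ _ => h.slow.1 _)
      (fun τ hτ => by
        rw [hback τ hτ]
        exact h.Xne (by linarith [(hseg u hu _ (hmem τ hτ)).1]))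
      (fun τ hτ => by
        rw [hback τ hτ]
        exact (hdist _ (hseg u hu _ (hmem τ hτ)).1 (hseg u hu _ (hmem τ hτ)).2).trans
          (hKv u _ (hmem τ hτ)))
    rw [add_neg_cancel_right, norm_neg, neg_re, hvre, hvn, hGX] at h1
    have h2 := hquad u
    calc G * Real.exp (S * ℓ * u.re - K1 * (1 + ‖u‖ ^ 2))
        = G * Real.exp (2 * (S * ℓ)) * Real.exp (S * ℓ * (u.re - 2) - K1 * (1 + ‖u‖ ^ 2)) := by
          rw [mul_assoc G, ← Real.exp_add]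
          congr 2
          ring
      _ ≤ ‖X (s0 + S * (u - 2))‖ * Real.exp (ℓ * -(S * (u.re - 2)) +
            m * (12 * ‖u - 2‖ + 6 + B ρ) * (S * ‖u - 2‖)) *
            Real.exp (S * ℓ * (u.re - 2) - K1 * (1 + ‖u‖ ^ 2)) := by gcongr
      _ = ‖X (s0 + S * (u - 2))‖ * Real.exp (m * (12 * ‖u - 2‖ + 6 + B ρ) * (S * ‖u - 2‖) -
            K1 * (1 + ‖u‖ ^ 2)) := by
          rw [mul_assoc, ← Real.exp_add]
          congr 2
          ring
      _ ≤ ‖X (s0 + S * (u - 2))‖ * 1 := by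
          apply mul_le_mul_of_nonneg_left _ (norm_nonneg _)
          apply Real.exp_le_one_iff.2
          linarith
      _ = _ := mul_one _
  -- functional equation
  obtain ⟨ε, hε, hfe⟩ := h.fe
  have hfe' : ∀ u : ℂ, X (1 / 2 + y * I + S * u) = ε * conj (X (1 / 2 + y * I + S * (-conj u))) := by
    intro u
    rw [hfe]
    congr 3
    simp only [map_add, map_mul, map_div₀, map_one, map_ofNat, conj_ofReal, conj_I]
    ring
  have hfn : ∀ u : ℂ, ‖X (1 / 2 + y * I + S * u)‖ = ‖X (1 / 2 + y * I + S * (-conj u))‖ := by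
    intro u
    rw [hfe' u, norm_mul, hε, one_mul, Complex.norm_conj]
  have hslow : Slow (fun u : ℂ => X (1 / 2 + y * I + S * u)) := slow_affine h.slow _ hS0
  have hneg : ∀ u : ℂ, (-conj u).re = -u.re ∧ ‖-conj u‖ = ‖u‖ := by
    intro u
    constructor
    · simp
    · rw [norm_neg, Complex.norm_conj]
  have hedge : ∀ u : ℂ, |u.re| = ϑ0 → ‖X (1 / 2 + y * I + S * u)‖ ≤
      G * Real.exp (S * ℓ * ϑ0) * Real.exp (K1 * (1 + ‖u‖ ^ 2)) := by
    intro u hu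
    rw [mul_assoc, ← Real.exp_add]
    rcases le_total 0 u.re with h1 | h1
    · rw [abs_of_nonneg h1] at hu
      have := hup0 u hu.ge
      rwa [hu] at this
    · rw [abs_of_nonpos h1] at hu
      have h2 := hup0 (-conj u) (by rw [(hneg u).1, hu])
      rw [(hneg u).1, (hneg u).2, ← hfn, hu] at h2
      exact h2
  refine ⟨G, { slow := hslow, fe := ⟨ε, hε, hfe'⟩, hG := hGpos, up := fun u => ?_, lo := fun u hu => ?_, der := fun u hu => ?_ }⟩
  · rw [← hℓ, ← hK1]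
    show ‖X (1 / 2 + y * I + S * u)‖ ≤ _
    have h9 : K1 * (1 + ‖u‖ ^ 2) ≤ 9 * K1 * (1 + ‖u‖ ^ 2) := by
      have : 0 ≤ K1 * (1 + ‖u‖ ^ 2) := by positivity
      linarith
    rcases le_or_gt |u.re| ϑ0 with hc | hc
    · have h1 := strip hslow hK10 (by linarith) hedge hc
      refine h1.trans ?_
      rw [mul_assoc, ← Real.exp_add, max_eq_right hc]
      apply mul_le_mul_of_nonneg_left _ hGpos.le
      apply Real.exp_le_exp.2
      have : K1 * (1 + 2 * ϑ0 ^ 2 + ‖u‖ ^ 2) ≤ 9 * K1 * (1 + ‖u‖ ^ 2) := by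
        have h2 : 1 + 2 * ϑ0 ^ 2 + ‖u‖ ^ 2 ≤ 9 * (1 + ‖u‖ ^ 2) := by nlinarith [sq_nonneg ‖u‖]
        calc K1 * (1 + 2 * ϑ0 ^ 2 + ‖u‖ ^ 2) ≤ K1 * (9 * (1 + ‖u‖ ^ 2)) := by gcongr
          _ = _ := by ring
      linarith
    · rw [max_eq_left hc.le]
      rcases le_total 0 u.re with h1 | h1
      · rw [abs_of_nonneg h1] at hc ⊢
        refine (hup0 u hc.le).trans ?_
        apply mul_le_mul_of_nonneg_left _ hGpos.le
        apply Real.exp_le_exp.2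
        linarith
      · rw [abs_of_nonpos h1] at hc ⊢
        rw [hfn]
        have h2 := hup0 (-conj u) (by rw [(hneg u).1]; exact hc.le)
        rw [(hneg u).1, (hneg u).2] at h2
        refine h2.trans ?_
        apply mul_le_mul_of_nonneg_left _ hGpos.le
        apply Real.exp_le_exp.2
        linarith
  · rw [← hℓ, ← hK1]
    refine le_trans ?_ (hlo0 u hu)
    apply mul_le_mul_of_nonneg_left _ hGpos.le
    apply Real.exp_le_exp.2
    have : 0 ≤ K1 * (1 + ‖u‖ ^ 2) := by positivity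
    linarith
  · rw [← hℓ, ← hK1]
    have h1 : logDeriv (fun u : ℂ => X (1 / 2 + y * I + S * u)) u =
        S * logDeriv X (1 / 2 + y * I + S * u) := by
      have h2 : HasDerivAt (fun u : ℂ => (1 / 2 + y * I + S * u : ℂ)) (S : ℂ) u := by
        simpa using ((hasDerivAt_id u).const_mul (S : ℂ)).const_add (1 / 2 + y * I : ℂ)
      have h3 := HasDerivAt.comp u (h.slow.1 (1 / 2 + y * I + S * u)).hasDerivAt h2
      have h4 : deriv (fun u : ℂ => X (1 / 2 + y * I + S * u)) u =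
          deriv X (1 / 2 + y * I + S * u) * S := h3.deriv
      rw [logDeriv_apply, logDeriv_apply, h4]
      ring
    rw [h1, hpt]
    push_cast
    have e : (S : ℂ) * logDeriv X (s0 + S * (u - 2)) - S * ℓ =
        S * (logDeriv X (s0 + S * (u - 2)) - ℓ) := by ring
    rw [e, norm_mul, Complex.norm_real, Real.norm_eq_abs, abs_of_pos hS0]
    have h5 := hseg u hu 1 (by simp)
    have h6 := hKv u 1 (by simp)
    rw [ofReal_one, one_mul] at h5 h6
    have h7 := (hdist _ h5.1 h5.2).trans h6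
    have h8 := norm_sub_two u
    have h9 := norm_nonneg u
    have h10 : 12 * ‖u - 2‖ + 6 + B ρ ≤ (111 + 3 * (B ρ)) * (1 + ‖u‖ ^ 2) := by
      nlinarith [sq_nonneg (‖u‖ - 1), mul_nonneg hBρ (sq_nonneg ‖u‖)]
    calc S * ‖logDeriv X (s0 + S * (u - 2)) - ℓ‖ ≤ S * (m * (12 * ‖u - 2‖ + 6 + B ρ)) := by gcongr
      _ ≤ S * (m * ((111 + 3 * (B ρ)) * (1 + ‖u‖ ^ 2))) := by gcongr
      _ = K1 * (1 + ‖u‖ ^ 2) := by rw [hK1]; ring
      _ ≤ 9 * K1 * (1 + ‖u‖ ^ 2) := by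
          have : 0 ≤ K1 * (1 + ‖u‖ ^ 2) := by positivity
          linarith

/-- the heat flow and scaling -/
lemma heat_scale {X : ℂ → ℂ} (c : ℂ) {S t : ℝ} (hS : 0 < S) (x : ℂ) :
    heat (t / S ^ 2) (fun u : ℂ => X (c + S * u)) x = heat t X (c + S * x) := by
  have h1 : Real.sqrt (t / S ^ 2) = Real.sqrt t / S := by
    rw [Real.sqrt_div' t (by positivity), Real.sqrt_sq hS.le]
  unfold heat
  rw [h1]
  congr 1
  refine integral_congr_ae (Eventually.of_forall fun v => ?_)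
  simp only
  congr 2
  have : (S : ℂ) ≠ 0 := by exact_mod_cast hS.ne'
  push_cast
  field_simp
  ring

end Pool.Agent.W355.UN
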