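import Mathlib

/-!
# Project UN: statements of the parts
-/

set_option autoImplicit false

open Complex Filter Topology
open scoped ComplexConjugate

namespace Pool.Agent.W355.UN

/-- the convolution identity `b log = (Λ c) * b`, i.e. `-L'/L = ∑ Λ(n) c(n) n^(-s)` for
`L = ∑ b(n) n^(-s)` -/
def Conv (b c : ℕ → ℂ) : Prop :=
  ∀ n : ℕ, n ≠ 0 → b n * ((Real.log n : ℝ) : ℂ) =
    ∑ d ∈ n.divisors, ((ArithmeticFunction.vonMangoldt d : ℝ) : ℂ) * c d * b (n / d)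

/-- COEF -/
def S_COEF : Prop := ∀ (m : ℕ) (b c : ℕ → ℂ), b 1 = 1 → (∀ n, ‖c n‖ ≤ m) → Conv b c →
  ∀ s : ℂ, 1 < s.re → LSeriesSummable b s ∧ LSeries b s ≠ 0 ∧
    logDeriv (LSeries b) s =
      -LSeries (fun n => ((ArithmeticFunction.vonMangoldt n : ℝ) : ℂ) * c n) s

/-- SLOW -/
def S_SLOW : Prop := ∀ F : ℂ → ℂ, Differentiable ℂ F →
  (∃ A ρ : ℝ, ∀ s : ℂ, ‖F s‖ ≤ Real.exp (A * (1 + ‖s‖) ^ ρ)) →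
  (∃ ε : ℂ, ‖ε‖ = 1 ∧ ∀ s : ℂ, F s = ε * conj (F (1 - conj s))) →
  (∀ δ : ℝ, 0 < δ → ∃ K : ℝ, 0 < K ∧ ∀ s : ℂ, 2 ≤ s.re → ‖F s‖ ≤ K * Real.exp (δ * ‖s‖ ^ 2)) →
  ∀ δ : ℝ, 0 < δ → ∃ K : ℝ, 0 < K ∧ ∀ s : ℂ, ‖F s‖ ≤ K * Real.exp (δ * ‖s‖ ^ 2)

/-- GAM -/
def S_GAM : Prop := ∀ a : ℂ, -1 / 2 ≤ a.re → ∀ δ : ℝ, 0 < δ → ∃ K : ℝ, 0 < K ∧
  ∀ s : ℂ, 2 ≤ s.re → ‖Gammaℝ (s + a)‖ ≤ K * Real.exp (δ * ‖s‖ ^ 2)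

/-- COND: the conductor-discriminant formula gives `log |disc K| ≥ [K : ℚ] / 2 · log (conductor of K)`
for abelian `K` (`G` the group of characters of `K`) -/
def S_COND : Prop := ∀ (M : ℕ) [NeZero M] (G : Subgroup (DirichletCharacter ℂ M)) [Fintype G],
  (Fintype.card G : ℝ) / 2 *
      Real.log ((Finset.univ.lcm fun χ : G => (χ : DirichletCharacter ℂ M).conductor : ℕ) : ℝ) ≤
    ∑ χ : G, Real.log ((χ : DirichletCharacter ℂ M).conductor : ℝ)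

/-- CS: `c(p^j) = α^j + β^j` is bounded by `2` when `λ(p) = α + β`, `|λ(p)| ≤ 2` (`p ∤ N`),
`|λ(p)| ≤ 1` (`p ∣ N`); `c` is the function `cS N lam` of `W388` -/
def S_CS : Prop := ∀ (N : ℕ) (lam : ℕ → ℝ), lam 1 = 1 →
  (∀ p j : ℕ, p.Prime →
    lam (p ^ (j + 2)) = lam p * lam (p ^ (j + 1)) - (if p ∣ N then 0 else lam (p ^ j))) →
  (∀ p : ℕ, p.Prime → ¬ p ∣ N → |lam p| ≤ 2) → (∀ p : ℕ, p.Prime → p ∣ N → |lam p| ≤ 1) →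
  ∀ p j : ℕ, p.Prime →
    |lam (p ^ (j + 1)) - (if p ^ 2 ∣ p ^ (j + 1) ∧ ¬ p ∣ N then lam (p ^ (j + 1) / p ^ 2) else 0)| ≤ 2

end Pool.Agent.W355.UN
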