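import Pool.Agent.W355.UN.Glob
import Pool.Agent.W355.UN.Stm

/-!
# L-functions with an Euler product
-/

set_option autoImplicit false

open Complex MeasureTheory Filter Topology Set
open scoped ComplexConjugate

namespace Pool.Agent.W355.UN

open Pool.Agent.W169.HF H353.E

/-- a completed L-function of degree `m`, with `r` poles at `s = 1`, given by an Euler product: `b` are
the coefficients, `c` the traces of Frobenius, `|c| ≤ m` -/
structure Raw (m r : ℕ) (N : ℝ) (a : Fin m → ℂ) (b c : ℕ → ℂ) (X : ℂ → ℂ) : Prop where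
  hm : 1 ≤ m
  hr : r ≤ m
  hN : 1 ≤ N
  re_ge : ∀ j, -1 / 2 ≤ (a j).re
  entire : Differentiable ℂ X
  order : ∃ A ρ : ℝ, ∀ s : ℂ, ‖X s‖ ≤ Real.exp (A * (1 + ‖s‖) ^ ρ)
  fe : ∃ ε : ℂ, ‖ε‖ = 1 ∧ ∀ s : ℂ, X s = ε * conj (X (1 - conj s))
  one : b 1 = 1
  cb : ∀ n, ‖c n‖ ≤ m
  conv : Conv b c
  eq : ∃ σ : ℝ, ∀ s : ℂ, σ ≤ s.re → X s = (s * (s - 1)) ^ r *
    ((N : ℂ) ^ (s / 2) * ∏ j, Gammaℝ (s + a j)) * LSeries b s

/-- the bound for `|ζ'/ζ|` -/
noncomputable def Bst (ρ : ℝ) : ℝ :=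
  |2 / ρ| + ∑' n : ℕ, ‖LSeries.term (fun n => ((ArithmeticFunction.vonMangoldt n : ℝ) : ℂ)) (1 + ρ) n‖

lemma Bst_nonneg (ρ : ℝ) : 0 ≤ Bst ρ :=
  add_nonneg (abs_nonneg _) (tsum_nonneg fun _ => norm_nonneg _)

variable {m r : ℕ} {N : ℝ} {a : Fin m → ℂ} {b c : ℕ → ℂ} {X : ℂ → ℂ}

lemma lc_bound {m : ℕ} {c : ℕ → ℂ} (hc : ∀ n, ‖c n‖ ≤ m) {ρ : ℝ} (hρ : 0 < ρ) {s : ℂ}
    (hs : 1 + ρ ≤ s.re) :
    ‖LSeries (fun n => ((ArithmeticFunction.vonMangoldt n : ℝ) : ℂ) * c n) s‖ ≤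
      m * ∑' n : ℕ, ‖LSeries.term (fun n => ((ArithmeticFunction.vonMangoldt n : ℝ) : ℂ)) (1 + ρ) n‖ := by
  have hsum : Summable fun n : ℕ =>
      ‖LSeries.term (fun n => ((ArithmeticFunction.vonMangoldt n : ℝ) : ℂ)) (1 + ρ) n‖ := by
    have := ArithmeticFunction.LSeriesSummable_vonMangoldt (s := 1 + ρ) (by simpa using hρ)
    exact this.norm
  have hle : ∀ n : ℕ, ‖LSeries.term (fun n => ((ArithmeticFunction.vonMangoldt n : ℝ) : ℂ) * c n) s n‖ ≤
      m * ‖LSeries.term (fun n => ((ArithmeticFunction.vonMangoldt n : ℝ) : ℂ)) (1 + ρ) n‖ := by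
    intro n
    rcases Nat.eq_zero_or_pos n with rfl | hn
    · simp
    · have hn1 : (1 : ℝ) ≤ n := by exact_mod_cast hn
      have hn0 : (0 : ℝ) < n := by linarith
      rw [LSeries.norm_term_eq, LSeries.norm_term_eq, if_neg hn.ne', if_neg hn.ne', norm_mul]
      have h1 : (n : ℝ) ^ (1 + (ρ : ℂ)).re ≤ (n : ℝ) ^ s.re := by
        apply Real.rpow_le_rpow_of_exponent_le hn1
        simpa using hs
      have h2 : 0 < (n : ℝ) ^ (1 + (ρ : ℂ)).re := Real.rpow_pos_of_pos hn0 _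
      rw [mul_div_assoc', mul_comm (m : ℝ)]
      gcongr
      exact hc n
  have h3 : Summable fun n : ℕ =>
      ‖LSeries.term (fun n => ((ArithmeticFunction.vonMangoldt n : ℝ) : ℂ) * c n) s n‖ :=
    Summable.of_nonneg_of_le (fun _ => norm_nonneg _) hle (hsum.mul_left _)
  unfold LSeries
  refine (norm_tsum_le_tsum_norm h3).trans ?_
  rw [← tsum_mul_left]
  exact h3.tsum_le_tsum hle (hsum.mul_left _)

lemma Raw.summ (hC : S_COEF) (h : Raw m r N a b c X) {s : ℂ} (hs : 1 < s.re) :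
    LSeriesSummable b s := (hC m b c h.one h.cb h.conv s hs).1

lemma absc_le (hC : S_COEF) (h : Raw m r N a b c X) : LSeries.abscissaOfAbsConv b ≤ 1 := by
  refine LSeries.abscissaOfAbsConv_le_of_forall_lt_LSeriesSummable' fun y hy => ?_
  refine h.summ hC ?_
  rw [Complex.ofReal_re]
  exact_mod_cast hy

lemma lser_an (hC : S_COEF) (h : Raw m r N a b c X) {s : ℂ} (hs : 1 < s.re) :
    DifferentiableAt ℂ (LSeries b) s := by
  refine (LSeries_analyticOnNhd b s ?_).differentiableAt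
  refine lt_of_le_of_lt (absc_le hC h) ?_
  exact_mod_cast hs

lemma gaf_eq (N : ℝ) (a : Fin m → ℂ) (s : ℂ) :
    gaf N (fun j => -a j) s = (N : ℂ) ^ (s / 2) * ∏ j, Gammaℝ (s + a j) := by
  unfold gaf
  simp only [sub_neg_eq_add]

lemma Raw.re_le (h : Raw m r N a b c X) (j : Fin m) : ((fun j => -a j) j).re ≤ 1 / 2 := by
  have := h.re_ge j
  simp only [neg_re]
  linarith

lemma isPre : IsPreconnected {s : ℂ | 1 < s.re} :=
  (convex_halfSpace_re_gt 1).isPreconnected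

/-- the formula for `X` holds for `Re s > 1` -/
lemma Raw.eq' (hC : S_COEF) (h : Raw m r N a b c X) {s : ℂ} (hs : 1 < s.re) :
    X s = gaf N (fun j => -a j) s * ((s * (s - 1)) ^ r * LSeries b s) := by
  have hgp := gaf_GP h.hm h.hN h.re_le
  obtain ⟨σ, hσ⟩ := h.eq
  have h1 : AnalyticOnNhd ℂ X {s : ℂ | 1 < s.re} := fun z _ => h.entire.analyticAt z
  have hopen : IsOpen {s : ℂ | 1 < s.re} := isOpen_lt continuous_const Complex.continuous_re
  have h2 : AnalyticOnNhd ℂ (fun s => gaf N (fun j => -a j) s * ((s * (s - 1)) ^ r * LSeries b s))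
      {s : ℂ | 1 < s.re} := by
    refine DifferentiableOn.analyticOnNhd (fun z hz => ?_) hopen
    have hz' : 1 < z.re := hz
    have e1 := (hgp.der z hz'.le).differentiableAt
    have e2 := lser_an hC h hz'
    exact (e1.mul ((by fun_prop : DifferentiableAt ℂ (fun s : ℂ => (s * (s - 1)) ^ r) z).mul
      e2)).differentiableWithinAt
  have hz0 : ((max σ 2 + 1 : ℝ) : ℂ) ∈ {s : ℂ | 1 < s.re} := by
    have := le_max_right σ 2
    show 1 < (((max σ 2 + 1 : ℝ) : ℂ)).re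
    rw [Complex.ofReal_re]
    linarith
  refine h1.eqOn_of_preconnected_of_eventuallyEq h2 isPre hz0 ?_ hs
  have h3 : ∀ᶠ z : ℂ in 𝓝 ((max σ 2 + 1 : ℝ) : ℂ), σ < z.re := by
    have := le_max_left σ 2
    exact (Complex.continuous_re.tendsto _).eventually (lt_mem_nhds (by
      rw [Complex.ofReal_re]
      linarith))
  filter_upwards [h3] with z hz
  rw [hσ z hz.le, gaf_eq]
  ring

lemma exp_small (A k : ℝ) {δ : ℝ} (hδ : 0 < δ) :
    ∃ K : ℝ, 0 < K ∧ ∀ x : ℝ, 0 ≤ x → Real.exp (A + k * x) ≤ K * Real.exp (δ * x ^ 2) := by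
  refine ⟨Real.exp (A + k ^ 2 / (4 * δ)), Real.exp_pos _, fun x hx => ?_⟩
  rw [← Real.exp_add]
  apply Real.exp_le_exp.2
  have h : k * x ≤ k ^ 2 / (4 * δ) + δ * x ^ 2 := by
    have h1 : 0 ≤ δ * (x - k / (2 * δ)) ^ 2 := by positivity
    have h2 : δ * (x - k / (2 * δ)) ^ 2 = δ * x ^ 2 - k * x + k ^ 2 / (4 * δ) := by
      field_simp
      ring
    linarith
  linarith

/-- products of functions of slow growth on the half-plane `Re s ≥ 2` -/
def SlowR (F : ℂ → ℂ) : Prop :=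
  ∀ δ : ℝ, 0 < δ → ∃ K : ℝ, 0 < K ∧ ∀ s : ℂ, 2 ≤ s.re → ‖F s‖ ≤ K * Real.exp (δ * ‖s‖ ^ 2)

lemma SlowR.mul {F G : ℂ → ℂ} (hF : SlowR F) (hG : SlowR G) : SlowR fun s => F s * G s := by
  intro δ hδ
  obtain ⟨K1, h1, H1⟩ := hF (δ / 2) (by linarith)
  obtain ⟨K2, h2, H2⟩ := hG (δ / 2) (by linarith)
  refine ⟨K1 * K2, by positivity, fun s hs => ?_⟩
  rw [norm_mul]
  have e : δ * ‖s‖ ^ 2 = δ / 2 * ‖s‖ ^ 2 + δ / 2 * ‖s‖ ^ 2 := by ring
  rw [e, Real.exp_add]
  calc ‖F s‖ * ‖G s‖ ≤ (K1 * Real.exp (δ / 2 * ‖s‖ ^ 2)) * (K2 * Real.exp (δ / 2 * ‖s‖ ^ 2)) :=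
        mul_le_mul (H1 s hs) (H2 s hs) (norm_nonneg _) (by positivity)
    _ = _ := by ring

lemma SlowR.of_exp {F : ℂ → ℂ} {A k : ℝ} (h : ∀ s : ℂ, 2 ≤ s.re → ‖F s‖ ≤ Real.exp (A + k * ‖s‖)) : SlowR F := by
  intro δ hδ
  obtain ⟨K, hK, H⟩ := exp_small A k hδ
  exact ⟨K, hK, fun s hs => (h s hs).trans (H _ (norm_nonneg _))⟩

lemma SlowR.pow {F : ℂ → ℂ} (hF : SlowR F) (r : ℕ) : SlowR fun s => F s ^ r := by
  induction r with
  | zero =>
    refine SlowR.of_exp (A := 0) (k := 0) fun s _ => ?_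
    simp
  | succ r ih =>
    have := ih.mul hF
    refine (fun δ hδ => ?_)
    obtain ⟨K, hK, H⟩ := this δ hδ
    refine ⟨K, hK, fun s hs => ?_⟩
    show ‖F s ^ (r + 1)‖ ≤ _
    rw [pow_succ]
    exact H s hs

lemma SlowR.prod {ι : Type} (S : Finset ι) {F : ι → ℂ → ℂ} (hF : ∀ i, SlowR (F i)) :
    SlowR fun s => ∏ i ∈ S, F i s := by
  classical
  induction S using Finset.induction_on with
  | empty =>
    refine SlowR.of_exp (A := 0) (k := 0) fun s _ => ?_
    simp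
  | insert i S hi ih =>
    have := (hF i).mul ih
    intro δ hδ
    obtain ⟨K, hK, H⟩ := this δ hδ
    refine ⟨K, hK, fun s hs => ?_⟩
    show ‖∏ j ∈ insert i S, F j s‖ ≤ _
    rw [Finset.prod_insert hi]
    exact H s hs

theorem Raw.slow (hC : S_COEF) (hS : S_SLOW) (hG : S_GAM) (h : Raw m r N a b c X) : Slow X := by
  refine ⟨h.entire, hS X h.entire h.order h.fe ?_⟩
  have hlin : SlowR fun s : ℂ => s := by
    refine SlowR.of_exp (A := 0) (k := 1) fun s _ => ?_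
    have := Real.add_one_le_exp ‖s‖
    rw [zero_add, one_mul]
    linarith
  have hlin1 : SlowR fun s : ℂ => s - 1 := by
    refine SlowR.of_exp (A := 0) (k := 1) fun s _ => ?_
    have := Real.add_one_le_exp ‖s‖
    have h2 := norm_sub_le s 1
    rw [norm_one] at h2
    rw [zero_add, one_mul]
    linarith
  have hN0 : 0 < N := by linarith [h.hN]
  have hcp : SlowR fun s : ℂ => (N : ℂ) ^ (s / 2) := by
    refine SlowR.of_exp (A := 0) (k := Real.log N) fun s hs => ?_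
    rw [Complex.norm_cpow_eq_rpow_re_of_pos hN0, Real.rpow_def_of_pos hN0, zero_add]
    apply Real.exp_le_exp.2
    have h1 : (s / 2).re ≤ ‖s‖ := by
      have e : (s / 2).re = s.re / 2 := by
        rw [show (2 : ℂ) = ((2 : ℝ) : ℂ) by norm_num, Complex.div_ofReal_re]
      rw [e]
      have := Complex.re_le_norm s
      linarith
    exact mul_le_mul_of_nonneg_left h1 (Real.log_nonneg h.hN)
  have hga : SlowR fun s : ℂ => ∏ j, Gammaℝ (s + a j) :=
    SlowR.prod Finset.univ fun j => hG (a j) (h.re_ge j)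
  have hL : SlowR fun s : ℂ => LSeries b s := by
    have h2 : LSeriesSummable b 2 := h.summ hC (by norm_num)
    refine SlowR.of_exp (A := ∑' n, ‖LSeries.term b 2 n‖) (k := 0) fun s hs => ?_
    have h3 : ∀ n, ‖LSeries.term b s n‖ ≤ ‖LSeries.term b 2 n‖ := fun n =>
      LSeries.norm_term_le_of_re_le_re b (by simpa using hs) n
    have h4 : Summable fun n => ‖LSeries.term b 2 n‖ := h2.norm
    have h5 : Summable fun n => ‖LSeries.term b s n‖ :=
      Summable.of_nonneg_of_le (fun _ => norm_nonneg _) h3 h4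
    have h6 : ‖LSeries b s‖ ≤ ∑' n, ‖LSeries.term b 2 n‖ := by
      unfold LSeries
      exact (norm_tsum_le_tsum_norm h5).trans (h5.tsum_le_tsum h3 h4)
    have := Real.add_one_le_exp (∑' n, ‖LSeries.term b 2 n‖)
    rw [zero_mul, add_zero]
    linarith
  have key := ((hcp.mul hga).mul (((hlin.mul hlin1).pow r).mul hL))
  intro δ hδ
  obtain ⟨K, hK, H⟩ := key δ hδ
  refine ⟨K, hK, fun s hs => ?_⟩
  rw [h.eq' hC (by linarith), gaf_eq]
  exact H s hs

/-- L-functions with an Euler product belong to our class -/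
theorem Raw.ul (hC : S_COEF) (hS : S_SLOW) (hG : S_GAM) (h : Raw m r N a b c X) :
    UL m Bst N 0 (fun j => -a j) X (fun s => (s * (s - 1)) ^ r * LSeries b s) := by
  have hs0 : ∀ s : ℂ, 1 < s.re → s ≠ 0 := fun s hs h0 => by
    rw [h0] at hs; norm_num at hs
  have hs1 : ∀ s : ℂ, 1 < s.re → s - 1 ≠ 0 := fun s hs h0 => by
    rw [sub_eq_zero] at h0
    rw [h0] at hs; norm_num at hs
  refine ⟨h.hm, h.hN, Bst_nonneg, le_rfl, h.re_le, h.slow hC hS hG, h.fe, fun s hs => ?_,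
    fun s hs => ?_, fun ρ hρ _ s hs => ?_⟩
  · exact h.eq' hC (by linarith)
  · have hs' : 1 < s.re := by linarith
    exact mul_ne_zero (pow_ne_zero _ (mul_ne_zero (hs0 s hs') (hs1 s hs')))
      (hC m b c h.one h.cb h.conv s hs').2.1
  · have hs' : 1 < s.re := by linarith
    have hne := (hC m b c h.one h.cb h.conv s hs').2.1
    have hld := (hC m b c h.one h.cb h.conv s hs').2.2
    have e1 : logDeriv (fun s : ℂ => (s * (s - 1)) ^ r * LSeries b s) s =
        r * (1 / s + 1 / (s - 1)) + logDeriv (LSeries b) s := by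
      rw [logDeriv_mul (f := fun s : ℂ => (s * (s - 1)) ^ r) (g := LSeries b) s
        (pow_ne_zero _ (mul_ne_zero (hs0 s hs') (hs1 s hs'))) hne (by fun_prop) (lser_an hC h hs')]
      congr 1
      have e2 : logDeriv (fun s : ℂ => (s * (s - 1)) ^ r) s =
          r * logDeriv (fun s : ℂ => s * (s - 1)) s :=
        logDeriv_fun_pow (f := fun s : ℂ => s * (s - 1)) (by fun_prop) r
      rw [e2, logDeriv_mul (f := fun s : ℂ => s) (g := fun s : ℂ => s - 1) s (hs0 s hs') (hs1 s hs')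
        (by fun_prop) (by fun_prop)]
      congr 1
      rw [logDeriv_apply, logDeriv_apply]
      simp
    rw [e1, hld]
    have hm0 : (0 : ℝ) ≤ m := Nat.cast_nonneg m
    have hr0 : (r : ℝ) ≤ m := by exact_mod_cast h.hr
    have hρs : ρ ≤ ‖s - 1‖ := by
      have := Complex.re_le_norm (s - 1)
      rw [sub_re, one_re] at this
      linarith
    have hρ0 : ρ ≤ ‖s‖ := by
      have := Complex.re_le_norm s
      linarith
    have h1 : ‖(r : ℂ) * (1 / s + 1 / (s - 1))‖ ≤ m * |2 / ρ| := by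
      rw [norm_mul, Complex.norm_natCast, abs_of_pos (by positivity)]
      have h2 : ‖1 / s + 1 / (s - 1)‖ ≤ 2 / ρ := by
        refine (norm_add_le _ _).trans ?_
        rw [norm_div, norm_div, norm_one]
        have h3 : 1 / ‖s‖ ≤ 1 / ρ := one_div_le_one_div_of_le hρ hρ0
        have h4 : 1 / ‖s - 1‖ ≤ 1 / ρ := one_div_le_one_div_of_le hρ hρs
        have h5 : 2 / ρ = 1 / ρ + 1 / ρ := by ring
        linarith
      exact mul_le_mul hr0 h2 (norm_nonneg _) hm0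
    have h2 := lc_bound h.cb hρ (s := s) (by linarith)
    unfold Bst
    refine (norm_add_le _ _).trans ?_
    rw [norm_neg]
    linarith

end Pool.Agent.W355.UN
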