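import Pool.Agent.W355.UN.Fwd
import Pool.Agent.H353R6.E10

/-!
# From L-functions to profiles, at every scale
-/

set_option autoImplicit false

open Complex MeasureTheory Filter Topology Set
open scoped ComplexConjugate

namespace Pool.Agent.W355.UN

open Pool.Agent.W169.HF H353.E

/-- an L-function of degree `m` and conductor `N`: `X = gaf N μ · L` for `Re s > 1 + θ`, and `L'/L` is
at most `m B(ρ)` for `Re s ≥ 1 + θ + ρ` -/
structure UL (m : ℕ) (B : ℝ → ℝ) (N θ : ℝ) (μ : Fin m → ℂ) (X L : ℂ → ℂ) : Prop where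
  hm : 1 ≤ m
  hN : 1 ≤ N
  hB : ∀ ρ, 0 ≤ B ρ
  hθ : 0 ≤ θ
  re_le : ∀ j, (μ j).re ≤ 1 / 2
  slow : Slow X
  fe : ∃ ε : ℂ, ‖ε‖ = 1 ∧ ∀ s : ℂ, X s = ε * conj (X (1 - conj s))
  eq : ∀ s : ℂ, 1 + θ < s.re → X s = gaf N μ s * L s
  ne : ∀ s : ℂ, 1 + θ < s.re → L s ≠ 0
  bd : ∀ ρ : ℝ, 0 < ρ → ρ ≤ 1 → ∀ s : ℂ, 1 + θ + ρ ≤ s.re → ‖logDeriv L s‖ ≤ m * B ρ

variable {m : ℕ} {B : ℝ → ℝ} {N θ : ℝ} {μ : Fin m → ℂ} {X L : ℂ → ℂ}

lemma UL.gp (h : UL m B N θ μ X L) :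
    GP (6 * m) (fun K => 4 * Real.exp (2 * |K| + 10)) (gaf N μ) (gaD N μ) :=
  gaf_GP h.hm h.hN h.re_le

lemma UL.Xne (h : UL m B N θ μ X L) {s : ℂ} (hs : 1 + θ < s.re) : X s ≠ 0 := by
  rw [h.eq s hs]
  exact mul_ne_zero (h.gp.ne s (by linarith [h.hθ])) (h.ne s hs)

lemma UL.logD (h : UL m B N θ μ X L) {s : ℂ} (hs : 1 + θ < s.re) :
    logDeriv X s = gaD N μ s + logDeriv L s := by
  have hs1 : 1 ≤ s.re := by linarith [h.hθ]
  have hγ := h.gp.der s hs1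
  have hγ0 := h.gp.ne s hs1
  have hev : ∀ᶠ z in 𝓝 s, X z = gaf N μ z * L z := by
    have : ∀ᶠ z in 𝓝 s, 1 + θ < z.re :=
      (Complex.continuous_re.tendsto s).eventually (lt_mem_nhds hs)
    exact this.mono fun z hz => h.eq z hz
  have hev2 : L =ᶠ[𝓝 s] fun z => X z / gaf N μ z := by
    have : ∀ᶠ z in 𝓝 s, 1 < z.re :=
      (Complex.continuous_re.tendsto s).eventually (lt_mem_nhds (by linarith [h.hθ]))
    filter_upwards [hev, this] with z h1 h2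
    rw [h1, mul_div_cancel_left₀ _ (h.gp.ne z h2.le)]
  have hL : DifferentiableAt ℂ L s :=
    (((h.slow.1 s).div hγ.differentiableAt hγ0).congr_of_eventuallyEq hev2)
  have h1 : logDeriv X s = logDeriv (fun z => gaf N μ z * L z) s := by
    rw [logDeriv_apply, logDeriv_apply]
    rw [Filter.EventuallyEq.deriv_eq hev, h.eq s hs]
  rw [h1, logDeriv_mul s hγ0 (h.ne s hs) hγ.differentiableAt hL]
  congr 1
  rw [logDeriv_apply, hγ.deriv]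
  field_simp

/-- growth along a segment -/
lemma seg {F : ℂ → ℂ} {s v : ℂ} {ℓ K : ℝ}
    (hd : ∀ τ ∈ Icc (0 : ℝ) 1, DifferentiableAt ℂ F (s + τ * v))
    (h0 : ∀ τ ∈ Icc (0 : ℝ) 1, F (s + τ * v) ≠ 0)
    (hK : ∀ τ ∈ Icc (0 : ℝ) 1, ‖logDeriv F (s + τ * v) - ℓ‖ ≤ K) :
    ‖F (s + v)‖ ≤ ‖F s‖ * Real.exp (ℓ * v.re + K * ‖v‖) := by
  obtain ⟨h, hh⟩ : ∃ h : ℝ → ℂ, h = fun τ : ℝ => F (s + (τ : ℂ) * v) * cexp (-((ℓ : ℂ) * ((τ : ℂ) * v))) := ⟨_, rfl⟩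
  have hder : ∀ τ ∈ Icc (0 : ℝ) 1, HasDerivAt h (h τ * ((logDeriv F (s + τ * v) - ℓ) * v)) τ := by
    intro τ hτ
    have h1 : HasDerivAt (fun x : ℝ => s + (x : ℂ) * v) v τ := by
      have := ((hasDerivAt_id (τ : ℝ)).ofReal_comp.mul_const v).const_add s
      simpa using this
    have h2 : HasDerivAt (fun x : ℝ => F (s + (x : ℂ) * v)) (deriv F (s + τ * v) * v) τ :=
      HasDerivAt.comp_of_eq (h₂ := F) τ (hd τ hτ).hasDerivAt h1 rfl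
    have h3 : HasDerivAt (fun x : ℝ => -((ℓ : ℂ) * ((x : ℂ) * v))) (-((ℓ : ℂ) * v)) τ := by
      have := (((hasDerivAt_id (τ : ℝ)).ofReal_comp.mul_const v).const_mul (ℓ : ℂ)).fun_neg
      simpa using this
    have h4 := h2.fun_mul h3.cexp
    rw [hh]
    refine h4.congr_deriv ?_
    have h5 := h0 τ hτ
    rw [logDeriv_apply]
    field_simp
    ring
  have hb := norm_le_gronwallBound_of_norm_deriv_right_le (f := h)
    (f' := fun τ => h τ * ((logDeriv F (s + τ * v) - ℓ) * v)) (δ := ‖F s‖) (K := K * ‖v‖) (ε := 0)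
    (a := 0) (b := 1) (fun τ hτ => (hder τ hτ).continuousAt.continuousWithinAt)
    (fun τ hτ => (hder τ ⟨hτ.1, hτ.2.le⟩).hasDerivWithinAt)
    (by rw [hh]; simp)
    (fun τ hτ => by
      rw [norm_mul, norm_mul, add_zero, mul_comm]
      have := hK τ ⟨hτ.1, hτ.2.le⟩
      gcongr) 1 (by simp)
  rw [gronwallBound_ε0, hh] at hb
  simp only [ofReal_one, one_mul, sub_zero, mul_one] at hb
  rw [norm_mul, Complex.norm_exp] at hb
  have e1 : (-((ℓ : ℂ) * v)).re = -(ℓ * v.re) := by simp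
  rw [e1] at hb
  calc ‖F (s + v)‖ = ‖F (s + v)‖ * Real.exp (-(ℓ * v.re)) * Real.exp (ℓ * v.re) := by
        rw [mul_assoc, ← Real.exp_add]; simp
    _ ≤ ‖F s‖ * Real.exp (K * ‖v‖) * Real.exp (ℓ * v.re) := by gcongr
    _ = _ := by rw [Real.exp_add]; ring

lemma slow_affine {f : ℂ → ℂ} (hf : Slow f) (c : ℂ) {S : ℝ} (hS : 0 < S) :
    Slow (fun u => f (c + S * u)) := by
  refine ⟨hf.1.comp (by fun_prop), fun δ hδ => ?_⟩
  obtain ⟨K, hK, h⟩ := hf.2 (δ / (2 * S ^ 2)) (by positivity)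
  refine ⟨K * Real.exp (δ / (2 * S ^ 2) * (2 * ‖c‖ ^ 2)), by positivity, fun z => (h _).trans ?_⟩
  rw [mul_assoc, ← Real.exp_add]
  have h1 : ‖c + S * z‖ ≤ ‖c‖ + S * ‖z‖ := by
    refine (norm_add_le _ _).trans ?_
    rw [norm_mul, Complex.norm_real, Real.norm_eq_abs, abs_of_pos hS]
  have h2 : ‖c + S * z‖ ^ 2 ≤ 2 * ‖c‖ ^ 2 + 2 * S ^ 2 * ‖z‖ ^ 2 := by
    have h3 : ‖c + S * z‖ ^ 2 ≤ (‖c‖ + S * ‖z‖) ^ 2 := by gcongr
    nlinarith [sq_nonneg (‖c‖ - S * ‖z‖)]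
  have h4 : δ / (2 * S ^ 2) * ‖c + S * z‖ ^ 2 ≤
      δ / (2 * S ^ 2) * (2 * ‖c‖ ^ 2) + δ * ‖z‖ ^ 2 := by
    calc δ / (2 * S ^ 2) * ‖c + S * z‖ ^ 2 ≤ δ / (2 * S ^ 2) * (2 * ‖c‖ ^ 2 + 2 * S ^ 2 * ‖z‖ ^ 2) := by
          gcongr
      _ = _ := by field_simp
  gcongr

/-- Phragmén-Lindelöf with a Gaussian factor -/
lemma strip {f : ℂ → ℂ} (hf : Slow f) {K ϑ0 A : ℝ} (hK : 0 < K) (hϑ : 0 < ϑ0)
    (hA : ∀ u : ℂ, |u.re| = ϑ0 → ‖f u‖ ≤ A * Real.exp (K * (1 + ‖u‖ ^ 2))) {u : ℂ} (hu : |u.re| ≤ ϑ0) :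
    ‖f u‖ ≤ A * Real.exp (K * (1 + 2 * ϑ0 ^ 2 + ‖u‖ ^ 2)) := by
  have hre : ∀ z : ℂ, (K * z ^ 2 : ℂ).re = K * (z.re ^ 2 - z.im ^ 2) := by
    intro z
    rw [Complex.re_ofReal_mul]
    congr 1
    simp [sq, Complex.mul_re]
  have hn : ∀ z : ℂ, ‖z‖ ^ 2 = z.re ^ 2 + z.im ^ 2 := by
    intro z
    rw [Complex.sq_norm, Complex.normSq_apply]
    ring
  have hedge : ∀ z : ℂ, |z.re| = ϑ0 → ‖f z * cexp (K * z ^ 2)‖ ≤ A * Real.exp (K * (1 + 2 * ϑ0 ^ 2)) := by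
    intro z hz
    have hz2 : z.re ^ 2 = ϑ0 ^ 2 := by rw [← hz, sq_abs]
    rw [norm_mul, Complex.norm_exp, hre]
    calc ‖f z‖ * Real.exp (K * (z.re ^ 2 - z.im ^ 2))
        ≤ A * Real.exp (K * (1 + ‖z‖ ^ 2)) * Real.exp (K * (z.re ^ 2 - z.im ^ 2)) := by
          have := hA z hz
          gcongr
      _ = A * Real.exp (K * (1 + 2 * ϑ0 ^ 2)) := by
          rw [mul_assoc, ← Real.exp_add, hn, hz2]
          congr 2
          ring
  have hPL := PhragmenLindelof.vertical_strip (a := -ϑ0) (b := ϑ0)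
    (f := fun z => f z * cexp (K * z ^ 2)) (C := A * Real.exp (K * (1 + 2 * ϑ0 ^ 2))) (z := u) ?_ ?_
    (fun z hz => hedge z (by rw [hz, abs_neg, abs_of_pos hϑ]))
    (fun z hz => hedge z (by rw [hz, abs_of_pos hϑ])) (abs_le.1 hu).1 (abs_le.1 hu).2
  · rw [norm_mul, Complex.norm_exp, hre] at hPL
    calc ‖f u‖ = ‖f u‖ * Real.exp (K * (u.re ^ 2 - u.im ^ 2)) * Real.exp (-(K * (u.re ^ 2 - u.im ^ 2))) := by
          rw [mul_assoc, ← Real.exp_add]; simp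
      _ ≤ A * Real.exp (K * (1 + 2 * ϑ0 ^ 2)) * Real.exp (-(K * (u.re ^ 2 - u.im ^ 2))) := by gcongr
      _ = A * Real.exp (K * (1 + 2 * ϑ0 ^ 2) + -(K * (u.re ^ 2 - u.im ^ 2))) := by
          rw [mul_assoc, ← Real.exp_add]
      _ ≤ _ := by
          have hA0 : 0 ≤ A := by
            have h1 := hA ϑ0 (by simp [abs_of_pos hϑ])
            by_contra hneg
            push Not at hneg
            have : A * Real.exp (K * (1 + ‖(ϑ0 : ℂ)‖ ^ 2)) < 0 :=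
              mul_neg_of_neg_of_pos hneg (Real.exp_pos _)
            linarith [norm_nonneg (f ϑ0)]
          have : K * (1 + 2 * ϑ0 ^ 2) + -(K * (u.re ^ 2 - u.im ^ 2)) ≤
              K * (1 + 2 * ϑ0 ^ 2 + ‖u‖ ^ 2) := by
            rw [hn]
            nlinarith [mul_nonneg hK.le (sq_nonneg u.re)]
          gcongr
  · exact (hf.1.mul (by fun_prop)).diffContOnCl
  · refine ⟨0, div_pos Real.pi_pos (by linarith), 0, ?_⟩
    obtain ⟨K', hK', h⟩ := hf.2 K hK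
    refine Asymptotics.IsBigO.of_bound (K' * Real.exp (2 * K * ϑ0 ^ 2)) ?_
    refine (Filter.Eventually.filter_mono inf_le_right ?_)
    rw [Filter.eventually_principal]
    intro z hz
    have hz1 : -ϑ0 < z.re ∧ z.re < ϑ0 := hz
    have hz2 : z.re ^ 2 ≤ ϑ0 ^ 2 := by
      apply sq_le_sq'
      · linarith [hz1.1]
      · linarith [hz1.2]
    rw [norm_mul, Complex.norm_exp, hre]
    simp only [zero_mul, Real.exp_zero, norm_one, mul_one]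
    calc ‖f z‖ * Real.exp (K * (z.re ^ 2 - z.im ^ 2))
        ≤ K' * Real.exp (K * ‖z‖ ^ 2) * Real.exp (K * (z.re ^ 2 - z.im ^ 2)) := by
          have := h z
          gcongr
      _ = K' * Real.exp (2 * K * z.re ^ 2) := by
          rw [mul_assoc, ← Real.exp_add, hn]
          congr 2
          ring
      _ ≤ _ := by gcongr

end Pool.Agent.W355.UN
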