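import Pool.Agent.W355.UN.Inst2
import Pool.Agent.W440.TW.Twist

/-!
# Twists of newforms of weight two
-/

set_option autoImplicit false

open Complex Filter Topology Set UpperHalfPlane MatrixGroups CongruenceSubgroup
open scoped ComplexConjugate

namespace Pool.Agent.W355.UN

open Pool.Agent.W355.LJ
open Pool.Agent.H471R3.GJ (Hc IsHc)

theorem Eu2.le {b : ℕ → ℂ} (h : Eu2 b) {n : ℕ} (hn : n ≠ 0) : ‖b n‖ ≤ n.divisors.card := by
  revert hn
  induction n using Nat.recOnPosPrimePosCoprime with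
  | prime_pow p k hp hk =>
    intro _
    rw [Nat.divisors_prime_pow hp, Finset.card_map, Finset.card_range]
    push_cast
    obtain ⟨u, v, hu, hv, h1, h2⟩ := h.pow p hp
    refine Pool.Agent.H304R3.HK.f_bound u v hu hv (fun k => b (p ^ k)) ?_ ?_ (fun k => ?_) k
    · show b (p ^ 0) = 1
      rw [pow_zero]; exact h.one
    · show b (p ^ 1) = u + v
      rw [pow_one, h1]
    · show b (p ^ (k + 2)) = (u + v) * b (p ^ (k + 1)) - u * v * b (p ^ k)
      rw [← h1]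
      exact h2 k
  | zero => exact fun h => absurd rfl h
  | one => intro _; rw [h.one]; simp
  | coprime a b ha hb hab iha ihb =>
    intro _
    rw [h.mul a b hab, norm_mul, Nat.Coprime.card_divisors_mul hab]
    push_cast
    exact mul_le_mul (iha (by omega)) (ihb (by omega)) (norm_nonneg _) (Nat.cast_nonneg _)

section
variable {N : ℕ} [NeZero N] (f : CuspForm (Gamma0 N : Subgroup (GL (Fin 2) ℝ)) 2)

/-- the normalised coefficients -/
noncomputable def lam2 (n : ℕ) : ℂ := (qExpansion 1 f).coeff n * ((((n : ℝ) ^ (-(1 / 2 : ℝ)) : ℝ)) : ℂ)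

/-- the data of the twist -/
noncomputable def twHc (q : ℕ) (χ : DirichletCharacter ℂ q) (w : ℂ) : Hc where
  φ y := ∑' n : ℕ, χ (n : ZMod q) * (qExpansion 1 f).coeff n *
      (Real.exp (-(2 * Real.pi * n / (Real.sqrt N * q)) * y) : ℂ)
  b n := χ (n : ZMod q) * (qExpansion 1 f).coeff n
  k := 2
  h := Real.sqrt N * q
  p := 1
  β := 3 / 2
  B := 1
  ε := w

theorem coeff_zero0 : (qExpansion 1 f).coeff 0 = 0 := by
  have h1 : (1 : ℝ) ∈ (Gamma0 N : Subgroup (GL (Fin 2) ℝ)).strictPeriods := by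
    rw [strictPeriods_Gamma0]
    exact AddSubgroup.mem_zmultiples 1
  rw [CuspFormClass.qExpansion_coeff_zero (Γ := (Gamma0 N : Subgroup (GL (Fin 2) ℝ))) (k := 2) f
    one_pos h1]

theorem coeff_le (hE : Eu2 (lam2 f)) {n : ℕ} (hn : 1 ≤ n) :
    ‖(qExpansion 1 f).coeff n‖ ≤ (n : ℝ) ^ (3 / 2 : ℝ) := by
  have hn0 : (0 : ℝ) < n := by exact_mod_cast hn
  have h1 := hE.le (n := n) (by omega)
  have h2 : ((n.divisors.card : ℕ) : ℝ) ≤ n := by exact_mod_cast Nat.card_divisors_le_self n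
  have h3 : ‖lam2 f n‖ = ‖(qExpansion 1 f).coeff n‖ * (n : ℝ) ^ (-(1 / 2 : ℝ)) := by
    unfold lam2
    rw [norm_mul, Complex.norm_real, Real.norm_of_nonneg (Real.rpow_nonneg hn0.le _)]
  have h4 : ‖(qExpansion 1 f).coeff n‖ = ‖lam2 f n‖ * (n : ℝ) ^ (1 / 2 : ℝ) := by
    rw [h3, mul_assoc, ← Real.rpow_add hn0]
    norm_num
  rw [h4]
  have e : (3 / 2 : ℝ) = 1 + 1 / 2 := by norm_num
  rw [e, Real.rpow_add hn0, Real.rpow_one]
  gcongr
  exact h1.trans h2

theorem tw_isHc (hE : Eu2 (lam2 f)) {ε : ℝ} (hf : W388.IsNewf N 2 f ε) {q : ℕ} [NeZero q]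
    (χ : DirichletCharacter ℂ q) (hχ : χ.IsPrimitive) (hco : Nat.Coprime q N) :
    ∃ w : ℂ, IsHc (twHc f q χ w) := by
  obtain ⟨w, hw, hfe⟩ := Pool.Agent.W440.TW.t_twist N 2 (by norm_num) f ε hf q χ hχ hco
  have hN : (0 : ℝ) < N := by exact_mod_cast Nat.pos_of_ne_zero (NeZero.ne N)
  have hq : (0 : ℝ) < q := by exact_mod_cast Nat.pos_of_ne_zero (NeZero.ne q)
  have hsN : 0 < Real.sqrt N := Real.sqrt_pos.2 hN
  have hR : 0 < Real.sqrt N * q := by positivity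
  have hb : ∀ m : ℕ, 1 ≤ m → ‖χ (m : ZMod q) * (qExpansion 1 f).coeff m‖ ≤ (m : ℝ) ^ (3 / 2 : ℝ) := by
    intro m hm
    rw [norm_mul]
    have h1 := χ.norm_le_one (m : ZMod q)
    have h2 := coeff_le f hE hm
    calc ‖χ (m : ZMod q)‖ * ‖(qExpansion 1 f).coeff m‖ ≤ 1 * (m : ℝ) ^ (3 / 2 : ℝ) :=
          mul_le_mul h1 h2 (norm_nonneg _) zero_le_one
      _ = _ := one_mul _
  refine ⟨w, two_pos, hR, le_refl 1, ?_, le_rfl, ?_, fun m hm => ?_, ?_, hw, ?_⟩
  · show (0 : ℝ) ≤ 3 / 2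
    norm_num
  · show χ ((1 : ℕ) : ZMod q) * (qExpansion 1 f).coeff 1 = 1
    rw [Nat.cast_one, map_one, hf.one, one_mul]
  · show ‖χ (m : ZMod q) * (qExpansion 1 f).coeff m‖ ≤ 1 * (m : ℝ) ^ (3 / 2 : ℝ)
    rw [one_mul]
    exact hb m hm
  · intro y hy
    have hsum : Summable fun n : ℕ => χ (n : ZMod q) * (qExpansion 1 f).coeff n *
        (Real.exp (-(2 * Real.pi * n / (Real.sqrt N * q)) * y) : ℂ) := by
      have hc : 0 < 2 * Real.pi / (Real.sqrt N * q) * y := by positivity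
      have h1 : Summable fun n : ℕ => (n : ℝ) ^ 2 * Real.exp (-(2 * Real.pi / (Real.sqrt N * q) * y) * n) :=
        Real.summable_pow_mul_exp_neg_nat_mul 2 hc
      refine Summable.of_norm_bounded h1 fun n => ?_
      rcases Nat.eq_zero_or_pos n with rfl | hn
      · simp [coeff_zero0 f]
      · have hn1 : (1 : ℝ) ≤ n := by exact_mod_cast hn
        rw [norm_mul, Complex.norm_real, Real.norm_of_nonneg (Real.exp_pos _).le]
        have h2 : (n : ℝ) ^ (3 / 2 : ℝ) ≤ (n : ℝ) ^ 2 := by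
          rw [← Real.rpow_natCast]
          exact Real.rpow_le_rpow_of_exponent_le hn1 (by norm_num)
        have h3 := (hb n hn).trans h2
        have e : -(2 * Real.pi * n / (Real.sqrt N * q)) * y =
            -(2 * Real.pi / (Real.sqrt N * q) * y) * n := by ring
        rw [e]
        gcongr
    have h4 := (hasSum_nat_add_iff' 1).2 hsum.hasSum
    simp only [Finset.range_one, Finset.sum_singleton, coeff_zero0 f, mul_zero, zero_mul, sub_zero] at h4
    refine h4.congr_fun ?_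
    intro m
    show χ ((m + 1 : ℕ) : ZMod q) * (qExpansion 1 f).coeff (m + 1) *
      ((Real.exp (-(2 * Real.pi * ((m + 1 : ℕ) : ℝ) ^ 1 * y / (Real.sqrt N * q))) : ℝ) : ℂ) = _
    rw [pow_one]
    congr 3
    congr 1
    ring
  · intro y hy
    show ∑' n : ℕ, χ (n : ZMod q) * (qExpansion 1 f).coeff n *
      (Real.exp (-(2 * Real.pi * n / (Real.sqrt N * q)) * (1 / y)) : ℂ) =
      w * ((y ^ (2 : ℝ) : ℝ) : ℂ) * conj (∑' n : ℕ, χ (n : ZMod q) * (qExpansion 1 f).coeff n *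
      (Real.exp (-(2 * Real.pi * n / (Real.sqrt N * q)) * y) : ℂ))
    have h1 := hfe y hy
    rw [Complex.conj_tsum]
    have e1 : ∀ n : ℕ, conj (χ (n : ZMod q) * (qExpansion 1 f).coeff n *
        (Real.exp (-(2 * Real.pi * n / (Real.sqrt N * q)) * y) : ℂ)) =
        conj (χ (n : ZMod q) * (qExpansion 1 f).coeff n) *
        (Real.exp (-(2 * Real.pi * n / (Real.sqrt N * q)) * y) : ℂ) := fun n => by
      rw [map_mul, Complex.conj_ofReal]
    simp only [e1]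
    have e2 : ((y ^ (2 : ℝ) : ℝ) : ℂ) = (y : ℂ) ^ (2 : ℤ) := by
      rw [Real.rpow_two]
      push_cast
      rfl
    rw [e2, ← h1]
    refine tsum_congr fun n => ?_
    rw [mul_one_div]

theorem tw_raw (hE : Eu2 (lam2 f)) {ε : ℝ} (hf : W388.IsNewf N 2 f ε) {q : ℕ} [NeZero q]
    (χ : DirichletCharacter ℂ q) (hχ : χ.IsPrimitive) (hco : Nat.Coprime q N) :
    ∃ (c : ℕ → ℂ) (X : ℂ → ℂ), RawL [(((1 / 2 : ℝ)) : ℂ), (((3 / 2 : ℝ)) : ℂ)] 0
      ((N : ℝ) * (q : ℝ) ^ 2) (fun n => χ (n : ZMod q) * lam2 f n) c X := by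
  obtain ⟨w, hHc⟩ := tw_isHc f hE hf χ hχ hco
  have h := hc_isC1 _ hHc rfl
  obtain ⟨c, hc, hconv⟩ := (hE.twist χ).conv
  have hN1 : (1 : ℝ) ≤ N := by exact_mod_cast Nat.one_le_iff_ne_zero.2 (NeZero.ne N)
  have hq1 : (1 : ℝ) ≤ q := by exact_mod_cast Nat.one_le_iff_ne_zero.2 (NeZero.ne q)
  have hNq : (1 : ℝ) ≤ (N : ℝ) * (q : ℝ) ^ 2 := by
    have : (1 : ℝ) ≤ (q : ℝ) ^ 2 := one_le_pow₀ hq1
    nlinarith
  have e1 : Real.log (twHc f q χ w).h = 1 / 2 * Real.log ((N : ℝ) * (q : ℝ) ^ 2) := by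
    show Real.log (Real.sqrt N * q) = _
    rw [Real.log_mul (by positivity) (by positivity), Real.log_mul (by positivity) (by positivity),
      Real.log_sqrt (by positivity), Real.log_pow]
    push_cast
    ring
  have e2 : ((twHc f q χ w).k - 1) / 2 = 1 / 2 := by
    show ((2 : ℝ) - 1) / 2 = 1 / 2
    norm_num
  have e3 : ((twHc f q χ w).k + 1) / 2 = 3 / 2 := by
    show ((2 : ℝ) + 1) / 2 = 3 / 2
    norm_num
  rw [e1, e2, e3] at h
  have hw : ‖(twHc f q χ w).ε‖ = 1 := hHc.ε_norm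
  have := raw_of_isC (l := [1 / 2, 3 / 2]) (by simp) hNq (fun a ha => ?_)
    (h.congr (b' := fun n => χ (n : ZMod q) * lam2 f n) fun n _ => ?_) hw
    (c := c) (fun n => by simpa using hc n) hconv
  · exact ⟨c, _, this⟩
  · simp only [List.mem_cons, List.not_mem_nil, or_false] at ha
    rcases ha with rfl | rfl <;> norm_num
  · show χ (n : ZMod q) * lam2 f n = χ (n : ZMod q) * (qExpansion 1 f).coeff n *
      ((((n : ℝ) ^ (-(1 / 2 : ℝ)) : ℝ)) : ℂ)
    unfold lam2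
    ring

end

end Pool.Agent.W355.UN
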